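import Mathlib

/-! Chinese remainder and Hensel helpers. -/

namespace Pool.Agent.Lib.MP_f6c7cf_nt.E

open Finset
open scoped Quaternion RealInnerProductSpace Classical Matrix

theorem crt_aux (s : Finset ℕ) (m : ℕ → ℤ)
    (hm : ∀ p ∈ s, ∀ q ∈ s, p ≠ q → IsCoprime (m p) (m q)) (f : ℕ → ℤ) :
    ∃ x : ℤ, ∀ p ∈ s, x ≡ f p [ZMOD m p] := by
  induction s using Finset.induction_on with
  | empty => exact ⟨0, by simp⟩
  | insert a s ha ih =>
    obtain ⟨x, hx⟩ := ih fun p hp q hq =>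
      hm p (mem_insert_of_mem hp) q (mem_insert_of_mem hq)
    have hc : IsCoprime (m a) (∏ p ∈ s, m p) := IsCoprime.prod_right fun p hp =>
      hm a (mem_insert_self _ _) p (mem_insert_of_mem hp) fun e => ha (e ▸ hp)
    obtain ⟨u, v, huv⟩ := hc
    refine ⟨x * (u * m a) + f a * (v * ∏ p ∈ s, m p), fun p hp => ?_⟩
    rcases mem_insert.1 hp with rfl | hp
    · refine Int.ModEq.symm ((Int.modEq_iff_dvd).2 ⟨x * u - f p * u, ?_⟩)
      linear_combination f p * huv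
    · refine Int.ModEq.trans (Int.ModEq.symm ((Int.modEq_iff_dvd).2 ?_)) (hx p hp)
      have h1 : m p ∣ ∏ p ∈ s, m p := Finset.dvd_prod_of_mem _ hp
      have h2 : x * (u * m a) + f a * (v * ∏ p ∈ s, m p) - x =
          (∏ p ∈ s, m p) * (f a * v - x * v) := by linear_combination x * huv
      rw [h2]
      exact h1.mul_right _

theorem coprime_pp {M : ℕ} {p q : ℕ} (hp : p ∈ M.primeFactors) (hq : q ∈ M.primeFactors)
    (h : p ≠ q) : Nat.Coprime (p ^ M.factorization p) (q ^ M.factorization q) :=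
  Nat.Coprime.pow _ _ ((Nat.coprime_primes (Nat.prime_of_mem_primeFactors hp)
    (Nat.prime_of_mem_primeFactors hq)).2 h)

theorem crt {ι : Type*} (M : ℕ) (f : ℕ → ι → ℤ) :
    ∃ x : ι → ℤ, ∀ p ∈ M.primeFactors, ∀ i,
      x i ≡ f p i [ZMOD ((p ^ M.factorization p : ℕ) : ℤ)] := by
  have h := fun i => crt_aux M.primeFactors (fun p => ((p ^ M.factorization p : ℕ) : ℤ))
    (fun p hp q hq h => Nat.isCoprime_iff_coprime.2 (coprime_pp hp hq h)) fun p => f p i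
  choose x hx using h
  exact ⟨x, fun p hp i => hx i p hp⟩

theorem modEq_of_local {M : ℕ} (hM : M ≠ 0) {a b : ℤ}
    (h : ∀ p ∈ M.primeFactors, a ≡ b [ZMOD ((p ^ M.factorization p : ℕ) : ℤ)]) :
    a ≡ b [ZMOD (M : ℤ)] := by
  rw [Int.modEq_iff_dvd]
  have h1 : (M : ℤ) = ∏ p ∈ M.primeFactors, ((p ^ M.factorization p : ℕ) : ℤ) := by
    rw [← Nat.cast_prod]
    congr 1
    conv_lhs => rw [← Nat.prod_factorization_pow_eq_self hM]
    rfl
  rw [h1]
  refine Finset.prod_dvd_of_coprime (fun p hp q hq hpq => ?_) fun p hp => (h p hp).dvd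
  exact Nat.isCoprime_iff_coprime.2 (coprime_pp hp hq hpq)

theorem hensel {p : ℕ} (hp : p.Prime) {a b c x₀ : ℤ} (h₀ : (p : ℤ) ∣ a * x₀ ^ 2 + b * x₀ + c)
    (h₁ : ¬ (p : ℤ) ∣ 2 * a * x₀ + b) (e : ℕ) :
    ∃ x : ℤ, x ≡ x₀ [ZMOD (p : ℤ)] ∧ (p : ℤ) ^ e ∣ a * x ^ 2 + b * x + c := by
  have key : ∀ e : ℕ, ∃ x : ℤ, x ≡ x₀ [ZMOD (p : ℤ)] ∧
      (p : ℤ) ^ (e + 1) ∣ a * x ^ 2 + b * x + c := by
    intro e
    induction e with
    | zero => exact ⟨x₀, Int.ModEq.refl _, by simpa using h₀⟩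
    | succ e ih =>
      obtain ⟨x, hx, k, hk⟩ := ih
      have h2 : ¬ (p : ℤ) ∣ 2 * a * x + b := fun h => h₁ (by
        obtain ⟨t, ht⟩ := hx.dvd
        have : 2 * a * x₀ + b = 2 * a * x + b + p * (2 * a * t) := by
          linear_combination 2 * a * ht
        rw [this]
        exact h.add (dvd_mul_right _ _))
      obtain ⟨u, v, huv⟩ :=
        ((Nat.prime_iff_prime_int.1 hp).irreducible.coprime_iff_not_dvd).2 h2
      refine ⟨x - k * v * (p : ℤ) ^ (e + 1), ?_, k * u + a * (k * v) ^ 2 * (p : ℤ) ^ e, ?_⟩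
      · refine Int.ModEq.trans ?_ hx
        refine (Int.modEq_iff_dvd).2 ⟨k * v * (p : ℤ) ^ e, ?_⟩
        ring
      · linear_combination hk - k * (p : ℤ) ^ (e + 1) * huv
  obtain ⟨x, hx, h⟩ := key e
  exact ⟨x, hx, (pow_dvd_pow _ (Nat.le_succ e)).trans h⟩

end Pool.Agent.Lib.MP_f6c7cf_nt.E
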