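import Pool.Agent.Lib.MP_f6c7cf_nt.E.Ideal
import Pool.Agent.Lib.MP_f6c7cf_nt.E.Crt

/-! Weak approximation by reflections. -/

namespace Pool.Agent.Lib.MP_f6c7cf_nt.E

open Finset
open scoped Quaternion RealInnerProductSpace Classical Matrix

namespace Refl

@[simp] theorem toR_re (v : O) : (toR v).re = v.re := rfl
@[simp] theorem toR_imI (v : O) : (toR v).imI = v.imI := rfl
@[simp] theorem toR_imJ (v : O) : (toR v).imJ = v.imJ := rfl
@[simp] theorem toR_imK (v : O) : (toR v).imK = v.imK := rfl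

/-- A quaternion from its coordinates. -/
def mk4 {R : Type} [CommRing R] (a b c d : R) : ℍ[R] := ⟨a, b, c, d⟩

@[simp] theorem mk4_re {R : Type} [CommRing R] (a b c d : R) : (mk4 a b c d).re = a := rfl
@[simp] theorem mk4_imI {R : Type} [CommRing R] (a b c d : R) : (mk4 a b c d).imI = b := rfl
@[simp] theorem mk4_imJ {R : Type} [CommRing R] (a b c d : R) : (mk4 a b c d).imJ = c := rfl
@[simp] theorem mk4_imK {R : Type} [CommRing R] (a b c d : R) : (mk4 a b c d).imK = d := rfl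

end Refl

theorem toR_mul (v w : O) : toR (v * w) = toR v * toR w := by
  ext <;> simp

theorem norm_toR_sq (v : O) : ‖toR v‖ ^ 2 = (N v : ℝ) := by
  rw [sq, ← Quaternion.normSq_eq_norm_mul_self, Quaternion.normSq_def', N,
    Quaternion.normSq_def']
  simp

theorem norm_dir {v : O} (hv : v ≠ 0) : ‖dir v‖ = 1 := by
  have h1 : N v ≠ 0 := fun h => hv (Quaternion.normSq_eq_zero.1 h)
  have h2 : ‖toR v‖ ≠ 0 := by
    intro h
    have h3 := norm_toR_sq v
    rw [h] at h3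
    apply h1
    have : (N v : ℝ) = 0 := by rw [← h3]; norm_num
    exact_mod_cast this
  rw [dir, norm_smul, norm_inv, norm_norm, inv_mul_cancel₀ h2]

theorem dir_mul (v w : O) : dir (v * w) = dir v * dir w := by
  rw [dir, dir, dir, toR_mul, norm_mul, mul_inv, smul_mul_smul_comm]

namespace Refl

/-- The integral inner product. -/
def ip (v w : O) : ℤ := v.re * w.re + v.imI * w.imI + v.imJ * w.imJ + v.imK * w.imK

theorem N_eq (v : O) : N v = v.re ^ 2 + v.imI ^ 2 + v.imJ ^ 2 + v.imK ^ 2 :=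
  Quaternion.normSq_def' v

theorem inner_toR (v w : O) : ⟪toR v, toR w⟫ = (ip v w : ℝ) := by
  rw [Quaternion.inner_def]
  simp [ip]

theorem toR_smul (c : ℤ) (v : O) : toR (c • v) = (c : ℝ) • toR v := by
  ext <;> simp

theorem toR_sub (v w : O) : toR (v - w) = toR v - toR w := by
  ext <;> simp

theorem toR_add (v w : O) : toR (v + w) = toR v + toR w := by
  ext <;> simp

theorem N_comb (m s : ℤ) (v w : O) :
    N (m • v - s • w) = m ^ 2 * N v - 2 * m * s * ip v w + s ^ 2 * N w := by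
  simp [N_eq, ip]; ring

theorem N_add_smul (c : ℤ) (v w : O) :
    N (v + c • w) = N v + 2 * c * ip v w + c ^ 2 * N w := by
  simp [N_eq, ip]; ring

theorem N_sub (v w : O) : N (v - w) = N v - 2 * ip v w + N w := by
  simp [N_eq, ip]; ring

theorem ip_add_smul (c : ℤ) (v w x y : O) :
    ip (v + c • x) (w + c • y) = ip v w + c * (ip v y + ip x w + c * ip x y) := by
  simp [ip]; ring

theorem ip_sub (v w : O) : ip v (v - w) = N v - ip v w := by
  simp [N_eq, ip]; ring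

/-- Normalisation. -/
noncomputable def nz (p : ℍ[ℝ]) : ℍ[ℝ] := ‖p‖⁻¹ • p

/-- Normalised reflection. -/
noncomputable def rf (p q : ℍ[ℝ]) : ℍ[ℝ] := ‖p‖⁻¹ • (p - (2 * ⟪p, q⟫ / ‖q‖ ^ 2) • q)

theorem nz_smul {c : ℝ} (hc : 0 < c) (p : ℍ[ℝ]) : nz (c • p) = nz p := by
  rw [nz, nz, norm_smul, Real.norm_of_nonneg hc.le, smul_smul, mul_inv, mul_right_comm,
    inv_mul_cancel₀ hc.ne', one_mul]

theorem rf_smul {c : ℝ} (hc : 0 < c) (p q : ℍ[ℝ]) : rf (c • p) (c • q) = rf p q := by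
  have e : 2 * ⟪c • p, c • q⟫ / ‖c • q‖ ^ 2 = 2 * ⟪p, q⟫ / ‖q‖ ^ 2 := by
    rw [real_inner_smul_left, real_inner_smul_right, norm_smul, Real.norm_of_nonneg hc.le]
    by_cases hq : ‖q‖ = 0
    · simp [hq]
    · field_simp
  rw [rf, rf, e, norm_smul, Real.norm_of_nonneg hc.le, smul_comm _ c q, ← smul_sub, smul_smul,
    mul_inv, mul_right_comm, inv_mul_cancel₀ hc.ne', one_mul]

theorem dir_smul {c : ℤ} (hc : 0 < c) (v : O) : dir (c • v) = dir v := by
  have : (0 : ℝ) < c := by exact_mod_cast hc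
  have h := nz_smul this (toR v)
  rw [nz, nz, ← toR_smul] at h
  exact h

theorem coprime_congr {a b M : ℤ} (h : IsCoprime a M) (t : ℤ) (e : b = a + M * t) :
    IsCoprime b M := by
  rw [e]; exact h.add_mul_left_left t

theorem core {X : Type*} {M : ℕ} (hM : Even M) (hM0 : M ≠ 0) (G : ℍ[ℝ] → O → X)
    (hp : ∀ a g g', Cg M g g' → G a g = G a g')
    (he : ∀ α α' : O, N α = N α' → IsCoprime (N α) (M : ℤ) → G (dir α) α = G (dir α') α')
    {g g' : O} {m0 t0 : ℤ} (h1 : N g' = N g + 2 * M * t0) (h2 : IsCoprime (N g) (M : ℤ))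
    (h3 : N (g - g') = 2 * m0) (h4 : IsCoprime m0 (M : ℤ)) (x y : O) :
    G (nz (toR (g + (2 * M : ℤ) • x))) g =
      G (rf (toR (g + (2 * M : ℤ) • x)) (toR (g - g' + (2 * M : ℤ) • y))) g' := by
  set α : O := g + (2 * M : ℤ) • x with hα
  set β : O := g - g' + (2 * M : ℤ) • y with hβ
  have hMpos : (0 : ℤ) < M := by exact_mod_cast Nat.pos_of_ne_zero hM0
  obtain ⟨t1, ht1⟩ : ∃ t1 : ℤ, N β = 2 * (m0 + M * t1) :=
    ⟨2 * ip (g - g') y + 2 * M * N y, by rw [hβ, N_add_smul, h3]; ring⟩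
  set m : ℤ := m0 + M * t1 with hm
  obtain ⟨t2, ht2⟩ : ∃ t2 : ℤ, ip α β = m0 + M * t2 := by
    refine ⟨2 * (ip g y + ip x (g - g') + 2 * M * ip x y) - t0, ?_⟩
    have e1 := ip_sub g g'
    have e2 := N_sub g g'
    rw [hα, hβ, ip_add_smul]
    linarith
  obtain ⟨t3, ht3⟩ : ∃ t3 : ℤ, N α = N g + M * t3 :=
    ⟨4 * ip g x + 4 * M * N x, by rw [hα, N_add_smul]; ring⟩
  set s : ℤ := ip α β with hs
  have hmc : IsCoprime m (M : ℤ) := coprime_congr h4 t1 hm
  have hm0 : m ≠ 0 := by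
    intro h
    rw [h, isCoprime_zero_left, Int.isUnit_iff] at hmc
    obtain ⟨k, hk⟩ := hM
    omega
  have hmpos : 0 < m := by
    have := N_nonneg β
    omega
  obtain ⟨m', t4, hm', ht4⟩ : ∃ m' t4 : ℤ, 0 < m' ∧ m' * m0 = 1 + M * t4 := by
    obtain ⟨a, b, hab⟩ := h4
    refine ⟨a % M + M, -b - (a / M) * m0 + m0, ?_, ?_⟩
    · have := Int.emod_nonneg a hMpos.ne'
      omega
    · have := Int.emod_add_mul_ediv a M
      linear_combination hab + m0 * this
  have hN : N (m • α - s • β) = m ^ 2 * N α := by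
    rw [N_comb, ht1, ← hs]; ring
  have key := he ((m' * m) • α) (m' • (m • α - s • β)) (by rw [N_smul, N_smul, hN]; ring) (by
    rw [N_smul]
    refine IsCoprime.mul_left (IsCoprime.pow_left ?_) (coprime_congr h2 t3 ht3)
    exact coprime_congr isCoprime_one_left (t4 + m' * t1) (by rw [hm]; linear_combination ht4))
  rw [dir_smul (mul_pos hm' hmpos), dir_smul hm'] at key
  have c1 : Cg M ((m' * m) • α) g := by
    refine ⟨(t4 + m' * t1) • g + (2 * m' * m) • x, ?_⟩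
    have e : m' * m = 1 + M * (t4 + m' * t1) := by rw [hm]; linear_combination ht4
    rw [hα]
    ext <;> simp <;> [linear_combination g.re * e; linear_combination g.imI * e;
      linear_combination g.imJ * e; linear_combination g.imK * e]
  have c2 : Cg M (m' • (m • α - s • β)) g' := by
    refine ⟨(m' * (t1 - t2)) • g + (t4 + m' * t2) • g' + (2 * m' * m) • x - (2 * m' * s) • y, ?_⟩
    have e : m' * s = 1 + M * (t4 + m' * t2) := by rw [ht2]; linear_combination ht4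
    have e' : m' * m - m' * s = M * (m' * (t1 - t2)) := by rw [ht2, hm]; ring
    rw [hα, hβ]
    ext <;> simp <;> [linear_combination g.re * e' + g'.re * e;
      linear_combination g.imI * e' + g'.imI * e;
      linear_combination g.imJ * e' + g'.imJ * e; linear_combination g.imK * e' + g'.imK * e]
  rw [hp _ _ _ c1, hp _ _ _ c2] at key
  have hmR : (0 : ℝ) < m := by exact_mod_cast hmpos
  have hn : ‖toR (m • α - s • β)‖ = m * ‖toR α‖ := by
    have e1 := norm_toR_sq (m • α - s • β)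
    have e2 := norm_toR_sq α
    rw [hN] at e1
    push_cast at e1
    rw [← e2, ← mul_pow] at e1
    exact (pow_left_inj₀ (norm_nonneg _) (by positivity) two_ne_zero).1 e1
  have hd : dir (m • α - s • β) = rf (toR α) (toR β) := by
    rw [dir, hn, rf, inner_toR, norm_toR_sq, ht1, ← hs, toR_sub, toR_smul, toR_smul]
    have e : (2 * (s : ℝ) / ((2 * m : ℤ) : ℝ)) = (m : ℝ)⁻¹ * s := by
      push_cast; field_simp
    rw [e, mul_inv, mul_comm, mul_smul, smul_sub (m : ℝ)⁻¹, smul_smul, smul_smul,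
      inv_mul_cancel₀ hmR.ne', one_smul]
  rw [hd] at key
  exact key

theorem tendsto_floor (t : ℝ) :
    Filter.Tendsto (fun n : ℕ => ((n : ℝ) + 1)⁻¹ * (⌊((n : ℝ) + 1) * t⌋ : ℝ)) Filter.atTop
      (nhds t) := by
  have h0 : Filter.Tendsto (fun n : ℕ => ((n : ℝ) + 1)⁻¹) Filter.atTop (nhds 0) := by
    simpa using tendsto_one_div_add_atTop_nhds_zero_nat (𝕜 := ℝ)
  have h1 : Filter.Tendsto (fun n : ℕ => t - ((n : ℝ) + 1)⁻¹) Filter.atTop (nhds t) := by
    simpa using h0.const_sub t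
  refine tendsto_of_tendsto_of_tendsto_of_le_of_le h1 tendsto_const_nhds ?_ ?_
  · intro n
    have hn : (0 : ℝ) < (n : ℝ) + 1 := by positivity
    have := Int.sub_one_lt_floor (((n : ℝ) + 1) * t)
    show t - ((n : ℝ) + 1)⁻¹ ≤ _
    rw [le_inv_mul_iff₀ hn, mul_sub, mul_inv_cancel₀ hn.ne']
    exact this.le
  · intro n
    have hn : (0 : ℝ) < (n : ℝ) + 1 := by positivity
    show ((n : ℝ) + 1)⁻¹ * _ ≤ t
    rw [inv_mul_le_iff₀ hn]
    exact Int.floor_le _

/-- Coordinatewise integer part. -/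
noncomputable def fl (n : ℕ) (a : ℍ[ℝ]) : O :=
  mk4 ⌊((n : ℝ) + 1) * a.re⌋ ⌊((n : ℝ) + 1) * a.imI⌋ ⌊((n : ℝ) + 1) * a.imJ⌋
    ⌊((n : ℝ) + 1) * a.imK⌋

theorem tendsto_fl (a : ℍ[ℝ]) :
    Filter.Tendsto (fun n : ℕ => ((n : ℝ) + 1)⁻¹ • toR (fl n a)) Filter.atTop (nhds a) := by
  have h := ((((tendsto_floor a.re).smul_const (mk4 1 0 0 0 : ℍ[ℝ])).add
    ((tendsto_floor a.imI).smul_const (mk4 0 1 0 0 : ℍ[ℝ]))).add
    ((tendsto_floor a.imJ).smul_const (mk4 0 0 1 0 : ℍ[ℝ]))).add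
    ((tendsto_floor a.imK).smul_const (mk4 0 0 0 1 : ℍ[ℝ]))
  have e : a.re • (mk4 1 0 0 0 : ℍ[ℝ]) + a.imI • (mk4 0 1 0 0 : ℍ[ℝ]) +
      a.imJ • (mk4 0 0 1 0 : ℍ[ℝ]) + a.imK • (mk4 0 0 0 1 : ℍ[ℝ]) = a := by
    ext <;> simp
  rw [e] at h
  refine h.congr fun n => ?_
  ext <;> simp [fl]

theorem tendsto_app {c : ℤ} (hc : 0 < c) (g : O) (a : ℍ[ℝ]) :
    Filter.Tendsto (fun n : ℕ => (((n : ℝ) + 1)⁻¹ * (c : ℝ)⁻¹) • toR (g + c • fl n a))
      Filter.atTop (nhds a) := by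
  have h0 : Filter.Tendsto (fun n : ℕ => ((n : ℝ) + 1)⁻¹) Filter.atTop (nhds 0) := by
    simpa using tendsto_one_div_add_atTop_nhds_zero_nat (𝕜 := ℝ)
  have h := (h0.smul_const ((c : ℝ)⁻¹ • toR g)).add (tendsto_fl a)
  rw [zero_smul, zero_add] at h
  refine h.congr fun n => ?_
  have hc' : (c : ℝ) ≠ 0 := by exact_mod_cast hc.ne'
  rw [toR_add, toR_smul, smul_add, smul_smul, smul_smul, mul_assoc, inv_mul_cancel₀ hc', mul_one]

theorem good {X : Type*} [TopologicalSpace X] [T2Space X] {M : ℕ} (hM : Even M) (hM0 : M ≠ 0)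
    (G : ℍ[ℝ] → O → X) (hc : ∀ g, Continuous fun a => G a g)
    (hp : ∀ a g g', Cg M g g' → G a g = G a g')
    (he : ∀ α α' : O, N α = N α' → IsCoprime (N α) (M : ℤ) → G (dir α) α = G (dir α') α')
    {g g' : O} {m0 t0 : ℤ} (h1 : N g' = N g + 2 * M * t0) (h2 : IsCoprime (N g) (M : ℤ))
    (h3 : N (g - g') = 2 * m0) (h4 : IsCoprime m0 (M : ℤ)) {a a' : ℍ[ℝ]} (ha : ‖a‖ = 1)
    (ha' : ‖a'‖ = 1) (hne : a ≠ a') : G a g = G a' g' := by
  have hMpos : (0 : ℤ) < 2 * M := by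
    have : (0 : ℤ) < M := by exact_mod_cast Nat.pos_of_ne_zero hM0
    omega
  have hMR : (0 : ℝ) < ((2 * M : ℤ) : ℝ) := by exact_mod_cast hMpos
  have tp := tendsto_app hMpos g a
  have tq := tendsto_app hMpos (g - g') (a - a')
  have hq : ‖a - a'‖ ≠ 0 := norm_ne_zero_iff.2 (sub_ne_zero.2 hne)
  have ha0 : ‖a‖ ≠ 0 := by rw [ha]; norm_num
  have t1 := (tp.norm.inv₀ ha0).smul tp
  have t2 := (tp.norm.inv₀ ha0).smul
    (tp.sub (((((tp.inner (𝕜 := ℝ) tq).const_mul 2).div (tq.norm.pow 2) (pow_ne_zero 2 hq))).smul tq))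
  have e1 : ‖a‖⁻¹ • a = a := by rw [ha]; simp
  have e2 : ‖a‖⁻¹ • (a - (2 * ⟪a, a - a'⟫ / ‖a - a'‖ ^ 2) • (a - a')) = a' := by
    have : 2 * ⟪a, a - a'⟫ = ‖a - a'‖ ^ 2 := by
      rw [norm_sub_sq_real, inner_sub_right, real_inner_self_eq_norm_sq, ha, ha']; ring
    rw [this, div_self (pow_ne_zero 2 hq), ha]; simp
  rw [e1] at t1
  rw [e2] at t2
  have u1 := ((hc g).tendsto a).comp t1
  have u2 := ((hc g').tendsto a').comp t2
  refine tendsto_nhds_unique u1 (u2.congr fun n => ?_)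
  have hcn : (0 : ℝ) < ((n : ℝ) + 1)⁻¹ * ((2 * M : ℤ) : ℝ)⁻¹ := by positivity
  have k := core hM hM0 G hp he h1 h2 h3 h4 (fl n a) (fl n (a - a'))
  rw [← nz_smul hcn, ← rf_smul hcn] at k
  exact k.symm

theorem exists_sign {M : ℕ} (hM0 : M ≠ 0) {x : ℤ} (hx : Even x) :
    ∃ s t : ℤ, s ^ 2 = 1 + 2 * M * t ∧ IsCoprime (1 - s * x) (M : ℤ) := by
  have h2M : 2 * M ≠ 0 := by omega
  obtain ⟨s, hs⟩ := crt (ι := Unit) (2 * M) (fun p _ => if (p : ℤ) ∣ 1 - x then -1 else 1)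
  have h1 : s () ^ 2 ≡ 1 [ZMOD ((2 * M : ℕ) : ℤ)] := by
    refine modEq_of_local h2M fun p hp => ?_
    have := (hs p hp ()).pow 2
    split_ifs at this <;> simpa using this
  obtain ⟨t, ht⟩ := h1.symm.dvd
  refine ⟨s (), t, by push_cast at ht; linarith, ?_⟩
  rw [Int.isCoprime_iff_gcd_eq_one]
  by_contra hne
  obtain ⟨p, hp, hd⟩ := Nat.exists_prime_and_dvd hne
  have d1 : (p : ℤ) ∣ 1 - s () * x := (Int.natCast_dvd_natCast.2 hd).trans (Int.gcd_dvd_left _ _)
  have d2 : (p : ℤ) ∣ (M : ℤ) := (Int.natCast_dvd_natCast.2 hd).trans (Int.gcd_dvd_right _ _)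
  have d3 : p ∣ 2 * M := (Int.natCast_dvd_natCast.1 d2).mul_left 2
  have hmem : p ∈ (2 * M).primeFactors := Nat.mem_primeFactors.2 ⟨hp, d3, h2M⟩
  have hf : (2 * M).factorization p ≠ 0 := (hp.factorization_pos_of_dvd h2M d3).ne'
  have h5 := (hs p hmem ()).of_dvd (n := ((p ^ (2 * M).factorization p : ℕ) : ℤ)) (m := (p : ℤ))
    (Int.natCast_dvd_natCast.2 (dvd_pow_self p hf))
  have h6 := h5.dvd
  split_ifs at h6 with hcase
  · have d4 : (p : ℤ) ∣ 2 := by
      have e : (2 : ℤ) = (1 - s () * x) + (1 - x) - (-1 - s ()) * x := by ring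
      rw [e]
      exact (d1.add hcase).sub (h6.mul_right x)
    have d5 : p ∣ 2 := by exact_mod_cast d4
    have : p = 2 := (Nat.prime_dvd_prime_iff_eq hp Nat.prime_two).1 d5
    subst this
    obtain ⟨k, hk⟩ := hx
    obtain ⟨l, hl⟩ := hcase
    push_cast at hl
    omega
  · apply hcase
    have e : 1 - x = (1 - s () * x) - (1 - s ()) * x := by ring
    rw [e]
    exact d1.sub (h6.mul_right x)

end Refl

open Refl in
theorem inv_lemma {X : Type*} [TopologicalSpace X] [T2Space X] {M : ℕ} (hM : Even M)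
    (hM0 : M ≠ 0) (G : ℍ[ℝ] → O → X) (hc : ∀ g, Continuous fun a => G a g)
    (hp : ∀ a g g', Cg M g g' → G a g = G a g')
    (he : ∀ α α' : O, N α = N α' → IsCoprime (N α) (M : ℤ) → G (dir α) α = G (dir α') α')
    {a : ℍ[ℝ]} (ha : ‖a‖ = 1) {g : O} (hg : N g ≡ 1 [ZMOD (2 * M : ℤ)]) : G a g = G 1 1 := by
  obtain ⟨t, ht⟩ := hg.symm.dvd
  obtain ⟨e, he1, he2, he3⟩ : ∃ e : O, N e = 1 ∧ e.re = 0 ∧ Even (ip g e) := by
    by_cases hI : Even g.imI
    · exact ⟨mk4 0 1 0 0, by simp [N_eq], rfl, by simpa [ip] using hI⟩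
    by_cases hJ : Even g.imJ
    · exact ⟨mk4 0 0 1 0, by simp [N_eq], rfl, by simpa [ip] using hJ⟩
    exfalso
    obtain ⟨b, hb⟩ := Int.not_even_iff_odd.1 hI
    obtain ⟨c, hc⟩ := Int.not_even_iff_odd.1 hJ
    obtain ⟨k, hk⟩ := hM
    have hk' : (M : ℤ) = k + k := by exact_mod_cast hk
    rw [N_eq, hb, hc, hk'] at ht
    obtain ⟨x, hx | hx⟩ := Int.even_or_odd' g.re <;> obtain ⟨y, hy | hy⟩ := Int.even_or_odd' g.imK <;>
      rw [hx, hy] at ht
    · have : 4 * (k * t - x ^ 2 - b ^ 2 - b - c ^ 2 - c - y ^ 2) = 1 := by linear_combination -ht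
      omega
    · have : 4 * (k * t - x ^ 2 - b ^ 2 - b - c ^ 2 - c - y ^ 2 - y) = 2 := by
        linear_combination -ht
      omega
    · have : 4 * (k * t - x ^ 2 - x - b ^ 2 - b - c ^ 2 - c - y ^ 2) = 2 := by
        linear_combination -ht
      omega
    · have : 4 * (k * t - x ^ 2 - x - b ^ 2 - b - c ^ 2 - c - y ^ 2 - y) = 3 := by
        linear_combination -ht
      omega
  obtain ⟨s, t', hs, hcop⟩ := exists_sign hM0 he3
  obtain ⟨a'', h1, h2, h3⟩ : ∃ a'' : ℍ[ℝ], ‖a''‖ = 1 ∧ a ≠ a'' ∧ a'' ≠ 1 := by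
    by_cases h : a = -1
    · refine ⟨mk4 0 1 0 0, ?_, ?_, ?_⟩
      · have h5 : ‖(mk4 0 1 0 0 : ℍ[ℝ])‖ * ‖(mk4 0 1 0 0 : ℍ[ℝ])‖ = 1 := by
          rw [← Quaternion.normSq_eq_norm_mul_self, Quaternion.normSq_def']; simp
        nlinarith [norm_nonneg (mk4 0 1 0 0 : ℍ[ℝ])]
      · rw [h]; intro h6
        have := congrArg (fun q : ℍ[ℝ] => q.imI) h6
        simp at this
      · intro h6
        have := congrArg (fun q : ℍ[ℝ] => q.imI) h6
        simp at this
    · refine ⟨-1, by simp, h, ?_⟩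
      intro h6
      have := congrArg (fun q : ℍ[ℝ] => q.re) h6
      simp at this
      linarith
  have hNs : N (s • e) = s ^ 2 := by rw [N_smul, he1, mul_one]
  have hN1 : N (1 : O) = 1 := map_one _
  have step1 : G a g = G a'' (s • e) := by
    refine good hM hM0 G hc hp he (t0 := t' - t) (m0 := 1 - s * ip g e + M * (t + t')) ?_ ?_ ?_ ?_
      ha h1 h2
    · rw [hNs]; linear_combination hs - ht
    · exact coprime_congr isCoprime_one_left (2 * t) (by linear_combination ht)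
    · have : ip g (s • e) = s * ip g e := by simp [ip]; ring
      rw [N_sub, hNs, this]; linear_combination hs + ht
    · exact coprime_congr hcop _ rfl
  have step2 : G a'' (s • e) = G 1 1 := by
    refine good hM hM0 G hc hp he (t0 := -t') (m0 := 1 + M * t') ?_ ?_ ?_ ?_ h1 norm_one h3
    · rw [hNs, hN1]; linear_combination -hs
    · rw [hNs]; exact coprime_congr isCoprime_one_left (2 * t') (by linear_combination hs)
    · have : ip (s • e) 1 = 0 := by simp [ip, he2]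
      rw [N_sub, hNs, this, hN1]; linear_combination hs
    · exact coprime_congr isCoprime_one_left _ rfl
  exact step1.trans step2

end Pool.Agent.Lib.MP_f6c7cf_nt.E
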