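import Mathlib

/-! Tensor powers of the standard action of unit quaternions. -/

namespace Pool.Agent.Lib.MP_f6c7cf_nt.E

open Finset
open scoped Quaternion RealInnerProductSpace Classical Matrix

/-- The tensor power space. -/
abbrev V (k : ℕ) := EuclideanSpace ℝ (Fin k → Option (Fin 4))

namespace TensorAux

/-- Left multiplication by the conjugate. -/
def lm (a : ℍ[ℝ]) : Matrix (Fin 4) (Fin 4) ℝ :=
  !![a.re, a.imI, a.imJ, a.imK; -a.imI, a.re, a.imK, -a.imJ; -a.imJ, -a.imK, a.re, a.imI;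
    -a.imK, a.imJ, -a.imI, a.re]

theorem lm_mul (a b : ℍ[ℝ]) : lm (a * b) = lm b * lm a := by
  ext i j
  fin_cases i <;> fin_cases j <;> simp [lm, Matrix.mul_apply, Fin.sum_univ_four] <;> ring

theorem lm_one : lm 1 = 1 := by
  ext i j
  fin_cases i <;> fin_cases j <;> simp [lm]

theorem lm_star (a : ℍ[ℝ]) : lm (star a) = (lm a)ᵀ := by
  ext i j
  fin_cases i <;> fin_cases j <;> simp [lm]

theorem lm_cont (i j : Fin 4) : Continuous fun a => lm a i j := by
  have h0 := Quaternion.continuous_re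
  have h1 := Quaternion.continuous_imI
  have h2 := Quaternion.continuous_imJ
  have h3 := Quaternion.continuous_imK
  fin_cases i <;> fin_cases j <;>
    first
      | exact h0 | exact h1 | exact h2 | exact h3
      | exact h1.neg | exact h2.neg | exact h3.neg

/-- The sum of the trivial and the standard action. -/
def mm (a : ℍ[ℝ]) : Matrix (Option (Fin 4)) (Option (Fin 4)) ℝ
  | none, none => 1
  | none, some _ => 0
  | some _, none => 0
  | some i, some j => lm a i j

theorem mm_mul (a b : ℍ[ℝ]) : mm (a * b) = mm b * mm a := by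
  ext i j
  rw [Matrix.mul_apply, Fintype.sum_option]
  rcases i with _ | i <;> rcases j with _ | j <;> simp [mm, lm_mul, Matrix.mul_apply]

theorem mm_one : mm 1 = 1 := by
  ext i j
  rcases i with _ | i <;> rcases j with _ | j <;> simp [mm, lm_one, Matrix.one_apply]

theorem mm_star (a : ℍ[ℝ]) : mm (star a) = (mm a)ᵀ := by
  ext i j
  rcases i with _ | i <;> rcases j with _ | j <;> simp [mm, lm_star]

theorem mm_cont (i j : Option (Fin 4)) : Continuous fun a => mm a i j := by
  rcases i with _ | i <;> rcases j with _ | j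
  · exact continuous_const
  · exact continuous_const
  · exact continuous_const
  · exact lm_cont i j

/-- Coordinates. -/
def crd (e : ℍ[ℝ]) : Option (Fin 4) → ℝ
  | none => 1
  | some i => ![e.re, e.imI, e.imJ, e.imK] i

theorem inner_eq (e a : ℍ[ℝ]) :
    ⟪e, a⟫ = e.re * a.re + e.imI * a.imI + e.imJ * a.imJ + e.imK * a.imK := by
  rw [Quaternion.inner_def]
  simp

theorem crd_pair (e a : ℍ[ℝ]) : ∑ i, crd 1 i * ∑ j, mm a i j * crd e j = 1 + ⟪e, a⟫ := by
  rw [inner_eq]
  simp [Fintype.sum_option, Fin.sum_univ_four, crd, mm, lm]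
  ring

theorem crd_sq (e : ℍ[ℝ]) (he : ‖e‖ = 1) : ∑ i, crd e i ^ 2 = 2 := by
  have h : ⟪e, e⟫ = 1 := by rw [real_inner_self_eq_norm_sq, he, one_pow]
  rw [inner_eq] at h
  simp [Fintype.sum_option, Fin.sum_univ_four, crd]
  linarith

variable {k : ℕ}

theorem sum_prod (f : Fin k → Option (Fin 4) → ℝ) :
    ∑ x : Fin k → Option (Fin 4), ∏ t, f t (x t) = ∏ t, ∑ j, f t j := by
  rw [Finset.prod_univ_sum, Fintype.piFinset_univ]

/-- Tensor power of a matrix. -/
def tp (k : ℕ) (M : Matrix (Option (Fin 4)) (Option (Fin 4)) ℝ) :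
    Matrix (Fin k → Option (Fin 4)) (Fin k → Option (Fin 4)) ℝ :=
  fun i j => ∏ t, M (i t) (j t)

theorem tp_mul (M N : Matrix (Option (Fin 4)) (Option (Fin 4)) ℝ) :
    tp k (M * N) = tp k M * tp k N := by
  ext i l
  simp only [tp, Matrix.mul_apply, ← prod_mul_distrib]
  exact (sum_prod fun t j => M (i t) j * N j (l t)).symm

theorem tp_one : tp k 1 = 1 := by
  ext i j
  simp only [tp, Matrix.one_apply, Finset.prod_boole, funext_iff]
  simp

theorem tp_star (M : Matrix (Option (Fin 4)) (Option (Fin 4)) ℝ) :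
    tp k Mᵀ = star (tp k M) := by
  ext i j
  simp [tp]

end TensorAux

open TensorAux

theorem exists_V (k : ℕ) : ∃ (σ : ℍ[ℝ] → V k →L[ℝ] V k) (w : ℍ[ℝ] → V k),
    (∀ a b x, σ (a * b) x = σ b (σ a x)) ∧ (∀ x, σ 1 x = x) ∧
    (∀ a, ‖a‖ = 1 → ∀ x y, ⟪σ a x, σ a y⟫ = ⟪x, y⟫) ∧
    (∀ x, Continuous fun a => σ a x) ∧
    (∀ e a, ⟪w 1, σ a (w e)⟫ = (1 + ⟪e, a⟫) ^ k) ∧
    (∀ e, ‖e‖ = 1 → ‖w e‖ ^ 2 = 2 ^ k) := by
  let σ : ℍ[ℝ] → V k →L[ℝ] V k := fun a => Matrix.toEuclideanCLM (𝕜 := ℝ) (tp k (mm a))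
  have hmul : ∀ a b, σ (a * b) = σ b * σ a := fun a b => by
    simp only [σ, mm_mul, tp_mul, map_mul]
  have hone : σ 1 = 1 := by simp only [σ, mm_one, tp_one, map_one]
  have hstar : ∀ a, σ (star a) = star (σ a) := fun a => by
    simp only [σ, mm_star, tp_star, map_star]
  have happ : ∀ a (x : V k) i, σ a x i = ∑ j, tp k (mm a) i j * x j := fun a x i => rfl
  refine ⟨σ, fun e => WithLp.toLp 2 fun i => ∏ t, crd e (i t), fun a b x => ?_, fun x => ?_,
    fun a ha x y => ?_, fun x => ?_, fun e a => ?_, fun e he => ?_⟩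
  · rw [hmul]
    rfl
  · rw [hone]
    rfl
  · have h1 : a * star a = 1 := by
      rw [Quaternion.self_mul_star, Quaternion.normSq_eq_norm_mul_self, ha]
      simp
    have h2 : star (σ a) * σ a = 1 := by rw [← hstar, ← hmul, h1, hone]
    rw [← ContinuousLinearMap.adjoint_inner_right, ← ContinuousLinearMap.star_eq_adjoint]
    change ⟪x, (star (σ a) * σ a) y⟫ = _
    rw [h2]
    rfl
  · have h1 : Continuous fun a => fun i => ∑ j, tp k (mm a) i j * x j :=
      continuous_pi fun i => continuous_finsetSum _ fun j _ =>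
        (continuous_finsetProd _ fun t _ => mm_cont _ _).mul continuous_const
    exact (PiLp.continuous_toLp 2 _).comp h1
  · rw [PiLp.inner_apply, ← crd_pair, ← Fin.prod_const,
      ← sum_prod fun _ i => crd 1 i * ∑ j, mm a i j * crd e j]
    refine sum_congr rfl fun i _ => ?_
    rw [happ, prod_mul_distrib, ← sum_prod fun t j => mm a (i t) j * crd e j]
    simp [tp, prod_mul_distrib, mul_comm]
  · rw [EuclideanSpace.real_norm_sq_eq, ← crd_sq e he, ← Fin.prod_const,
      ← sum_prod fun _ i => crd e i ^ 2]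
    refine sum_congr rfl fun i _ => ?_
    simp [prod_pow]

end Pool.Agent.Lib.MP_f6c7cf_nt.E
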