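import Pool.Agent.Lib.MP_f6c7cf_nt.E.Equi
import Pool.Agent.Lib.MP_f6c7cf_nt.E.Reflect
import Pool.Agent.Lib.MP_f6c7cf_nt.E.Tensor

/-! Approximate left invariance of the empirical distribution. -/

namespace Pool.Agent.Lib.MP_f6c7cf_nt.E

open Finset
open scoped Quaternion RealInnerProductSpace Classical Matrix

/-- reduction modulo `M` -/
def apxRed (M : ℕ) (v : O) : ℍ[ZMod M] := ⟨v.re, v.imI, v.imJ, v.imK⟩

theorem apxRed_re (M : ℕ) (v : O) : (apxRed M v).re = (v.re : ℤ) := rfl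
theorem apxRed_imI (M : ℕ) (v : O) : (apxRed M v).imI = (v.imI : ℤ) := rfl
theorem apxRed_imJ (M : ℕ) (v : O) : (apxRed M v).imJ = (v.imJ : ℤ) := rfl
theorem apxRed_imK (M : ℕ) (v : O) : (apxRed M v).imK = (v.imK : ℤ) := rfl

theorem apxRed_mul (M : ℕ) (v w : O) : apxRed M (v * w) = apxRed M v * apxRed M w := by
  ext <;> simp [apxRed_re, apxRed_imI, apxRed_imJ, apxRed_imK]

theorem apxRed_one (M : ℕ) : apxRed M 1 = 1 := by
  ext <;> simp [apxRed_re, apxRed_imI, apxRed_imJ, apxRed_imK]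

theorem apxRed_smul (M : ℕ) (c : ℤ) (v : O) : apxRed M (c • v) = (c : ZMod M) • apxRed M v := by
  ext <;> simp [apxRed_re, apxRed_imI, apxRed_imJ, apxRed_imK]

theorem apxRed_eq_iff (M : ℕ) (v w : O) : apxRed M v = apxRed M w ↔ Cg M v w := by
  constructor
  · intro h
    have h0 : ((w.re : ℤ) : ZMod M) = (v.re : ℤ) := (congrArg (·.re) h).symm
    have h1 : ((w.imI : ℤ) : ZMod M) = (v.imI : ℤ) := (congrArg (·.imI) h).symm
    have h2 : ((w.imJ : ℤ) : ZMod M) = (v.imJ : ℤ) := (congrArg (·.imJ) h).symm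
    have h3 : ((w.imK : ℤ) : ZMod M) = (v.imK : ℤ) := (congrArg (·.imK) h).symm
    obtain ⟨x0, e0⟩ := (ZMod.intCast_eq_intCast_iff_dvd_sub _ _ _).1 h0
    obtain ⟨x1, e1⟩ := (ZMod.intCast_eq_intCast_iff_dvd_sub _ _ _).1 h1
    obtain ⟨x2, e2⟩ := (ZMod.intCast_eq_intCast_iff_dvd_sub _ _ _).1 h2
    obtain ⟨x3, e3⟩ := (ZMod.intCast_eq_intCast_iff_dvd_sub _ _ _).1 h3
    exact ⟨⟨x0, x1, x2, x3⟩, Quaternion.ext _ _ e0 e1 e2 e3⟩
  · rintro ⟨x, hx⟩
    have e : v = w + (M : ℤ) • x := by rw [← hx]; abel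
    rw [e]
    ext <;> simp [apxRed_re, apxRed_imI, apxRed_imJ, apxRed_imK]

theorem apxRed_inj {M : ℕ} {g : O} (hg : IsCoprime (N g) (M : ℤ)) :
    Function.Injective fun c : ℍ[ZMod M] => apxRed M g * c := by
  intro c c' h
  have h1 : apxRed M (star g) * (apxRed M g * c) = apxRed M (star g) * (apxRed M g * c') :=
    congrArg _ h
  rw [← mul_assoc, ← mul_assoc, ← apxRed_mul, star_mul_self', apxRed_smul, apxRed_one,
    smul_mul_assoc, smul_mul_assoc, one_mul, one_mul] at h1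
  obtain ⟨a, b, hab⟩ := hg
  have h2 : (a : ZMod M) * ((N g : ℤ) : ZMod M) = 1 := by
    have := congrArg (Int.cast : ℤ → ZMod M) hab
    simpa using this
  have h3 := congrArg (fun x => (a : ZMod M) • x) h1
  simpa only [smul_smul, h2, one_smul] using h3

noncomputable instance apxFintype (M : ℕ) [NeZero M] : Fintype ℍ[ZMod M] :=
  Fintype.ofEquiv _ (Quaternion.equivProd (ZMod M)).symm

theorem apx_coprime {M : ℕ} {g : O} (hg : N g ≡ 1 [ZMOD (2 * M : ℤ)]) :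
    IsCoprime (N g) (M : ℤ) := by
  obtain ⟨t, ht⟩ := hg.dvd
  exact ⟨1, 2 * t, by linear_combination -ht⟩

/-- functions on the residue classes -/
abbrev ApxE (M k : ℕ) [NeZero M] : Type := PiLp 2 fun _ : ℍ[ZMod M] => V k

/-- the action on functions on the residue classes -/
noncomputable def apxTau {M k : ℕ} [NeZero M] (σ : ℍ[ℝ] → V k →L[ℝ] V k) (a : ℍ[ℝ]) (g : O) :
    ApxE M k →L[ℝ] ApxE M k :=
  (PiLp.continuousLinearEquiv 2 ℝ fun _ : ℍ[ZMod M] => V k).symm.toContinuousLinearMap ∘L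
    ContinuousLinearMap.pi fun c =>
      σ a ∘L PiLp.proj (𝕜 := ℝ) 2 (fun _ : ℍ[ZMod M] => V k) (apxRed M g * c)

theorem apxTau_apply {M k : ℕ} [NeZero M] (σ : ℍ[ℝ] → V k →L[ℝ] V k) (a : ℍ[ℝ]) (g : O)
    (f : ApxE M k) (c : ℍ[ZMod M]) : apxTau σ a g f c = σ a (f (apxRed M g * c)) := rfl

theorem apxTau_iso {M k : ℕ} [NeZero M] {σ : ℍ[ℝ] → V k →L[ℝ] V k}
    (hσ : ∀ a, ‖a‖ = 1 → ∀ x y, ⟪σ a x, σ a y⟫ = ⟪x, y⟫) {a : ℍ[ℝ]} (ha : ‖a‖ = 1) {g : O}
    (hg : IsCoprime (N g) (M : ℤ)) (x y : ApxE M k) :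
    ⟪apxTau σ a g x, apxTau σ a g y⟫ = ⟪x, y⟫ := by
  rw [PiLp.inner_apply, PiLp.inner_apply]
  simp only [apxTau_apply, hσ a ha]
  exact (Finite.injective_iff_bijective.1 (apxRed_inj hg)).sum_comp fun c => ⟪x c, y c⟫

/-- direction, with a unit as junk value -/
noncomputable def apxDir (v : O) : ℍ[ℝ] := if v = 0 then 1 else dir v

theorem apxDir_of_ne {v : O} (hv : v ≠ 0) : apxDir v = dir v := if_neg hv

theorem norm_apxDir (v : O) : ‖apxDir v‖ = 1 := by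
  unfold apxDir
  split_ifs with h
  · exact norm_one
  · exact norm_dir h

/-- the representation on functions on the residue classes -/
noncomputable def apxRep (M : ℕ) {k : ℕ} [NeZero M] (σ : ℍ[ℝ] → V k →L[ℝ] V k)
    (hm : ∀ a b x, σ (a * b) x = σ b (σ a x))
    (hσ : ∀ a, ‖a‖ = 1 → ∀ x y, ⟪σ a x, σ a y⟫ = ⟪x, y⟫) : Rep M (ApxE M k) where
  τ v := apxTau σ (apxDir v) v
  mul v w hv hw x := by
    ext1 c
    rw [apxTau_apply, apxTau_apply, apxTau_apply, apxDir_of_ne hv, apxDir_of_ne hw,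
      apxDir_of_ne (mul_ne_zero hv hw), dir_mul, hm, apxRed_mul, mul_assoc]
  B := √(Fintype.card ℍ[ZMod M])
  bdd v x := by
    refine (sq_le_sq₀ (norm_nonneg _) (by positivity)).1 ?_
    rw [mul_pow, Real.sq_sqrt (Nat.cast_nonneg _), PiLp.norm_sq_eq_of_L2]
    have h : ∀ c ∈ (univ : Finset ℍ[ZMod M]), ‖apxTau σ (apxDir v) v x c‖ ^ 2 ≤ ‖x‖ ^ 2 := by
      intro c _
      rw [apxTau_apply, ← real_inner_self_eq_norm_sq, hσ _ (norm_apxDir v),
        real_inner_self_eq_norm_sq]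
      exact pow_le_pow_left₀ (norm_nonneg _) (PiLp.norm_apply_le x _) 2
    refine (sum_le_card_nsmul _ _ _ h).trans (le_of_eq ?_)
    rw [nsmul_eq_mul, card_univ]
  iso v hv x y := apxTau_iso hσ (norm_apxDir v) hv x y

theorem approx_left {M : ℕ} (hM : Even M) (hM0 : M ≠ 0) (k : ℕ) {ε : ℝ} (hε : 0 < ε) :
    ∃ N₀ : ℕ, ∀ n ≥ N₀, Odd n → ∀ e a : ℍ[ℝ], ‖e‖ = 1 → ‖a‖ = 1 → ∀ g c : O,
      N g ≡ 1 [ZMOD (2 * M : ℤ)] →
      |∑ v ∈ (A n).filter (fun v => Cg M v c), (1 + ⟪e, dir v⟫) ^ k -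
        ∑ v ∈ (A n).filter (fun v => Cg M (g * v) c), (1 + ⟪e, a * dir v⟫) ^ k| ≤ ε * n := by
  have : NeZero M := ⟨hM0⟩
  obtain ⟨σ, w, hm, h1, hσ, hc, hw, hn⟩ := exists_V k
  let ρ : Rep M (ApxE M k) := apxRep M σ hm hσ
  have hτ : ∀ v, ρ.τ v = apxTau σ (apxDir v) v := fun _ => rfl
  obtain ⟨N₀, hN⟩ := ρ.equi hM hM0 (ε := ε / (2 * 2 ^ k)) (by positivity)
  refine ⟨N₀, fun n hn₀ hodd e a he ha g c hg => ?_⟩
  have hgc := apx_coprime hg
  let f : ApxE M k := PiLp.single 2 (apxRed M c) (w e)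
  have hf : ∀ q, f q = if q = apxRed M c then w e else 0 := fun q => by
    by_cases h : q = apxRed M c
    · rw [if_pos h, h]
      exact PiLp.single_eq_same _ _ _
    · rw [if_neg h]
      exact PiLp.single_eq_of_ne _ h _
  have hη : f - apxTau σ a g f ∈ (ρ.Inv)ᗮ := by
    rw [Submodule.mem_orthogonal]
    intro ζ hζ
    have e1 : apxTau σ a g ζ = apxTau σ 1 1 ζ := by
      refine inv_lemma hM hM0 (fun a g => apxTau σ a g ζ) (fun g => ?_) (fun a g g' h => ?_)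
        (fun α α' h h' => ?_) ha hg
      · exact (PiLp.continuous_toLp 2 _).comp (continuous_pi fun q => hc _)
      · ext1 q
        rw [apxTau_apply, apxTau_apply, (apxRed_eq_iff M g g').2 h]
      · have hne : ∀ β : O, IsCoprime (N β) (M : ℤ) → β ≠ 0 := fun β hβ h0 => by
          rw [h0, N, map_zero, isCoprime_zero_left, Int.isUnit_iff_natAbs_eq,
            Int.natAbs_natCast] at hβ
          rw [hβ] at hM
          exact Nat.not_even_one hM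
        have := hζ α α' h h'
        rwa [hτ, hτ, apxDir_of_ne (hne α h'), apxDir_of_ne (hne α' (h ▸ h'))] at this
    have e2 : apxTau σ 1 1 ζ = ζ := by
      ext1 q
      rw [apxTau_apply, h1, apxRed_one, one_mul]
    have e3 := apxTau_iso hσ ha hgc ζ f
    rw [e1, e2] at e3
    rw [inner_sub_right, e3, sub_self]
  have hb := hN n hn₀ hodd _ hη
  have hev : ∀ x : ApxE M k, ⟪w 1, ρ.T n x 1⟫ =
      ∑ v ∈ A n, ⟪w 1, σ (dir v) (x (apxRed M v))⟫ := fun x => by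
    rw [ρ.T_apply]
    have e1 : (∑ v ∈ A n, ρ.τ v x) 1 = ∑ v ∈ A n, ρ.τ v x 1 :=
      map_sum (PiLp.proj (𝕜 := ℝ) 2 (fun _ : ℍ[ZMod M] => V k) 1) _ _
    rw [e1, inner_sum]
    refine sum_congr rfl fun v hv => ?_
    rw [hτ, apxTau_apply, mul_one, apxDir_of_ne (mem_A.1 hv).2.ne_zero]
  have s1 : ∑ v ∈ (A n).filter (fun v => Cg M v c), (1 + ⟪e, dir v⟫) ^ k =
      ⟪w 1, ρ.T n f 1⟫ := by
    rw [hev, sum_filter]
    refine sum_congr rfl fun v _ => ?_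
    rw [hf]
    by_cases h : Cg M v c
    · rw [if_pos h, if_pos ((apxRed_eq_iff M v c).2 h), hw]
    · rw [if_neg h, if_neg fun h' => h ((apxRed_eq_iff M v c).1 h'), map_zero, inner_zero_right]
  have s2 : ∑ v ∈ (A n).filter (fun v => Cg M (g * v) c), (1 + ⟪e, a * dir v⟫) ^ k =
      ⟪w 1, ρ.T n (apxTau σ a g f) 1⟫ := by
    rw [hev, sum_filter]
    refine sum_congr rfl fun v _ => ?_
    rw [apxTau_apply, ← hm, ← apxRed_mul, hf]
    by_cases h : Cg M (g * v) c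
    · rw [if_pos h, if_pos ((apxRed_eq_iff M _ c).2 h), hw]
    · rw [if_neg h, if_neg fun h' => h ((apxRed_eq_iff M _ c).1 h'), map_zero, inner_zero_right]
  have s3 : ρ.T n f 1 - ρ.T n (apxTau σ a g f) 1 = ρ.T n (f - apxTau σ a g f) 1 := by
    rw [map_sub]
    rfl
  rw [s1, s2, ← inner_sub_right, s3]
  have n1 : ‖apxTau σ a g f‖ = ‖f‖ := by
    have := apxTau_iso hσ ha hgc f f
    rw [real_inner_self_eq_norm_sq, real_inner_self_eq_norm_sq] at this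
    exact (sq_eq_sq₀ (norm_nonneg _) (norm_nonneg _)).1 this
  have n2 : ‖f‖ = ‖w e‖ := PiLp.norm_single _ _ _ _
  have n3 : ‖f - apxTau σ a g f‖ ≤ 2 * ‖w e‖ := by
    have := norm_sub_le f (apxTau σ a g f)
    rw [n1, n2] at this
    linarith
  have n4 : ‖w 1‖ = ‖w e‖ :=
    (sq_eq_sq₀ (norm_nonneg _) (norm_nonneg _)).1 ((hn 1 norm_one).trans (hn e he).symm)
  have hε' : 0 ≤ ε / (2 * 2 ^ k) * n := by positivity
  calc |⟪w 1, ρ.T n (f - apxTau σ a g f) 1⟫|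
      ≤ ‖w 1‖ * ‖ρ.T n (f - apxTau σ a g f) 1‖ := abs_real_inner_le_norm _ _
    _ ≤ ‖w 1‖ * (ε / (2 * 2 ^ k) * n * (2 * ‖w e‖)) := by
        refine mul_le_mul_of_nonneg_left ((PiLp.norm_apply_le _ _).trans (hb.trans ?_))
          (norm_nonneg _)
        exact mul_le_mul_of_nonneg_left n3 hε'
    _ = ε / (2 * 2 ^ k) * n * (2 * ‖w e‖ ^ 2) := by rw [n4]; ring
    _ = ε * n := by rw [hn e he]; field_simp

end Pool.Agent.Lib.MP_f6c7cf_nt.E
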