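import Pool.Agent.Lib.MP_f6c7cf_nt.E.Mat
import Pool.Agent.Lib.MP_f6c7cf_nt.E.Crt

/-! Primitive classes of equal norm are equivalent under norm-one elements. -/

namespace Pool.Agent.Lib.MP_f6c7cf_nt.E

open Finset
open scoped Quaternion RealInnerProductSpace Classical Matrix

namespace TransAux

theorem cg_iff {M : ℤ} {v w : O} : Cg M v w ↔ v.re ≡ w.re [ZMOD M] ∧ v.imI ≡ w.imI [ZMOD M] ∧
    v.imJ ≡ w.imJ [ZMOD M] ∧ v.imK ≡ w.imK [ZMOD M] := by
  constructor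
  · rintro ⟨x, hx⟩
    have h1 := congrArg QuaternionAlgebra.re hx
    have h2 := congrArg QuaternionAlgebra.imI hx
    have h3 := congrArg QuaternionAlgebra.imJ hx
    have h4 := congrArg QuaternionAlgebra.imK hx
    simp only [Quaternion.re_sub, Quaternion.imI_sub, Quaternion.imJ_sub, Quaternion.imK_sub,
      Quaternion.re_smul, Quaternion.imI_smul, Quaternion.imJ_smul, Quaternion.imK_smul,
      smul_eq_mul] at h1 h2 h3 h4
    exact ⟨(Int.modEq_iff_dvd.2 ⟨_, h1⟩).symm, (Int.modEq_iff_dvd.2 ⟨_, h2⟩).symm,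
      (Int.modEq_iff_dvd.2 ⟨_, h3⟩).symm, (Int.modEq_iff_dvd.2 ⟨_, h4⟩).symm⟩
  · rintro ⟨h1, h2, h3, h4⟩
    obtain ⟨a, ha⟩ := h1.symm.dvd
    obtain ⟨b, hb⟩ := h2.symm.dvd
    obtain ⟨c, hc⟩ := h3.symm.dvd
    obtain ⟨d, hd⟩ := h4.symm.dvd
    refine ⟨⟨a, b, c, d⟩, Quaternion.ext _ _ ?_ ?_ ?_ ?_⟩ <;>
      simp only [Quaternion.re_sub, Quaternion.imI_sub, Quaternion.imJ_sub,
        Quaternion.imK_sub] <;> assumption

theorem cg_N {M : ℤ} {v w : O} (h : Cg M v w) : N v ≡ N w [ZMOD M] := by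
  obtain ⟨h1, h2, h3, h4⟩ := cg_iff.1 h
  simp only [N, Quaternion.normSq_def']
  exact (((h1.pow 2).add (h2.pow 2)).add (h3.pow 2)).add (h4.pow 2)

theorem cg_three {M : ℤ} {g g' h h' c c' : O} (hg : Cg M g g') (hh : Cg M h h')
    (e : Cg M (g' * c * h') c') : Cg M (g * c * h) c' := by
  obtain ⟨x, hx⟩ := hg
  obtain ⟨y, hy⟩ := hh
  obtain ⟨z, hz⟩ := e
  refine ⟨x * c * h + g' * c * y + z, ?_⟩
  rw [smul_add, smul_add, ← hz, ← smul_mul_assoc, ← smul_mul_assoc, ← hx, ← mul_smul_comm, ← hy]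
  noncomm_ring

theorem crtO (M : ℕ) (G : ℕ → O) : ∃ g : O, ∀ p ∈ M.primeFactors,
    Cg ((p ^ M.factorization p : ℕ) : ℤ) g (G p) := by
  obtain ⟨x, hx⟩ := crt M fun p => ![(G p).re, (G p).imI, (G p).imJ, (G p).imK]
  exact ⟨⟨x 0, x 1, x 2, x 3⟩, fun p hp =>
    cg_iff.2 ⟨hx p hp 0, hx p hp 1, hx p hp 2, hx p hp 3⟩⟩

theorem cg_of_local {M : ℕ} (hM : M ≠ 0) {v w : O}
    (h : ∀ p ∈ M.primeFactors, Cg ((p ^ M.factorization p : ℕ) : ℤ) v w) : Cg M v w :=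
  cg_iff.2 ⟨modEq_of_local hM fun p hp => (cg_iff.1 (h p hp)).1,
    modEq_of_local hM fun p hp => (cg_iff.1 (h p hp)).2.1,
    modEq_of_local hM fun p hp => (cg_iff.1 (h p hp)).2.2.1,
    modEq_of_local hM fun p hp => (cg_iff.1 (h p hp)).2.2.2⟩

section Normal

variable {K : Type} [CommRing K]

/-- the normal form can be reached -/
def NF (m : Matrix (Fin 2) (Fin 2) K) : Prop :=
  ∃ g h : Matrix (Fin 2) (Fin 2) K, g.det = 1 ∧ h.det = 1 ∧ g * m * h = !![1, 0; 0, m.det]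

theorem nf_corner {m : Matrix (Fin 2) (Fin 2) K} (hm : IsUnit (m 0 0)) : NF m := by
  obtain ⟨a, ha⟩ := hm.exists_left_inv
  refine ⟨!![a, 0; -m 1 0, m 0 0], !![1, -(a * m 0 1); 0, 1], ?_, ?_, ?_⟩
  · rw [Matrix.det_fin_two_of]; linear_combination ha
  · rw [Matrix.det_fin_two_of]; ring
  · rw [Matrix.det_fin_two]
    ext i j
    fin_cases i <;> fin_cases j <;>
      simp only [Matrix.mul_apply, Fin.sum_univ_two, Matrix.of_apply, Matrix.cons_val',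
        Matrix.cons_val_zero, Matrix.cons_val_one, Matrix.cons_val_fin_one, Fin.zero_eta,
        Fin.mk_one, Fin.isValue]
    · linear_combination ha
    · linear_combination -(a * m 0 1) * ha
    · ring
    · ring

theorem nf_mul {m g h : Matrix (Fin 2) (Fin 2) K} (hg : g.det = 1) (hh : h.det = 1)
    (e : NF (g * m * h)) : NF m := by
  obtain ⟨g', h', h1, h2, h3⟩ := e
  refine ⟨g' * g, h * h', by rw [Matrix.det_mul, h1, hg, one_mul],
    by rw [Matrix.det_mul, h2, hh, one_mul], ?_⟩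
  rw [Matrix.det_mul, Matrix.det_mul, hg, hh, one_mul, mul_one] at h3
  rw [← h3]
  simp only [Matrix.mul_assoc]

theorem nf_of_unit {m : Matrix (Fin 2) (Fin 2) K} {i j : Fin 2} (hm : IsUnit (m i j)) :
    NF m := by
  have hJ : (!![0, 1; -1, 0] : Matrix (Fin 2) (Fin 2) K).det = 1 := by
    rw [Matrix.det_fin_two_of]; ring
  have hJ' : (!![0, -1; 1, 0] : Matrix (Fin 2) (Fin 2) K).det = 1 := by
    rw [Matrix.det_fin_two_of]; ring
  fin_cases i <;> fin_cases j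
  · exact nf_corner hm
  · refine nf_mul Matrix.det_one hJ' (nf_corner ?_)
    simpa [Matrix.mul_apply, Fin.sum_univ_two] using hm
  · refine nf_mul hJ Matrix.det_one (nf_corner ?_)
    simpa [Matrix.mul_apply, Fin.sum_univ_two, Matrix.vecMul, dotProduct] using hm
  · refine nf_mul hJ hJ' (nf_corner ?_)
    simpa [Matrix.mul_apply, Fin.sum_univ_two, Matrix.vecMul, dotProduct] using hm

theorem nf_equiv {m m' : Matrix (Fin 2) (Fin 2) K} (h : NF m) (h' : NF m') (e : m.det = m'.det) :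
    ∃ g h : Matrix (Fin 2) (Fin 2) K, g.det = 1 ∧ h.det = 1 ∧ g * m * h = m' := by
  obtain ⟨g, h, h1, h2, h3⟩ := h
  obtain ⟨g', h', h4, h5, h6⟩ := h'
  refine ⟨g'.adjugate * g, h * h'.adjugate, ?_, ?_, ?_⟩
  · rw [Matrix.det_mul, Matrix.det_adjugate, h4, h1, one_pow, one_mul]
  · rw [Matrix.det_mul, Matrix.det_adjugate, h5, h2, one_pow, one_mul]
  · calc g'.adjugate * g * m * (h * h'.adjugate)
        = g'.adjugate * (g * m * h) * h'.adjugate := by simp only [Matrix.mul_assoc]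
      _ = g'.adjugate * (g' * m' * h') * h'.adjugate := by rw [h3, h6, e]
      _ = (g'.adjugate * g') * m' * (h' * h'.adjugate) := by simp only [Matrix.mul_assoc]
      _ = m' := by
        rw [Matrix.adjugate_mul, Matrix.mul_adjugate, h4, h5, one_smul, Matrix.one_mul,
          Matrix.mul_one]

end Normal

theorem kill {p k : ℕ} (hp : p.Prime) {x : ZMod (p ^ (k + 1))} (hx : ¬ IsUnit x) :
    ((p ^ k : ℕ) : ZMod (p ^ (k + 1))) * x = 0 := by
  have : NeZero (p ^ (k + 1)) := ⟨pow_ne_zero _ hp.ne_zero⟩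
  rw [← ZMod.natCast_zmod_val x] at hx ⊢
  rw [ZMod.isUnit_iff_coprime] at hx
  have h1 : p ∣ x.val := by
    by_contra h
    exact hx (Nat.Coprime.pow_right _ ((Nat.Prime.coprime_iff_not_dvd hp).2 h).symm)
  obtain ⟨t, ht⟩ := h1
  rw [ht, ← Nat.cast_mul, ← mul_assoc, ← pow_succ, Nat.cast_mul, ZMod.natCast_self, zero_mul]

theorem nf_model {p k : ℕ} (hp : p.Prime) (μ : Model (p ^ (k + 1))) {c : O}
    (hc : ¬ ∃ w : O, c = (p : ℤ) • w) : NF (μ.φ c) := by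
  by_contra hn
  have h1 : ∀ i j, ¬ IsUnit (μ.φ c i j) := fun i j h => hn (nf_of_unit h)
  have h2 : μ.φ (((p ^ k : ℕ) : ℤ) • c) = 0 := by
    rw [map_zsmul]
    ext i j
    rw [Matrix.smul_apply, zsmul_eq_mul, Int.cast_natCast, kill hp (h1 i j), Matrix.zero_apply]
  obtain ⟨w, hw⟩ := μ.ker _ h2
  refine hc ⟨w, ?_⟩
  have h3 : ((p ^ k : ℕ) : ℤ) ≠ 0 := by exact_mod_cast pow_ne_zero _ hp.ne_zero
  have h4 : ((p ^ k : ℕ) : ℤ) • (c - (p : ℤ) • w) = 0 := by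
    rw [smul_sub, hw, smul_smul]
    push_cast
    rw [pow_succ, sub_self]
  have h5 := congrArg N h4
  rw [N_smul, show N 0 = 0 from map_zero _, mul_eq_zero, Quaternion.normSq_eq_zero] at h5
  exact sub_eq_zero.1 (h5.resolve_left (pow_ne_zero _ h3))

theorem loc {p k : ℕ} (hp : p.Prime) {c c' : O} (hc : ¬ ∃ w : O, c = (p : ℤ) • w)
    (hc' : ¬ ∃ w : O, c' = (p : ℤ) • w) (ho : Odd (N c))
    (e : N c ≡ N c' [ZMOD ((p ^ (k + 1) : ℕ) : ℤ)]) :
    ∃ g h : O, N g ≡ 1 [ZMOD ((p ^ (k + 1) : ℕ) : ℤ)] ∧ N h ≡ 1 [ZMOD ((p ^ (k + 1) : ℕ) : ℤ)] ∧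
      Cg ((p ^ (k + 1) : ℕ) : ℤ) (g * c * h) c' := by
  by_cases hd : (p : ℤ) ∣ N c
  · have hp2 : Odd p := by
      refine hp.odd_of_ne_two ?_
      rintro rfl
      exact (Int.not_even_iff_odd.2 ho) (even_iff_two_dvd.2 (by exact_mod_cast hd))
    obtain ⟨μ⟩ := exists_model (p ^ (k + 1)) hp2.pow
    obtain ⟨G, H, h1, h2, h3⟩ := nf_equiv (nf_model hp μ hc) (nf_model hp μ hc') (by
      rw [μ.det, μ.det]
      exact (ZMod.intCast_eq_intCast_iff _ _ _).2 e)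
    obtain ⟨g, rfl⟩ := μ.surj G
    obtain ⟨h, rfl⟩ := μ.surj H
    rw [μ.det] at h1 h2
    refine ⟨g, h, (ZMod.intCast_eq_intCast_iff _ _ _).1 (by rw [h1, Int.cast_one]),
      (ZMod.intCast_eq_intCast_iff _ _ _).1 (by rw [h2, Int.cast_one]), μ.ker _ ?_⟩
    rw [map_sub, map_mul, map_mul, h3, sub_self]
  · have h1 : IsCoprime (((p ^ (k + 1) : ℕ)) : ℤ) (N c) := by
      push_cast
      exact (((Nat.prime_iff_prime_int.1 hp).irreducible.coprime_iff_not_dvd).2 hd).pow_left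
    obtain ⟨a, b, hab⟩ := h1
    obtain ⟨t, ht⟩ := e.dvd
    refine ⟨b • (c' * star c), 1, ?_, by rw [show N 1 = 1 from map_one _], ⟨(-a) • c', ?_⟩⟩
    · rw [N_smul, N_mul, N_star]
      refine (Int.modEq_iff_dvd.2 ⟨b ^ 2 * t * N c - a * (b * N c + 1), ?_⟩).symm
      linear_combination (b * N c + 1) * hab + b ^ 2 * N c * ht
    · rw [mul_one, smul_mul_assoc, mul_assoc, star_mul_self', smul_smul, mul_smul_comm, mul_one,
        smul_smul]
      have h3 : b * N c = 1 + ((p ^ (k + 1) : ℕ) : ℤ) * -a := by linear_combination hab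
      rw [h3, add_smul, one_smul, add_sub_cancel_left]

end TransAux

open TransAux in
theorem transitive {M : ℕ} (hM : M ≠ 0) {c c' : O}
    (hc : ∀ p : ℕ, p.Prime → p ∣ M → ¬ ∃ w : O, c = (p : ℤ) • w)
    (hc' : ∀ p : ℕ, p.Prime → p ∣ M → ¬ ∃ w : O, c' = (p : ℤ) • w)
    (ho : Odd (N c)) (e : N c ≡ N c' [ZMOD (M : ℤ)]) :
    ∃ g h : O, N g ≡ 1 [ZMOD (M : ℤ)] ∧ N h ≡ 1 [ZMOD (M : ℤ)] ∧ Cg M (g * c * h) c' := by
  have key : ∀ p : ℕ, ∃ g h : O, p ∈ M.primeFactors →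
      N g ≡ 1 [ZMOD ((p ^ M.factorization p : ℕ) : ℤ)] ∧
      N h ≡ 1 [ZMOD ((p ^ M.factorization p : ℕ) : ℤ)] ∧
      Cg ((p ^ M.factorization p : ℕ) : ℤ) (g * c * h) c' := by
    intro p
    by_cases hp : p ∈ M.primeFactors
    · have h1 := Nat.prime_of_mem_primeFactors hp
      have h2 := Nat.dvd_of_mem_primeFactors hp
      obtain ⟨k, hk⟩ := Nat.exists_eq_succ_of_ne_zero (h1.factorization_pos_of_dvd hM h2).ne'
      have h3 : N c ≡ N c' [ZMOD ((p ^ M.factorization p : ℕ) : ℤ)] :=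
        e.of_dvd (Int.natCast_dvd_natCast.2 (Nat.ordProj_dvd M p))
      rw [hk] at h3 ⊢
      obtain ⟨g, h, hh⟩ := loc h1 (hc p h1 h2) (hc' p h1 h2) ho h3
      exact ⟨g, h, fun _ => hh⟩
    · exact ⟨1, 1, fun h => absurd h hp⟩
  choose G H hGH using key
  obtain ⟨g, hg⟩ := crtO M G
  obtain ⟨h, hh⟩ := crtO M H
  exact ⟨g, h, modEq_of_local hM fun p hp => (cg_N (hg p hp)).trans (hGH p hp).1,
    modEq_of_local hM fun p hp => (cg_N (hh p hp)).trans (hGH p hp).2.1,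
    cg_of_local hM fun p hp => cg_three (hg p hp) (hh p hp) (hGH p hp).2.2⟩

end Pool.Agent.Lib.MP_f6c7cf_nt.E
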