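import Pool.Agent.Lib.MP_f6c7cf_nt.E.Approx
import Pool.Agent.Lib.MP_f6c7cf_nt.E.Trans

/-! Sums of four positive squares in prescribed residue classes. -/

namespace Pool.Agent.Lib.MP_f6c7cf_nt.E

open Finset
open scoped Quaternion RealInnerProductSpace Classical Matrix

/-- number of primitive elements of norm `n` in a residue class -/
noncomputable def coneCnt (M n : ℕ) (c : O) : ℕ := #((A n).filter fun v => Cg M v c)

theorem cone_Cg_star {M : ℤ} {v c : O} (h : Cg M v c) : Cg M (star v) (star c) := by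
  obtain ⟨x, hx⟩ := h
  exact ⟨star x, by rw [← star_sub, hx, star_zsmul]⟩

theorem coneCnt_star (M n : ℕ) (c : O) : coneCnt M n (star c) = coneCnt M n c := by
  refine card_bij (fun v _ => star v) (fun v hv => ?_) (fun v _ w _ h => star_injective h)
    (fun v hv => ?_)
  · have h := mem_filter.1 hv
    exact mem_filter.2 ⟨star_mem_A h.1, by simpa using cone_Cg_star h.2⟩
  · have h := mem_filter.1 hv
    exact ⟨star v, mem_filter.2 ⟨star_mem_A h.1, cone_Cg_star h.2⟩, star_star v⟩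

theorem coneCnt_congr {M : ℕ} (n : ℕ) {c c' : O} (h : Cg M c c') :
    coneCnt M n c = coneCnt M n c' := by
  unfold coneCnt
  congr 1
  refine filter_congr fun v _ => ?_
  rw [← apxRed_eq_iff, ← apxRed_eq_iff, (apxRed_eq_iff M c c').2 h]

theorem cone_left {M : ℕ} (hM : Even M) (hM0 : M ≠ 0) {ε : ℝ} (hε : 0 < ε) :
    ∃ N₀ : ℕ, ∀ n ≥ N₀, Odd n → ∀ g c : O, N g ≡ 1 [ZMOD (2 * M : ℤ)] →
      |(coneCnt M n (g * c) : ℝ) - coneCnt M n c| ≤ ε * n := by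
  obtain ⟨N₀, h⟩ := approx_left hM hM0 0 hε
  refine ⟨N₀, fun n hn ho g c hg => ?_⟩
  have h1 := h n hn ho 1 1 norm_one norm_one g (g * c) hg
  simp only [pow_zero, sum_const, nsmul_eq_mul, mul_one] at h1
  have e : ((A n).filter fun v => Cg M (g * v) (g * c)) = (A n).filter fun v => Cg M v c := by
    refine filter_congr fun v _ => ?_
    rw [← apxRed_eq_iff, ← apxRed_eq_iff, apxRed_mul, apxRed_mul]
    exact (apxRed_inj (apx_coprime hg)).eq_iff
  rw [e] at h1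
  exact h1

theorem cone_lower {M : ℕ} [NeZero M] (hM : Even M) {ε : ℝ} (hε : 0 < ε) :
    ∃ N₀ : ℕ, ∀ n ≥ N₀, Odd n → ∀ c : O,
      (∀ p : ℕ, p.Prime → p ∣ M → ¬ ∃ w : O, c = (p : ℤ) • w) → N c ≡ n [ZMOD (2 * M : ℤ)] →
      (n : ℝ) ≤ Fintype.card ℍ[ZMod M] * (coneCnt M n c + 2 * ε * n) := by
  have hM0 : M ≠ 0 := NeZero.ne M
  obtain ⟨N₀, h⟩ := cone_left hM hM0 hε
  refine ⟨N₀, fun n hn ho c hc hN => ?_⟩
  have key : ∀ v ∈ A n, (coneCnt M n v : ℝ) ≤ coneCnt M n c + 2 * ε * n := by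
    intro v hv
    obtain ⟨hv1, hv2⟩ := mem_A.1 hv
    have hc' : ∀ p : ℕ, p.Prime → p ∣ 2 * M → ¬ ∃ w : O, c = (p : ℤ) • w := fun p hp hd => by
      refine hc p hp ?_
      rcases (Nat.Prime.dvd_mul hp).1 hd with h2 | h2
      · exact h2.trans hM.two_dvd
      · exact h2
    obtain ⟨g, k, hg, hk, hgk⟩ := transitive (M := 2 * M) (by omega) (c := v) (c' := c)
      (fun p hp _ => (prim_iff v).1 hv2 p hp) hc' (by rw [hv1]; exact_mod_cast ho)
      (by rw [hv1]; exact_mod_cast hN.symm)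
    have hg' : N g ≡ 1 [ZMOD (2 * M : ℤ)] := by exact_mod_cast hg
    have hk' : N (star k) ≡ 1 [ZMOD (2 * M : ℤ)] := by rw [N_star]; exact_mod_cast hk
    have hgk' : Cg M (g * (v * k)) c := by
      obtain ⟨x, hx⟩ := hgk
      refine ⟨(2 : ℤ) • x, ?_⟩
      rw [← mul_assoc, hx, smul_smul]
      push_cast
      rw [mul_comm]
    have a1 := h n hn ho g (v * k) hg'
    have a2 := h n hn ho (star k) (star v) hk'
    rw [← star_mul, coneCnt_star, coneCnt_star] at a2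
    rw [coneCnt_congr n hgk'] at a1
    have b1 := (abs_le.1 a1).1
    have b2 := (abs_le.1 a2).1
    linarith
  have hK : 0 ≤ (coneCnt M n c : ℝ) + 2 * ε * n := by positivity
  have h1 : (#(A n) : ℝ) = ∑ q : ℍ[ZMod M], (#((A n).filter fun v => apxRed M v = q) : ℝ) := by
    rw [card_eq_sum_card_fiberwise (f := apxRed M) (t := univ) fun _ _ => mem_univ _]
    push_cast
    rfl
  have h2 : ∀ q ∈ (univ : Finset ℍ[ZMod M]),
      (#((A n).filter fun v => apxRed M v = q) : ℝ) ≤ coneCnt M n c + 2 * ε * n := by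
    intro q _
    rcases ((A n).filter fun v => apxRed M v = q).eq_empty_or_nonempty with e | ⟨v, hv⟩
    · rw [e, card_empty, Nat.cast_zero]
      exact hK
    · obtain ⟨hv1, rfl⟩ := mem_filter.1 hv
      refine le_trans (le_of_eq ?_) (key v hv1)
      unfold coneCnt
      congr 2
      exact filter_congr fun x _ => apxRed_eq_iff M x v
  have h3 := sum_le_card_nsmul _ _ _ h2
  rw [← h1, nsmul_eq_mul, card_univ] at h3
  refine le_trans ?_ h3
  have h4 : n ≤ #(A n) := (Nat.le_mul_of_pos_right n u_pos).trans (card_A_ge n ho)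
  exact_mod_cast h4

theorem cone_net {e : ℍ[ℝ]} (he : ‖e‖ = 1) : ∃ S : Finset ℍ[ℝ], (∀ a ∈ S, ‖a‖ = 1) ∧
    ∀ x : ℍ[ℝ], ‖x‖ = 1 → ∃ a ∈ S, (0.9 : ℝ) < ⟪e, a * x⟫ := by
  obtain ⟨t, ht, hc⟩ := (isCompact_sphere (0 : ℍ[ℝ]) 1).elim_nhds_subcover
    (fun x => {y | (0.9 : ℝ) < ⟪e, e * x⁻¹ * y⟫}) fun x hx => by
      have hx1 : ‖x‖ = 1 := by simpa using hx
      have hx0 : x ≠ 0 := by
        rintro rfl
        simp at hx1
      refine IsOpen.mem_nhds (isOpen_lt continuous_const (by fun_prop)) ?_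
      change (0.9 : ℝ) < ⟪e, e * x⁻¹ * x⟫
      rw [mul_assoc, inv_mul_cancel₀ hx0, mul_one, real_inner_self_eq_norm_sq, he]
      norm_num
  refine ⟨t.image fun x => e * x⁻¹, fun a ha => ?_, fun y hy => ?_⟩
  · obtain ⟨x, hx, rfl⟩ := mem_image.1 ha
    have hx1 : ‖x‖ = 1 := by simpa using ht x hx
    rw [norm_mul, norm_inv, he, hx1]
    norm_num
  · have := hc (show y ∈ Metric.sphere (0 : ℍ[ℝ]) 1 by simpa using hy)
    simp only [Set.mem_iUnion] at this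
    obtain ⟨x, hx, hxy⟩ := this
    exact ⟨_, mem_image_of_mem _ hx, hxy⟩

theorem cone_one_add {e x : ℍ[ℝ]} (he : ‖e‖ = 1) (hx : ‖x‖ = 1) : 0 ≤ 1 + ⟪e, x⟫ := by
  have := abs_real_inner_le_norm e x
  rw [he, hx, mul_one] at this
  linarith [(abs_le.1 this).1]

theorem cone_upper {M : ℕ} (hM : Even M) (hM0 : M ≠ 0) {e : ℍ[ℝ]} (he : ‖e‖ = 1) {ε : ℝ}
    (hε : 0 < ε) : ∃ N₀ : ℕ, ∀ n ≥ N₀, Odd n → ∀ c : O,
      (∀ v ∈ A n, Cg M v c → ⟪e, dir v⟫ ≤ (0.87 : ℝ)) → (coneCnt M n c : ℝ) ≤ ε * n := by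
  obtain ⟨S, hS1, hS2⟩ := cone_net he
  have hs : (0 : ℝ) < 2 * (#S + 1) := by positivity
  obtain ⟨k, hk⟩ := exists_pow_lt_of_lt_one (inv_pos.2 hs) (show (1.87 / 1.9 : ℝ) < 1 by norm_num)
  obtain ⟨N₀, h⟩ := approx_left hM hM0 k (ε := ε / (2 * (#S + 1))) (by positivity)
  refine ⟨N₀, fun n hn ho c hc => ?_⟩
  set F := (A n).filter fun v => Cg M v c with hF
  have hd : ∀ v ∈ F, ‖dir v‖ = 1 := fun v hv =>
    norm_dir (mem_A.1 (mem_filter.1 hv).1).2.ne_zero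
  have h1 : ∑ v ∈ F, (1 + ⟪e, dir v⟫) ^ k ≤ #F * (1.87 : ℝ) ^ k := by
    rw [← nsmul_eq_mul]
    refine sum_le_card_nsmul _ _ _ fun v hv => ?_
    refine pow_le_pow_left₀ (cone_one_add he (hd v hv)) ?_ k
    have := hc v (mem_filter.1 hv).1 (mem_filter.1 hv).2
    linarith
  have h2 : ∀ a ∈ S, ∑ v ∈ F, (1 + ⟪e, a * dir v⟫) ^ k ≤
      #F * (1.87 : ℝ) ^ k + ε / (2 * (#S + 1)) * n := fun a ha => by
    have h3 := h n hn ho e a he (hS1 a ha) 1 c (by rw [N, map_one])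
    simp only [one_mul] at h3
    rw [← hF] at h3
    linarith [(abs_le.1 h3).1]
  have h3 : #F * (1.9 : ℝ) ^ k ≤ ∑ a ∈ S, ∑ v ∈ F, (1 + ⟪e, a * dir v⟫) ^ k := by
    rw [sum_comm, ← nsmul_eq_mul]
    refine card_nsmul_le_sum _ _ _ fun v hv => ?_
    obtain ⟨a, ha, h4⟩ := hS2 _ (hd v hv)
    have h5 : ∀ b ∈ S, 0 ≤ (1 + ⟪e, b * dir v⟫) ^ k := fun b hb =>
      pow_nonneg (cone_one_add he (by rw [norm_mul, hS1 b hb, hd v hv, mul_one])) k
    refine le_trans ?_ (single_le_sum h5 ha)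
    exact pow_le_pow_left₀ (by norm_num) (by linarith) k
  have h4 := sum_le_card_nsmul _ _ _ h2
  rw [nsmul_eq_mul] at h4
  have h5 : (1 : ℝ) ≤ 1.9 ^ k := one_le_pow₀ (by norm_num)
  have h6 : 2 * (#S + 1) * (1.87 : ℝ) ^ k ≤ 1.9 ^ k := by
    rw [div_pow, div_lt_iff₀ (by positivity), ← div_eq_inv_mul, lt_div_iff₀ hs] at hk
    linarith
  have h7 : (#S : ℝ) * (ε / (2 * (#S + 1)) * n) ≤ ε * n / 2 := by
    have e1 : (#S : ℝ) * (ε / (2 * (#S + 1)) * n) = ε * n / 2 * (#S / (#S + 1)) := by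
      field_simp
    rw [e1]
    refine mul_le_of_le_one_right (by positivity) ?_
    rw [div_le_one (by positivity)]
    linarith
  have h8 : (0 : ℝ) ≤ #F := Nat.cast_nonneg _
  have h9 : (0 : ℝ) ≤ 1.87 ^ k := by positivity
  have h10 := mul_le_mul_of_nonneg_left h6 h8
  have h11 := mul_le_mul_of_nonneg_left h5 h8
  have h12 := mul_nonneg h8 h9
  change (#F : ℝ) ≤ ε * n
  nlinarith

theorem cone_pos {x y z t : ℝ} (h : x ^ 2 + y ^ 2 + z ^ 2 + t ^ 2 = 1)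
    (h' : 0.87 < (x + y + z + t) / 2) : 0 < x := by
  by_contra h0
  push Not at h0
  nlinarith [sq_nonneg (y - z), sq_nonneg (y - t), sq_nonneg (z - t), sq_nonneg x]

theorem cone {M : ℕ} (hM : Even M) (hM0 : M ≠ 0) :
    ∃ N₀ : ℕ, ∀ n ≥ N₀, Odd n → ∀ c : O,
      (∀ p : ℕ, p.Prime → p ∣ M → ¬ ∃ w : O, c = (p : ℤ) • w) → N c ≡ n [ZMOD (2 * M : ℤ)] →
      ∃ v : O, N v = n ∧ Cg M v c ∧ 0 < v.re ∧ 0 < v.imI ∧ 0 < v.imJ ∧ 0 < v.imK := by
  have : NeZero M := ⟨hM0⟩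
  let e : ℍ[ℝ] := ⟨1 / 2, 1 / 2, 1 / 2, 1 / 2⟩
  have e0 : e.re = 1 / 2 := rfl
  have e1 : e.imI = 1 / 2 := rfl
  have e2 : e.imJ = 1 / 2 := rfl
  have e3 : e.imK = 1 / 2 := rfl
  have he : ‖e‖ = 1 := by
    have h1 := Quaternion.normSq_eq_norm_mul_self e
    rw [Quaternion.normSq_def', e0, e1, e2, e3] at h1
    have h2 := norm_nonneg e
    nlinarith
  have hin : ∀ x : ℍ[ℝ], ⟪e, x⟫ = (x.re + x.imI + x.imJ + x.imK) / 2 := fun x => by
    rw [Quaternion.inner_def, Quaternion.re_mul, e0, e1, e2, e3]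
    simp
    ring
  set K : ℝ := (Fintype.card ℍ[ZMod M] : ℝ) with hK
  have hK0 : 0 ≤ K := Nat.cast_nonneg _
  have hε : 0 < 1 / (4 * (K + 1)) := by positivity
  obtain ⟨N₁, h1⟩ := cone_lower hM hε
  obtain ⟨N₂, h2⟩ := cone_upper hM hM0 he hε
  refine ⟨max N₁ N₂, fun n hn ho c hc hN => ?_⟩
  have a1 := h1 n (le_of_max_le_left hn) ho c hc hN
  have hn0 : (0 : ℝ) < n := by exact_mod_cast ho.pos
  have a2 : ∃ v ∈ A n, Cg M v c ∧ (0.87 : ℝ) < ⟪e, dir v⟫ := by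
    by_contra a3
    push Not at a3
    have a4 := h2 n (le_of_max_le_right hn) ho c a3
    have a5 : K * (coneCnt M n c + 2 * (1 / (4 * (K + 1))) * n) ≤
        K * (3 * (1 / (4 * (K + 1))) * n) := mul_le_mul_of_nonneg_left (by linarith) hK0
    have a6 : K * (3 * (1 / (4 * (K + 1))) * n) = 3 / 4 * n * (K / (K + 1)) := by
      field_simp
    have a7 : K / (K + 1) ≤ 1 := by
      rw [div_le_one (by positivity)]
      linarith
    have a8 := mul_le_of_le_one_right (show (0 : ℝ) ≤ 3 / 4 * n by positivity) a7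
    linarith
  obtain ⟨v, hv, hvc, hv'⟩ := a2
  have hv0 := (mem_A.1 hv).2.ne_zero
  have hd := norm_dir hv0
  have hs : (dir v).re ^ 2 + (dir v).imI ^ 2 + (dir v).imJ ^ 2 + (dir v).imK ^ 2 = 1 := by
    rw [← Quaternion.normSq_def', Quaternion.normSq_eq_norm_mul_self, hd, mul_one]
  rw [hin] at hv'
  have hr : 0 ≤ ‖toR v‖⁻¹ := inv_nonneg.2 (norm_nonneg _)
  have fin : ∀ z : ℤ, 0 < ‖toR v‖⁻¹ * (z : ℝ) → 0 < z := fun z hz => by
    by_contra h0
    have h3 : (z : ℝ) ≤ 0 := by exact_mod_cast not_lt.1 h0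
    exact absurd hz (not_lt.2 (mul_nonpos_of_nonneg_of_nonpos hr h3))
  refine ⟨v, (mem_A.1 hv).1, hvc, fin _ ?_, fin _ ?_, fin _ ?_, fin _ ?_⟩
  · exact cone_pos hs hv'
  · exact cone_pos (x := (dir v).imI) (y := (dir v).re) (z := (dir v).imJ) (t := (dir v).imK)
      (by linarith) (by linarith)
  · exact cone_pos (x := (dir v).imJ) (y := (dir v).re) (z := (dir v).imI) (t := (dir v).imK)
      (by linarith) (by linarith)
  · exact cone_pos (x := (dir v).imK) (y := (dir v).re) (z := (dir v).imI) (t := (dir v).imJ)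
      (by linarith) (by linarith)

end Pool.Agent.Lib.MP_f6c7cf_nt.E
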