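import Pool.Agent.Lib.MP_f6c7cf_nt.E.Tower

/-! The multiplicity inequality. -/

namespace Pool.Agent.Lib.MP_f6c7cf_nt.E

open Finset
open scoped Quaternion RealInnerProductSpace Classical Matrix

section ZM

variable {r k : ℕ}

theorem zm_pow_zero (hr : r.Prime) (i : ℕ) : ((r ^ i : ℕ) : ZMod (r ^ k)) = 0 ↔ k ≤ i := by
  rw [ZMod.natCast_eq_zero_iff, Nat.pow_dvd_pow_iff_le_right hr.one_lt]

theorem zm_form (hr : r.Prime) (d : ZMod (r ^ k)) :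
    ∃ i, ∃ w : ZMod (r ^ k), IsUnit w ∧ d = w * ((r ^ i : ℕ) : ZMod (r ^ k)) := by
  obtain ⟨e, he, w, hw, rfl⟩ := ZMod.eq_unit_mul_divisor d
  obtain ⟨i, -, rfl⟩ := (Nat.dvd_prime_pow hr).mp he
  exact ⟨i, w, hw, rfl⟩

theorem zm_ann (hr : r.Prime) {i j : ℕ} {w : ZMod (r ^ k)} (hw : IsUnit w) :
    ((r ^ j : ℕ) : ZMod (r ^ k)) * (w * ((r ^ i : ℕ) : ZMod (r ^ k))) = 0 ↔ k ≤ j + i := by
  rw [mul_left_comm, hw.mul_right_eq_zero, ← Nat.cast_mul, ← pow_add, zm_pow_zero hr]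

theorem zm_level (hr : r.Prime) {j : ℕ} {d d' : ZMod (r ^ k)}
    (h1 : ((r ^ (j + 1) : ℕ) : ZMod (r ^ k)) * d = 0) (h2 : ((r ^ j : ℕ) : ZMod (r ^ k)) * d ≠ 0)
    (h1' : ((r ^ (j + 1) : ℕ) : ZMod (r ^ k)) * d' = 0)
    (h2' : ((r ^ j : ℕ) : ZMod (r ^ k)) * d' ≠ 0) : ∃ w, IsUnit w ∧ d' = w * d := by
  obtain ⟨i, w, hw, rfl⟩ := zm_form hr d
  obtain ⟨i', w', hw', rfl⟩ := zm_form hr d'
  rw [Ne, zm_ann hr hw] at h2
  rw [Ne, zm_ann hr hw'] at h2'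
  rw [zm_ann hr hw] at h1
  rw [zm_ann hr hw'] at h1'
  obtain rfl : i = i' := by omega
  obtain ⟨w, rfl⟩ := hw
  refine ⟨w' * ↑w⁻¹, hw'.mul (Units.isUnit _), ?_⟩
  rw [mul_assoc, ← mul_assoc (↑w⁻¹ : ZMod (r ^ k)), Units.inv_mul, one_mul]

theorem zm_nil (hr : r.Prime) (hk : 1 ≤ k) {d : ZMod (r ^ k)}
    (h : ((r ^ (k - 1) : ℕ) : ZMod (r ^ k)) * d = 0) : IsNilpotent d := by
  obtain ⟨i, w, hw, rfl⟩ := zm_form hr d
  rw [zm_ann hr hw] at h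
  refine ⟨k, ?_⟩
  rw [mul_pow, ← Nat.cast_pow, ← pow_mul, (zm_pow_zero hr _).mpr, mul_zero]
  have : 1 ≤ i := by omega
  nlinarith

theorem zm_card [NeZero (r ^ k)] (hr : r.Prime) (hk : 1 ≤ k) :
    r ^ (k - 1) ≤ #(univ.filter fun d : ZMod (r ^ k) =>
      ((r ^ (k - 1) : ℕ) : ZMod (r ^ k)) * d = 0) := by
  have e : r ^ k = r * r ^ (k - 1) := by rw [← pow_succ']; congr 1; omega
  calc r ^ (k - 1) = #(range (r ^ (k - 1))) := (card_range _).symm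
    _ ≤ _ := by
      refine card_le_card_of_injOn (fun s => ((r * s : ℕ) : ZMod (r ^ k))) ?_ ?_
      · intro s _
        simp only [coe_filter, mem_univ, true_and, Set.mem_ofPred_eq]
        rw [← Nat.cast_mul, ZMod.natCast_eq_zero_iff]
        exact ⟨s, by rw [e]; ring⟩
      · intro s hs s' hs' h
        simp only [coe_range, Set.mem_Iio] at hs hs'
        have h1 := (ZMod.natCast_eq_natCast_iff' _ _ _).mp h
        have p := hr.pos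
        rw [Nat.mod_eq_of_lt (by rw [e]; exact Nat.mul_lt_mul_of_pos_left hs p),
          Nat.mod_eq_of_lt (by rw [e]; exact Nat.mul_lt_mul_of_pos_left hs' p)] at h1
        exact Nat.eq_of_mul_eq_mul_left p h1

end ZM

variable {M r : ℕ} {E : Type} [NormedAddCommGroup E] [InnerProductSpace ℝ E]

theorem norm_sum_single {X κ : Type} [Fintype X] [DecidableEq X] (s : Finset κ) (g : κ → X) (z : κ → E) {B : ℝ}
    (hz : ∀ p ∈ s, ‖z p‖ ≤ B) :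
    ‖∑ p ∈ s, (PiLp.single 2 (g p) (z p) : PiLp 2 fun _ : X => E)‖ ^ 2 ≤
      B ^ 2 * #((s ×ˢ s).filter fun p => g p.1 = g p.2) := by
  rw [← real_inner_self_eq_norm_sq, sum_inner]
  simp_rw [inner_sum]
  rw [← sum_product', card_filter, Nat.cast_sum, mul_sum]
  refine sum_le_sum fun p hp => ?_
  rw [mem_product] at hp
  rw [PiLp.inner_apply, sum_eq_single (g p.1)]
  · rw [PiLp.single_eq_same]
    split_ifs with h
    · rw [h, PiLp.single_eq_same]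
      have h1 := hz _ hp.1
      have h2 := hz _ hp.2
      calc ⟪z p.1, z p.2⟫ ≤ ‖z p.1‖ * ‖z p.2‖ := real_inner_le_norm _ _
        _ ≤ B * B := mul_le_mul h1 h2 (norm_nonneg _) ((norm_nonneg _).trans h1)
        _ = _ := by push_cast; ring
    · rw [PiLp.single_eq_of_ne _ h]; simp
  · intro b _ hb
    rw [PiLp.single_eq_of_ne _ hb]; simp
  · simp

theorem inner_sum_single {X κ : Type} [Fintype X] [DecidableEq X] (s : Finset κ) (g : κ → X) (z : κ → E)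
    (Φ : PiLp 2 fun _ : X => E) :
    ⟪∑ p ∈ s, (PiLp.single 2 (g p) (z p) : PiLp 2 fun _ : X => E), Φ⟫ =
      ∑ p ∈ s, ⟪z p, Φ (g p)⟫ := by
  rw [sum_inner]
  refine sum_congr rfl fun p _ => ?_
  rw [PiLp.inner_apply, sum_eq_single (g p)]
  · rw [PiLp.single_eq_same]
  · intro b _ hb
    rw [PiLp.single_eq_of_ne _ hb]; simp
  · simp

/-- The vector attached to a line. -/
noncomputable def Rep.ln (ρ : Rep M E) {R : ℕ} (μ : Model R) (η : E) (e : Fin 2 → ZMod R) : E :=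
  ∑ α ∈ (A R).filter (fun α => μ.φ α *ᵥ e = 0), ρ.τ α η

/-- The test functions. -/
noncomputable def Rep.Ph (ρ : Rep M E) {R : ℕ} [NeZero R] (μ : Model R) (η : E) (t : ZMod R) :
    PiLp 2 fun _ : Matrix (Fin 2) (Fin 2) (ZMod R) => E :=
  WithLp.toLp 2 fun h => if IsUnit h.det then ρ.ln μ η (h *ᵥ ![1, t]) else 0

theorem Rep.Ph_apply (ρ : Rep M E) {R : ℕ} [NeZero R] (μ : Model R) (η : E) (t : ZMod R)
    (h : Matrix (Fin 2) (Fin 2) (ZMod R)) :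
    ρ.Ph μ η t h = if IsUnit h.det then ρ.ln μ η (h *ᵥ ![1, t]) else 0 := rfl

theorem Rep.Ph_smul (ρ : Rep M E) {R : ℕ} [NeZero R] (μ : Model R) (η : E) (t : ZMod R)
    (h : Matrix (Fin 2) (Fin 2) (ZMod R)) {c : ZMod R} (hc : IsUnit c) :
    ρ.Ph μ η t (c • h) = ρ.Ph μ η t h := by
  rw [Ph_apply, Ph_apply, Matrix.det_smul]
  have h1 : IsUnit (c ^ Fintype.card (Fin 2) * h.det) ↔ IsUnit h.det := by
    rw [IsUnit.mul_iff]; exact ⟨fun h => h.2, fun h => ⟨hc.pow _, h⟩⟩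
  simp only [h1]
  split_ifs
  · unfold ln
    congr 1
    refine filter_congr fun α _ => ?_
    rw [Matrix.smul_mulVec, Matrix.mulVec_smul, hc.smul_eq_zero]
  · rfl

theorem Rep.gram_shift (ρ : Rep M E) {R : ℕ} [NeZero R] (μ : Model R) (η : E) (t d : ZMod R)
    {w : ZMod R} (hw : IsUnit w) :
    ⟪ρ.Ph μ η t, ρ.Ph μ η (t + w * d)⟫ = ⟪ρ.Ph μ η 0, ρ.Ph μ η d⟫ := by
  have hg : IsUnit (!![1, 0; t, w] : Matrix (Fin 2) (Fin 2) (ZMod R)).det := by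
    simpa [Matrix.det_fin_two] using hw
  obtain ⟨g, hg'⟩ := (Matrix.isUnit_iff_isUnit_det _).mpr hg
  rw [PiLp.inner_apply, PiLp.inner_apply]
  symm
  rw [← Equiv.sum_comp (Units.mulRight g)]
  refine sum_congr rfl fun h _ => ?_
  have h1 : IsUnit (h * (g : Matrix (Fin 2) (Fin 2) (ZMod R))).det ↔ IsUnit h.det := by
    rw [Matrix.det_mul, IsUnit.mul_iff, hg']; exact ⟨fun h => h.1, fun h => ⟨h, hg⟩⟩
  have h2 : ∀ x : ZMod R, (h * (g : Matrix (Fin 2) (Fin 2) (ZMod R))) *ᵥ ![1, x] =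
      h *ᵥ ![1, t + w * x] := by
    intro x
    rw [← Matrix.mulVec_mulVec, hg']
    congr 1
    ext i; fin_cases i <;> simp [Matrix.mulVec, dotProduct, Fin.sum_univ_two]
  simp only [Units.mulRight_apply, Ph_apply, h1, h2, mul_zero, add_zero]

theorem Rep.coprime_pow (hr : r.Prime) (hrM : ¬ r ∣ M) {v : O} {i : ℕ} (hv : N v = (r ^ i : ℕ)) :
    IsCoprime (N v) (M : ℤ) := by
  rw [hv, Nat.isCoprime_iff_coprime]
  exact Nat.Coprime.pow_left _ ((Nat.Prime.coprime_iff_not_dvd hr).mpr hrM)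

theorem core_odd (hM : Even M) (hr : r.Prime) (hrM : ¬ r ∣ M) : Odd r := by
  refine hr.odd_of_ne_two ?_
  rintro rfl
  exact hrM (even_iff_two_dvd.mp hM)

theorem Rep.norm_ln (ρ : Rep M E) (hM : Even M) (hr : r.Prime) (hrM : ¬ r ∣ M) {k : ℕ}
    (μ : Model (r ^ k)) (η : E) {h : Matrix (Fin 2) (Fin 2) (ZMod (r ^ k))} (hh : IsUnit h.det) :
    ‖ρ.ln μ η (h *ᵥ ![1, 0])‖ ≤ u * ‖η‖ := by
  unfold ln
  refine (norm_sum_le _ _).trans (le_of_eq ?_)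
  rw [sum_congr rfl (g := fun _ => ‖η‖), sum_const, card_line (core_odd hM hr hrM).pow μ h hh,
    nsmul_eq_mul]
  intro α hα
  exact ρ.norm_τ (Rep.coprime_pow hr hrM (mem_A.mp (mem_filter.mp hα).1).1) η

theorem Rep.norm_level (ρ : Rep M E) (hM : Even M) (hr : r.Prime) (hrM : ¬ r ∣ M) {k j : ℕ}
    [NeZero (r ^ k)] (hj : j < k) (μ : Model (r ^ k)) (η : E)
    {h : Matrix (Fin 2) (Fin 2) (ZMod (r ^ k))} (hh : IsUnit h.det) :
    ‖∑ d ∈ univ.filter (fun d : ZMod (r ^ k) => ((r ^ j : ℕ) : ZMod (r ^ k)) * d = 0),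
      ρ.ln μ η (h *ᵥ ![1, d])‖ ≤ ∑ l ∈ range k, ‖ρ.T (r ^ l) η‖ := by
  have e : r ^ k = r ^ j * r ^ (k - j) := by rw [← pow_add]; congr 1; omega
  obtain ⟨γ, hγ, hγ'⟩ := ideal_gen (core_odd hM hr hrM).pow e μ h hh
  unfold ln
  rw [level_sum (fun α => ρ.τ α η) hr hj μ h hh hγ']
  have hN := (mem_A.mp hγ).1
  have s := sum_right (fun α => ρ.τ α η) (n := r ^ j) (pow_ne_zero _ hr.ne_zero) hN
  rw [← e] at s
  rw [s, sum_congr rfl (g := fun a => ρ.τ γ (ρ.τ a η)), ← map_sum,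
    ρ.norm_τ (Rep.coprime_pow hr hrM hN)]
  · refine (ρ.branch hM hr hrM η j (by omega) hγ).trans ?_
    exact sum_le_sum_of_subset_of_nonneg (range_subset_range.mpr hj) fun _ _ _ => norm_nonneg _
  · intro a ha
    exact ρ.mul _ _ (mem_A.mp (mem_filter.mp ha).1).2.ne_zero (mem_A.mp hγ).2.ne_zero η

theorem Rep.gram_level (ρ : Rep M E) (hM : Even M) (hr : r.Prime) (hrM : ¬ r ∣ M) {k j : ℕ}
    [NeZero (r ^ k)] (hj : j < k) (μ : Model (r ^ k)) (η : E) :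
    |∑ d ∈ univ.filter (fun d : ZMod (r ^ k) => ((r ^ j : ℕ) : ZMod (r ^ k)) * d = 0),
      ⟪ρ.Ph μ η 0, ρ.Ph μ η d⟫| ≤
      ((r : ℝ) ^ k) ^ 4 * (u * ‖η‖ * ∑ l ∈ range k, ‖ρ.T (r ^ l) η‖) := by
  simp_rw [PiLp.inner_apply]
  rw [sum_comm]
  refine (abs_sum_le_sum_abs _ _).trans ?_
  refine (sum_le_card_nsmul _ _ (u * ‖η‖ * ∑ l ∈ range k, ‖ρ.T (r ^ l) η‖) ?_).trans
    (le_of_eq ?_)
  · intro h _
    rw [← inner_sum]
    by_cases hh : IsUnit h.det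
    · simp only [Ph_apply, hh, if_true]
      refine (abs_real_inner_le_norm _ _).trans ?_
      exact mul_le_mul (ρ.norm_ln hM hr hrM μ η hh) (ρ.norm_level hM hr hrM hj μ η hh)
        (norm_nonneg _) (by positivity)
    · simp only [Ph_apply, hh, if_false, inner_zero_left, abs_zero]
      positivity
  · rw [nsmul_eq_mul, card_univ]
    congr 1
    have : Fintype.card (Matrix (Fin 2) (Fin 2) (ZMod (r ^ k))) = (r ^ k) ^ 4 := by
      rw [Fintype.card_congr (Matrix.of (m := Fin 2) (n := Fin 2) (α := ZMod (r ^ k))).symm,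
        Fintype.card_fun, Fintype.card_fun, ZMod.card, Fintype.card_fin]
      ring
    rw [this]; push_cast; rfl

theorem Rep.gram_row (ρ : Rep M E) (hM : Even M) (hr : r.Prime) (hrM : ¬ r ∣ M) {k : ℕ}
    [NeZero (r ^ k)] (μ : Model (r ^ k)) (η : E) (j : ℕ) (hj : j < k) :
    ∑ d ∈ univ.filter (fun d : ZMod (r ^ k) => ((r ^ j : ℕ) : ZMod (r ^ k)) * d = 0),
      |⟪ρ.Ph μ η 0, ρ.Ph μ η d⟫| ≤
      (2 * j + 1) * (((r : ℝ) ^ k) ^ 4 * (u * ‖η‖ * ∑ l ∈ range k, ‖ρ.T (r ^ l) η‖)) := by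
  induction j with
  | zero =>
    have h := ρ.gram_level hM hr hrM hj μ η
    have e : (univ.filter fun d : ZMod (r ^ k) => ((r ^ 0 : ℕ) : ZMod (r ^ k)) * d = 0) = {0} := by
      ext d; simp
    rw [e, sum_singleton] at h ⊢
    simpa using h
  | succ j ih =>
    have ih := ih (by omega)
    have h1 := ρ.gram_level hM hr hrM hj μ η
    have h0 := ρ.gram_level hM hr hrM (show j < k by omega) μ η
    set S₁ := univ.filter fun d : ZMod (r ^ k) => ((r ^ (j + 1) : ℕ) : ZMod (r ^ k)) * d = 0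
    set S₀ := univ.filter fun d : ZMod (r ^ k) => ((r ^ j : ℕ) : ZMod (r ^ k)) * d = 0
    have hs : S₀ ⊆ S₁ := by
      intro d hd
      simp only [S₀, S₁, mem_filter, mem_univ, true_and] at hd ⊢
      rw [pow_succ', Nat.cast_mul, mul_assoc, hd, mul_zero]
    have hc : ∀ d ∈ S₁ \ S₀, ∀ d' ∈ S₁ \ S₀,
        ⟪ρ.Ph μ η 0, ρ.Ph μ η d'⟫ = ⟪ρ.Ph μ η 0, ρ.Ph μ η d⟫ := by
      intro d hd d' hd'
      simp only [S₀, S₁, mem_sdiff, mem_filter, mem_univ, true_and] at hd hd'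
      obtain ⟨w, hw, rfl⟩ := zm_level hr hd.1 hd.2 hd'.1 hd'.2
      simpa using ρ.gram_shift μ η 0 d hw
    have ha : ∑ d ∈ S₁ \ S₀, |⟪ρ.Ph μ η 0, ρ.Ph μ η d⟫| =
        |∑ d ∈ S₁ \ S₀, ⟪ρ.Ph μ η 0, ρ.Ph μ η d⟫| := by
      rcases (S₁ \ S₀).eq_empty_or_nonempty with e | ⟨d, hd⟩
      · simp [e]
      · rw [sum_congr rfl fun d' hd' => by rw [hc d hd d' hd'],
          sum_congr rfl fun d' hd' => hc d hd d' hd']
        simp [abs_mul]
    rw [← sum_sdiff hs, ha, sum_sdiff_eq_sub hs]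
    have := abs_sub (∑ d ∈ S₁, ⟪ρ.Ph μ η 0, ρ.Ph μ η d⟫) (∑ d ∈ S₀, ⟪ρ.Ph μ η 0, ρ.Ph μ η d⟫)
    push_cast
    linarith

theorem Rep.exchange (ρ : Rep M E) (hM : Even M) (hr : r.Prime) (hrM : ¬ r ∣ M) {k : ℕ}
    [NeZero (r ^ k)] (μ : Model (r ^ k)) {n : ℕ} (hn : Odd n) (hnr : ¬ r ∣ n) (η : E)
    (t : ZMod (r ^ k)) : ‖∑ v ∈ A n, ρ.τ v (ρ.Ph μ η t (μ.φ v))‖ = u * ‖ρ.T n η‖ := by
  have hc : Nat.Coprime (r ^ k) n :=
    Nat.Coprime.pow_left _ ((Nat.Prime.coprime_iff_not_dvd hr).mpr hnr)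
  have hh : IsUnit (!![1, 0; t, 1] : Matrix (Fin 2) (Fin 2) (ZMod (r ^ k))).det := by
    simp [Matrix.det_fin_two]
  obtain ⟨β, hβ, hβ'⟩ := ideal_gen (core_odd hM hr hrM).pow (one_mul _).symm μ _ hh
  have e0 : (!![1, 0; t, 1] : Matrix (Fin 2) (Fin 2) (ZMod (r ^ k))) *ᵥ ![1, 0] = ![1, t] := by
    ext i; fin_cases i <;> simp [Matrix.mulVec, dotProduct, Fin.sum_univ_two]
  simp only [e0, Nat.cast_one, one_smul] at hβ'
  have hN := (mem_A.mp hβ).1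
  have s1 := sum_mul_coprime (fun δ => if μ.φ δ *ᵥ ![1, t] = 0 then ρ.τ δ η else 0)
    (pow_ne_zero k hr.ne_zero) hn hc
  have s2 := sum_right (fun δ => ρ.τ δ η) (n := n) (pow_ne_zero k hr.ne_zero) hN
  have e1 : ∑ v ∈ A n, ρ.τ v (ρ.Ph μ η t (μ.φ v)) = ∑ α ∈ A (r ^ k), ∑ v ∈ A n,
      if μ.φ (α * v) *ᵥ ![1, t] = 0 then ρ.τ (α * v) η else 0 := by
    rw [sum_comm]
    refine sum_congr rfl fun v hv => ?_
    have hv' := mem_A.mp hv
    have hu : IsUnit (μ.φ v).det := by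
      rw [μ.det, hv'.1, Int.cast_natCast]
      exact (ZMod.isUnit_iff_coprime _ _).mpr hc.symm
    rw [Ph_apply, if_pos hu, ln, map_sum, sum_filter]
    refine sum_congr rfl fun α hα => ?_
    rw [map_mul, ← Matrix.mulVec_mulVec, ρ.mul _ _ (mem_A.mp hα).2.ne_zero hv'.2.ne_zero]
  rw [e1, s1, ← sum_filter, filter_congr fun δ _ => hβ' δ, mul_comm, s2,
    filter_true_of_mem, sum_congr rfl (g := fun v => ρ.τ β (ρ.τ v η)), ← map_sum, ← T_apply,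
    ← Nat.cast_smul_eq_nsmul ℝ, norm_smul, ρ.norm_τ (Rep.coprime_pow hr hrM hN)]
  · simp
  · intro v hv
    exact ρ.mul _ _ (mem_A.mp hv).2.ne_zero (mem_A.mp hβ).2.ne_zero η
  · intro v hv
    refine (mem_A.mp hv).2.mul_coprime (mem_A.mp hβ).2 ?_
    rw [(mem_A.mp hv).1, hN, Nat.isCoprime_iff_coprime]
    exact hc.symm

theorem pair_count (ho : Odd r) (hr : r.Prime) {k : ℕ} [NeZero (r ^ k)]
    (μ : Model (r ^ k)) {n : ℕ} (hnr : ¬ r ∣ n) (P : Finset (ZMod (r ^ k)))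
    (hP : ∀ d ∈ P, IsNilpotent d) :
    #(((P ×ˢ A n) ×ˢ (P ×ˢ A n)).filter fun p =>
      (1 + p.1.1) • μ.φ p.1.2 = (1 + p.2.1) • μ.φ p.2.2) ≤ #P * N2 n (r ^ k) := by
  have hc : Nat.Coprime n (r ^ k) :=
    (Nat.Coprime.pow_left _ ((Nat.Prime.coprime_iff_not_dvd hr).mpr hnr)).symm
  have hn : IsUnit (n : ZMod (r ^ k)) := (ZMod.isUnit_iff_coprime _ _).mpr hc
  have h2 : IsUnit ((2 : ℕ) : ZMod (r ^ k)) :=
    (ZMod.isUnit_iff_coprime _ _).mpr (Nat.coprime_two_left.mpr ho.pow)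
  have key : ∀ p ∈ ((P ×ˢ A n) ×ˢ (P ×ˢ A n)).filter fun p =>
      (1 + p.1.1) • μ.φ p.1.2 = (1 + p.2.1) • μ.φ p.2.2,
      p.1.1 = p.2.1 ∧ Cg (r ^ k : ℕ) p.1.2 p.2.2 := by
    rintro ⟨⟨d, v⟩, ⟨d', v'⟩⟩ hp
    simp only [mem_filter, mem_product] at hp
    obtain ⟨⟨⟨hd, hv⟩, hd', hv'⟩, e⟩ := hp
    have e1 := congrArg Matrix.det e
    rw [Matrix.det_smul, Matrix.det_smul, μ.det, μ.det, (mem_A.mp hv).1, (mem_A.mp hv').1,
      Int.cast_natCast, hn.mul_left_inj, Fintype.card_fin] at e1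
    have hu : IsUnit (((2 : ℕ) : ZMod (r ^ k)) + (d + d')) :=
      ((Commute.all _ _).isNilpotent_add (hP d hd) (hP d' hd')).isUnit_add_left_of_commute h2
        (Commute.all _ _)
    have e2 : d = d' := by
      have : (((2 : ℕ) : ZMod (r ^ k)) + (d + d')) * (d - d') = 0 := by
        push_cast; linear_combination e1
      exact sub_eq_zero.mp (hu.mul_right_eq_zero.mp this)
    subst e2
    refine ⟨rfl, μ.ker _ ?_⟩
    have hu1 : IsUnit (1 + d) := (hP d hd).isUnit_one_add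
    rw [map_sub, ← hu1.smul_eq_zero, smul_sub]
    exact sub_eq_zero.mpr e
  rw [N2, ← card_product]
  refine card_le_card_of_injOn (fun p => (p.1.1, (p.1.2, p.2.2))) ?_ ?_
  · intro p hp
    have h := key p hp
    simp only [coe_filter, mem_product, Set.mem_ofPred_eq] at hp
    simp only [coe_product, coe_filter, mem_product, Set.mem_prod, mem_coe, Set.mem_ofPred_eq]
    exact ⟨hp.1.1.1, ⟨hp.1.1.2, hp.1.2.2⟩, h.2⟩
  · rintro ⟨⟨d, v⟩, ⟨d', v'⟩⟩ hp ⟨⟨c, w⟩, ⟨c', w'⟩⟩ hq h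
    have h1 := (key _ hp).1
    have h2 := (key _ hq).1
    simp only [Prod.mk.injEq] at h h1 h2 ⊢
    exact ⟨⟨h.1, h.2.1⟩, by rw [← h1, ← h2, h.1], h.2.2⟩

theorem Rep.core [FiniteDimensional ℝ E] (ρ : Rep M E) (hM : Even M) {r : ℕ} (hr : r.Prime)
    (hrM : ¬ r ∣ M) {k : ℕ} (hk : 1 ≤ k) {n : ℕ} (hn : Odd n) (hnr : ¬ r ∣ n) (η : E) :
    ‖ρ.T n η‖ ^ 2 ≤ (Module.finrank ℝ E : ℝ) * ρ.B ^ 2 * (N2 n (r ^ k) : ℝ) *
      (2 * k * (r : ℝ) ^ (2 * k + 2)) * ((∑ l ∈ range k, ‖ρ.T (r ^ l) η‖) * ‖η‖) := by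
  have ho := core_odd hM hr hrM
  have : NeZero (r ^ k) := ⟨pow_ne_zero _ hr.ne_zero⟩
  obtain ⟨μ⟩ := exists_model (r ^ k) ho.pow
  set S := ∑ l ∈ range k, ‖ρ.T (r ^ l) η‖ with hS
  have hS0 : 0 ≤ S := sum_nonneg fun _ _ => norm_nonneg _
  set P := univ.filter fun d : ZMod (r ^ k) => ((r ^ (k - 1) : ℕ) : ZMod (r ^ k)) * d = 0 with hP
  have hnil : ∀ d ∈ P, IsNilpotent d := fun d hd => zm_nil hr hk (mem_filter.mp hd).2
  set K := (2 * k) * (((r : ℝ) ^ k) ^ 4 * (u * ‖η‖ * S)) with hK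
  have hK0 : 0 ≤ K := by positivity
  have row : ∀ t ∈ P, ∑ t' ∈ P, |⟪ρ.Ph μ η t, ρ.Ph μ η t'⟫| ≤ K := by
    intro t ht
    have h1 := ρ.gram_row hM hr hrM μ η (k - 1) (by omega)
    have h2 : ∑ t' ∈ P, |⟪ρ.Ph μ η t, ρ.Ph μ η t'⟫| = ∑ d ∈ P, |⟪ρ.Ph μ η 0, ρ.Ph μ η d⟫| := by
      symm
      refine sum_bij' (fun d _ => t + d) (fun d _ => d - t) ?_ ?_ ?_ ?_ ?_
      · intro d hd
        simp only [hP, mem_filter, mem_univ, true_and] at hd ht ⊢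
        rw [mul_add, hd, ht, add_zero]
      · intro d hd
        simp only [hP, mem_filter, mem_univ, true_and] at hd ht ⊢
        rw [mul_sub, hd, ht, sub_zero]
      · intro d _; simp
      · intro d _; simp
      · intro d _
        have := ρ.gram_shift μ η t d isUnit_one
        rw [one_mul] at this
        rw [this]
    rw [h2]
    refine h1.trans (mul_le_mul_of_nonneg_right ?_ (by positivity))
    rw [Nat.cast_sub hk]; push_cast; linarith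
  let b := stdOrthonormalBasis ℝ E
  let Ψ : Fin (Module.finrank ℝ E) → PiLp 2 fun _ : Matrix (Fin 2) (Fin 2) (ZMod (r ^ k)) => E :=
    fun i => ∑ p ∈ P ×ˢ A n, PiLp.single 2 ((1 + p.1) • μ.φ p.2)
      (ContinuousLinearMap.adjoint (ρ.τ p.2) (b i))
  have hΨ : ∀ i, ‖Ψ i‖ ^ 2 ≤ ρ.B ^ 2 * (#P * N2 n (r ^ k)) := by
    intro i
    have h1 := norm_sum_single (P ×ˢ A n) (fun p => (1 + p.1) • μ.φ p.2)
      (fun p => ContinuousLinearMap.adjoint (ρ.τ p.2) (b i)) (B := |ρ.B|) (by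
        intro p _
        refine (ContinuousLinearMap.le_opNorm _ _).trans ?_
        rw [b.orthonormal.1 i, mul_one, LinearIsometryEquiv.norm_map]
        exact ContinuousLinearMap.opNorm_le_bound _ (abs_nonneg _) fun x =>
          (ρ.bdd _ x).trans (mul_le_mul_of_nonneg_right (le_abs_self _) (norm_nonneg _)))
    rw [sq_abs] at h1
    refine h1.trans (mul_le_mul_of_nonneg_left ?_ (sq_nonneg _))
    exact_mod_cast pair_count ho hr μ hnr P hnil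
  have hin : ∀ i t, ⟪Ψ i, ρ.Ph μ η t⟫ = #P * ⟪b i, ∑ v ∈ A n, ρ.τ v (ρ.Ph μ η t (μ.φ v))⟫ := by
    intro i t
    simp only [Ψ]
    rw [inner_sum_single, sum_product, inner_sum, ← nsmul_eq_mul, ← sum_const]
    refine sum_congr rfl fun d hd => sum_congr rfl fun v _ => ?_
    rw [ρ.Ph_smul μ η t _ (hnil d hd).isUnit_one_add, ContinuousLinearMap.adjoint_inner_left]
  have main : (#P : ℝ) * ((#P : ℝ) ^ 2 * (u * ‖ρ.T n η‖) ^ 2) ≤
      Module.finrank ℝ E * (K * (ρ.B ^ 2 * (#P * N2 n (r ^ k)))) := by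
    calc (#P : ℝ) * ((#P : ℝ) ^ 2 * (u * ‖ρ.T n η‖) ^ 2)
        = ∑ t ∈ P, ∑ i, ⟪Ψ i, ρ.Ph μ η t⟫ ^ 2 := by
          rw [← nsmul_eq_mul, ← sum_const]
          refine sum_congr rfl fun t _ => ?_
          simp_rw [hin, mul_pow]
          rw [← mul_sum, b.sum_sq_inner_right, ρ.exchange hM hr hrM μ hn hnr η t, mul_pow]
      _ = ∑ i, ∑ t ∈ P, ⟪Ψ i, ρ.Ph μ η t⟫ ^ 2 := sum_comm
      _ ≤ ∑ _i : Fin (Module.finrank ℝ E), K * (ρ.B ^ 2 * (#P * N2 n (r ^ k))) :=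
          sum_le_sum fun i _ => (bessel P _ _ hK0 row).trans
            (mul_le_mul_of_nonneg_left (hΨ i) hK0)
      _ = _ := by simp
  have hc : (r : ℝ) ^ (k - 1) ≤ #P := by exact_mod_cast zm_card hr hk
  have hr0 : (0 : ℝ) < r := by exact_mod_cast hr.pos
  have hP0 : (0 : ℝ) < #P := lt_of_lt_of_le (by positivity) hc
  have hu : (1 : ℝ) ≤ u := by exact_mod_cast u_pos
  set Y := (Module.finrank ℝ E : ℝ) * ρ.B ^ 2 * (N2 n (r ^ k) : ℝ) *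
      (2 * k * (r : ℝ) ^ (2 * k + 2)) * (S * ‖η‖) with hY
  have hY0 : 0 ≤ Y := by positivity
  have e : ((r : ℝ) ^ k) ^ 4 = ((r : ℝ) ^ (k - 1)) ^ 2 * (r : ℝ) ^ (2 * k + 2) := by
    rw [← pow_mul, ← pow_mul, ← pow_add]; congr 1; omega
  have m2 : (#P : ℝ) * ((#P : ℝ) ^ 2 * (u * ‖ρ.T n η‖) ^ 2) ≤
      #P * (((r : ℝ) ^ (k - 1)) ^ 2 * (u * Y)) := by
    refine main.trans (le_of_eq ?_)
    rw [hK, hY, e]; ring
  have m3 := le_of_mul_le_mul_left m2 hP0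
  have m4 : ((r : ℝ) ^ (k - 1)) ^ 2 * (u * Y) ≤ (#P : ℝ) ^ 2 * (u * Y) := by gcongr
  have m5 := le_of_mul_le_mul_left (m3.trans m4) (by positivity)
  have m6 : (u : ℝ) * (u * ‖ρ.T n η‖ ^ 2) ≤ u * Y := by linarith [m5]
  have m7 := le_of_mul_le_mul_left m6 (by positivity)
  nlinarith [sq_nonneg ‖ρ.T n η‖]

end Pool.Agent.Lib.MP_f6c7cf_nt.E
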