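import Pool.Agent.Lib.MP_f6c7cf_nt.E.Ideal

/-! Counting congruent pairs. -/

namespace Pool.Agent.Lib.MP_f6c7cf_nt.E

open Finset
open scoped Quaternion RealInnerProductSpace Classical Matrix

namespace Cnt

theorem sq_fib (F : Finset ℤ) (c : ℤ) (h : ∀ v ∈ F, v ^ 2 = c) : #F ≤ 2 := by
  rcases F.eq_empty_or_nonempty with rfl | ⟨v, hv⟩
  · simp
  · have : F ⊆ {v, -v} := by
      intro w hw
      have e : w ^ 2 = v ^ 2 := by rw [h w hw, h v hv]
      simpa using sq_eq_sq_iff_eq_or_eq_neg.1 e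
    exact (card_le_card this).trans card_le_two

theorem card_sym (L : ℕ) : #(Icc (-(L : ℤ)) L) = 2 * L + 1 := by
  rw [Int.card_Icc]; omega

theorem near (y : ℕ) (hy : 0 < y) (a b : ℤ) (hab : a ^ 2 + b ^ 2 = y) (F : Finset (ℤ × ℤ))
    (h : ∀ p ∈ F, p.1 ^ 2 + p.2 ^ 2 = y ∧ (y : ℤ) ∣ 2 * (a * p.2 - p.1 * b)) : #F ≤ 10 := by
  have hy' : (0 : ℤ) < y := by exact_mod_cast hy
  have hm : ∀ p ∈ F, 2 * (a * p.2 - p.1 * b) / y ∈ Icc (-((2 : ℕ) : ℤ)) ((2 : ℕ) : ℤ) := by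
    intro p hp
    obtain ⟨h1, j, hj⟩ := h p hp
    rw [hj, Int.mul_ediv_cancel_left _ hy'.ne', mem_Icc]
    have e : (a * p.1 + b * p.2) ^ 2 + (a * p.2 - p.1 * b) ^ 2 = y * y := by
      nth_rewrite 1 [← hab]; rw [← h1]; ring
    have e2 : (y : ℤ) ^ 2 * j ^ 2 ≤ (y : ℤ) ^ 2 * 2 ^ 2 := by
      have : (y : ℤ) ^ 2 * j ^ 2 = 4 * (a * p.2 - p.1 * b) ^ 2 := by
        rw [← mul_pow, ← hj]; ring
      nlinarith [sq_nonneg (a * p.1 + b * p.2)]
    have e3 : j ^ 2 ≤ 2 ^ 2 := le_of_mul_le_mul_left e2 (by positivity)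
    have := abs_le_of_sq_le_sq' e3 (by norm_num)
    simpa using this
  have := card_le_mul_card_image_of_maps_to hm 2 fun j _ => by
    rw [← card_image_of_injOn (f := fun p : ℤ × ℤ => a * p.1 + b * p.2)]
    · refine sq_fib _ ((y : ℤ) * y - (y * j / 2) ^ 2) fun v hv => ?_
      obtain ⟨p, hp, rfl⟩ := mem_image.1 hv
      obtain ⟨hp, hj⟩ := mem_filter.1 hp
      obtain ⟨h1, h2⟩ := h p hp
      have e : (a * p.1 + b * p.2) ^ 2 + (a * p.2 - p.1 * b) ^ 2 = y * y := by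
        nth_rewrite 1 [← hab]; rw [← h1]; ring
      have e2 : (y : ℤ) * j = 2 * (a * p.2 - p.1 * b) := by
        rw [← hj]; exact Int.mul_ediv_cancel' h2
      rw [e2, Int.mul_ediv_cancel_left _ (by norm_num)]
      linarith
    · intro p hp q hq e
      obtain ⟨hp, hj⟩ := mem_filter.1 (mem_coe.1 hp)
      obtain ⟨hq, hj'⟩ := mem_filter.1 (mem_coe.1 hq)
      have e2 : (y : ℤ) * j = 2 * (a * p.2 - p.1 * b) := by
        rw [← hj]; exact Int.mul_ediv_cancel' (h p hp).2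
      have e3 : (y : ℤ) * j = 2 * (a * q.2 - q.1 * b) := by
        rw [← hj']; exact Int.mul_ediv_cancel' (h q hq).2
      have e4 : a * p.2 - p.1 * b = a * q.2 - q.1 * b := by linarith
      have e' : a * p.1 + b * p.2 = a * q.1 + b * q.2 := e
      refine Prod.ext (mul_left_cancel₀ hy'.ne' ?_) (mul_left_cancel₀ hy'.ne' ?_)
      · rw [← hab]; linear_combination a * e' - b * e4
      · rw [← hab]; linear_combination b * e' + a * e4
  rw [card_sym] at this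
  exact this

theorem co_dvd (y : ℕ) (hy : 0 < y) (D S : ℤ) (h : (y : ℤ) ∣ D * S) (k : ℤ)
    (hk : (y : ℤ) = k * (Int.gcd D y : ℤ)) : k ∣ S := by
  have hg : 0 < Int.gcd D y := Int.gcd_pos_of_ne_zero_right _ (by exact_mod_cast hy.ne')
  obtain ⟨D1, k1, hc, hD, hy1⟩ := Int.exists_gcd_one hg
  have hg' : (Int.gcd D y : ℤ) ≠ 0 := by exact_mod_cast hg.ne'
  have e : k1 = k := mul_right_cancel₀ hg' (hy1.symm.trans hk)
  subst e
  have h2 : k1 * (Int.gcd D y : ℤ) ∣ (D1 * S) * (Int.gcd D y : ℤ) := by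
    rw [← hy1, mul_right_comm, ← hD]; exact h
  have h3 : k1 ∣ D1 * S := (mul_dvd_mul_iff_right hg').1 h2
  exact (Int.isCoprime_iff_gcd_eq_one.2 hc).symm.dvd_of_dvd_mul_left h3

theorem prim2 (y : ℕ) (hy : 0 < y) (F : Finset (ℤ × ℤ))
    (h : ∀ p ∈ F, p.1 ^ 2 + p.2 ^ 2 = y ∧ IsCoprime p.1 p.2) : #F ≤ 10 * #y.divisors := by
  rcases F.eq_empty_or_nonempty with rfl | ⟨⟨a0, b0⟩, h0⟩
  · simp
  obtain ⟨e0, c0⟩ := h _ h0
  simp only at e0 c0
  have ca : IsCoprime (y : ℤ) a0 := by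
    rw [← e0]
    have := (c0.symm.pow_left (m := 2)).add_mul_left_left a0
    rwa [show b0 ^ 2 + a0 * a0 = a0 ^ 2 + b0 ^ 2 by ring] at this
  have cb : IsCoprime (y : ℤ) b0 := by
    rw [← e0]
    have := (c0.pow_left (m := 2)).add_mul_left_left b0
    rwa [show a0 ^ 2 + b0 * b0 = a0 ^ 2 + b0 ^ 2 by ring] at this
  refine card_le_mul_card_image_of_maps_to
    (f := fun p : ℤ × ℤ => Int.gcd (p.1 * b0 - p.2 * a0) y) (fun p _ => ?_) 10 fun g hg => ?_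
  · rw [Nat.mem_divisors]
    exact ⟨by exact_mod_cast Int.gcd_dvd_right (p.1 * b0 - p.2 * a0) y, hy.ne'⟩
  rcases (F.filter fun p : ℤ × ℤ => Int.gcd (p.1 * b0 - p.2 * a0) y = g).eq_empty_or_nonempty
    with h1 | ⟨q, hq⟩
  · rw [h1]; simp
  obtain ⟨k, hk⟩ : (g : ℤ) ∣ y := by exact_mod_cast Nat.dvd_of_mem_divisors hg
  have key : ∀ p ∈ F.filter fun p : ℤ × ℤ => Int.gcd (p.1 * b0 - p.2 * a0) y = g,
      (g : ℤ) ∣ p.1 * b0 - p.2 * a0 ∧ k ∣ p.1 * b0 + p.2 * a0 := by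
    intro p hp
    obtain ⟨hp, e⟩ := mem_filter.1 hp
    refine ⟨by rw [← e]; exact Int.gcd_dvd_left _ _, co_dvd y hy (p.1 * b0 - p.2 * a0) _ ?_ k ?_⟩
    · exact ⟨b0 ^ 2 - p.2 ^ 2, by linear_combination b0 ^ 2 * (h p hp).1 - p.2 ^ 2 * e0⟩
    · rw [e, hk, mul_comm]
  refine near y hy q.1 q.2 (h q (mem_filter.1 hq).1).1 _ fun p hp =>
    ⟨(h p (mem_filter.1 hp).1).1, ?_⟩
  obtain ⟨h1, h2⟩ := key p hp
  obtain ⟨h3, h4⟩ := key q hq
  have h5 : (y : ℤ) ∣ a0 * (b0 * (2 * (q.1 * p.2 - p.1 * q.2))) := by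
    have := dvd_sub (mul_dvd_mul h3 h2) (mul_dvd_mul h1 h4)
    rw [← hk] at this
    rwa [show (q.1 * b0 - q.2 * a0) * (p.1 * b0 + p.2 * a0) -
      (p.1 * b0 - p.2 * a0) * (q.1 * b0 + q.2 * a0) =
      a0 * (b0 * (2 * (q.1 * p.2 - p.1 * q.2))) by ring] at this
  exact cb.dvd_of_dvd_mul_left (ca.dvd_of_dvd_mul_left h5)

theorem r2 {X T : ℕ} (hT1 : 1 ≤ T) (hT : ∀ k ≤ X, #k.divisors ≤ T) (x : ℤ) (hx : x ≤ X)
    (F : Finset (ℤ × ℤ)) (h : ∀ p ∈ F, p.1 ^ 2 + p.2 ^ 2 = x) : #F ≤ 10 * T ^ 2 := by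
  rcases F.eq_empty_or_nonempty with rfl | ⟨p0, h0⟩
  · simp
  have hx0 : 0 ≤ x := by rw [← h p0 h0]; positivity
  lift x to ℕ using hx0
  have hx' : x ≤ X := by exact_mod_cast hx
  rcases Nat.eq_zero_or_pos x with rfl | hpos
  · have : F ⊆ {(0, 0)} := by
      intro p hp
      have e := h p hp
      have h1 : p.1 = 0 := by push_cast at e; nlinarith [sq_nonneg p.1, sq_nonneg p.2]
      have h2 : p.2 = 0 := by push_cast at e; nlinarith [sq_nonneg p.1, sq_nonneg p.2]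
      simp [Prod.ext_iff, h1, h2]
    have h3 := card_le_card this
    rw [card_singleton] at h3
    nlinarith
  have hgx : ∀ p ∈ F, (Int.gcd p.1 p.2 : ℤ) ^ 2 ∣ x := by
    intro p hp
    rw [← h p hp]
    exact dvd_add (pow_dvd_pow_of_dvd (Int.gcd_dvd_left _ _) 2)
      (pow_dvd_pow_of_dvd (Int.gcd_dvd_right _ _) 2)
  have := card_le_mul_card_image_of_maps_to (s := F) (t := x.divisors)
    (f := fun p : ℤ × ℤ => Int.gcd p.1 p.2) (fun p hp => by
      rw [Nat.mem_divisors]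
      refine ⟨?_, hpos.ne'⟩
      have := (dvd_pow_self _ two_ne_zero).trans (hgx p hp)
      exact_mod_cast this) (10 * T) fun g hg => by
    have hg0 : 0 < g := Nat.pos_of_mem_divisors hg
    have hg' : (g : ℤ) ≠ 0 := by exact_mod_cast hg0.ne'
    rcases (F.filter fun p : ℤ × ℤ => Int.gcd p.1 p.2 = g).eq_empty_or_nonempty
      with h1 | ⟨q, hq⟩
    · rw [h1]; simp
    obtain ⟨y, hy⟩ : g ^ 2 ∣ x := by
      have := hgx q (mem_filter.1 hq).1
      rw [(mem_filter.1 hq).2] at this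
      exact_mod_cast this
    have hy0 : 0 < y := by
      rcases Nat.eq_zero_or_pos y with rfl | h
      · omega
      · exact h
    have hyx : y ≤ x := by
      rw [hy]; exact Nat.le_mul_of_pos_left _ (by positivity)
    have key : ∀ p ∈ F.filter fun p : ℤ × ℤ => Int.gcd p.1 p.2 = g, ∃ a b : ℤ,
        IsCoprime a b ∧ p.1 = a * g ∧ p.2 = b * g := by
      intro p hp
      have e := (mem_filter.1 hp).2
      obtain ⟨a, b, hc, ha, hb⟩ := Int.exists_gcd_one (m := p.1) (n := p.2) (by rw [e]; exact hg0)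
      rw [e] at ha hb
      exact ⟨a, b, Int.isCoprime_iff_gcd_eq_one.2 hc, ha, hb⟩
    rw [← card_image_of_injOn (f := fun p : ℤ × ℤ => (p.1 / g, p.2 / g))]
    · refine (prim2 y hy0 _ fun v hv => ?_).trans
        (Nat.mul_le_mul_left _ (hT y (hyx.trans hx')))
      obtain ⟨p, hp, rfl⟩ := mem_image.1 hv
      obtain ⟨a, b, hc, ha, hb⟩ := key p hp
      have e := h p (mem_filter.1 hp).1
      simp only [ha, hb, Int.mul_ediv_cancel _ hg']
      refine ⟨mul_left_cancel₀ (pow_ne_zero 2 hg') ?_, hc⟩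
      rw [ha, hb, hy] at e
      push_cast at e
      linear_combination e
    · intro p hp q hq e
      obtain ⟨a, b, -, ha, hb⟩ := key p (mem_coe.1 hp)
      obtain ⟨a', b', -, ha', hb'⟩ := key q (mem_coe.1 hq)
      simp only [ha, hb, ha', hb', Int.mul_ediv_cancel _ hg', Prod.mk.injEq] at e
      exact Prod.ext (by rw [ha, ha', e.1]) (by rw [hb, hb', e.2])
  calc #F ≤ 10 * T * #x.divisors := this
    _ ≤ 10 * T * T := Nat.mul_le_mul_left _ (hT x hx')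
    _ = 10 * T ^ 2 := by ring

theorem N_eq (v : O) : N v = v.re ^ 2 + v.imI ^ 2 + v.imJ ^ 2 + v.imK ^ 2 :=
  Quaternion.normSq_def' v

theorem N_zero : N 0 = 0 := by simp [N_eq]

theorem r4 {X T : ℕ} (hT1 : 1 ≤ T) (hT : ∀ k ≤ X, #k.divisors ≤ T) {c : ℕ} (hc : 0 < c)
    (hX : c ≤ X) : #(R4 c) ≤ 10 * T ^ 2 * (9 * c) := by
  have hb : ∀ t : ℤ, t ^ 2 ≤ c → t ∈ Icc (-(c.sqrt : ℤ)) c.sqrt := by
    intro t ht
    have h1 : t.natAbs ≤ c.sqrt := by
      rw [Nat.le_sqrt']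
      have : ((t.natAbs ^ 2 : ℕ) : ℤ) ≤ c := by push_cast; rwa [sq_abs]
      exact_mod_cast this
    rw [mem_Icc]; omega
  have := card_le_mul_card_image_of_maps_to (s := R4 c)
    (t := Icc (-(c.sqrt : ℤ)) c.sqrt ×ˢ Icc (-(c.sqrt : ℤ)) c.sqrt)
    (f := fun v : O => (v.re, v.imI)) (fun v hv => by
      have e := mem_R4.1 hv
      rw [N_eq] at e
      refine mem_product.2 ⟨hb _ ?_, hb _ ?_⟩ <;>
        nlinarith [sq_nonneg v.re, sq_nonneg v.imI, sq_nonneg v.imJ, sq_nonneg v.imK])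
    (10 * T ^ 2) fun b _ => by
    rw [← card_image_of_injOn (f := fun v : O => (v.imJ, v.imK))]
    · refine r2 hT1 hT (c - b.1 ^ 2 - b.2 ^ 2) ?_ _ fun p hp => ?_
      · have : (c : ℤ) ≤ X := by exact_mod_cast hX
        nlinarith [sq_nonneg b.1, sq_nonneg b.2]
      · obtain ⟨v, hv, rfl⟩ := mem_image.1 hp
        obtain ⟨hv2, hb⟩ := mem_filter.1 hv
        have e := mem_R4.1 hv2
        rw [N_eq] at e
        rw [← hb]
        simp only
        linarith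
    · intro v hv w hw e
      have h1 := (mem_filter.1 (mem_coe.1 hv)).2
      have h2 := (mem_filter.1 (mem_coe.1 hw)).2
      rw [← h2, Prod.mk.injEq] at h1
      simp only [Prod.mk.injEq] at e
      exact Quaternion.ext _ _ h1.1 h1.2 e.1 e.2
  rw [card_product, card_sym] at this
  refine this.trans (Nat.mul_le_mul_left _ ?_)
  have h1 : 1 ≤ c.sqrt := Nat.sqrt_pos.2 hc
  have h2 := Nat.sqrt_le c
  nlinarith

theorem shape {m R : ℕ} (hm : 0 < m) (hR : Odd R) (hc : Nat.Coprime m R) {g : O}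
    (hN : N g = (m : ℤ) ^ 2) (hg : Cg R g ((m : ℤ) • (1 : O))) (hne : g ≠ (m : ℤ) • (1 : O)) :
    ∃ s a b c : ℤ, g = ⟨m - R ^ 2 * s, R * a, R * b, R * c⟩ ∧ 1 ≤ s ∧ (R : ℤ) ^ 2 * s ≤ 2 * m ∧
      a ^ 2 + b ^ 2 + c ^ 2 = s * (2 * m - R ^ 2 * s) := by
  obtain ⟨w, hw⟩ := hg
  have hR0 : (0 : ℤ) < R := by exact_mod_cast hR.pos
  have hm0 : (0 : ℤ) < m := by exact_mod_cast hm
  have h0 : g.re - m = R * w.re := by simpa using congrArg (fun v : O => v.re) hw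
  have h1 : g.imI = R * w.imI := by simpa using congrArg (fun v : O => v.imI) hw
  have h2 : g.imJ = R * w.imJ := by simpa using congrArg (fun v : O => v.imJ) hw
  have h3 : g.imK = R * w.imK := by simpa using congrArg (fun v : O => v.imK) hw
  have h0' : g.re = m + R * w.re := by linarith
  rw [N_eq, h0', h1, h2, h3] at hN
  have e : 2 * m * w.re + R * (w.re ^ 2 + w.imI ^ 2 + w.imJ ^ 2 + w.imK ^ 2) = 0 :=
    mul_left_cancel₀ hR0.ne' (by linear_combination hN)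
  have hco : IsCoprime (R : ℤ) (2 * m) := by
    have : Nat.Coprime R (2 * m) :=
      Nat.Coprime.mul_right ((Nat.coprime_two_right).2 hR) hc.symm
    exact_mod_cast Nat.isCoprime_iff_coprime.2 this
  obtain ⟨t, ht⟩ : (R : ℤ) ∣ w.re := hco.dvd_of_dvd_mul_left
    ⟨-(w.re ^ 2 + w.imI ^ 2 + w.imJ ^ 2 + w.imK ^ 2), by linear_combination e⟩
  rw [ht] at e
  have e2 : w.imI ^ 2 + w.imJ ^ 2 + w.imK ^ 2 = (-t) * (2 * m - R ^ 2 * (-t)) :=
    mul_left_cancel₀ hR0.ne' (by linear_combination e)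
  have hg' : g = ⟨m - R ^ 2 * (-t), R * w.imI, R * w.imJ, R * w.imK⟩ :=
    Quaternion.ext _ _ (by rw [h0', ht]; ring) h1 h2 h3
  have hs0 : 0 ≤ -t := by
    by_contra hh
    have : 0 < t := by omega
    nlinarith [sq_nonneg w.imI, sq_nonneg w.imJ, sq_nonneg w.imK, sq_nonneg (R * t),
      mul_pos hm0 this]
  have hs1 : 1 ≤ -t := by
    by_contra hh
    have ht0 : t = 0 := by omega
    rw [ht0] at e2 hg'
    have a1 : w.imI = 0 := by nlinarith [sq_nonneg w.imI, sq_nonneg w.imJ, sq_nonneg w.imK]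
    have a2 : w.imJ = 0 := by nlinarith [sq_nonneg w.imI, sq_nonneg w.imJ, sq_nonneg w.imK]
    have a3 : w.imK = 0 := by nlinarith [sq_nonneg w.imI, sq_nonneg w.imJ, sq_nonneg w.imK]
    apply hne
    rw [hg', a1, a2, a3]
    ext <;> simp
  refine ⟨-t, w.imI, w.imJ, w.imK, hg', hs1, ?_, e2⟩
  by_contra hh
  have : (-t) * (2 * m - R ^ 2 * (-t)) < 0 := mul_neg_of_pos_of_neg (by omega) (by omega)
  nlinarith [sq_nonneg w.imI, sq_nonneg w.imJ, sq_nonneg w.imK]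

theorem cong_count {X T : ℕ} (hT1 : 1 ≤ T) (hT : ∀ k ≤ X, #k.divisors ≤ T) {m R : ℕ} (hm : 0 < m)
    (hX : m ^ 2 ≤ X) (hR : Odd R) (hc : Nat.Coprime m R) (F : Finset O)
    (h : ∀ g ∈ F, N g = (m : ℤ) ^ 2 ∧ Cg R g ((m : ℤ) • (1 : O))) :
    #F * R ^ 3 ≤ R ^ 3 + 8 * m ^ 2 * (10 * T ^ 2) := by
  have hR0 : (0 : ℤ) < R := by exact_mod_cast hR.pos
  have key : ∀ g ∈ F.erase ((m : ℤ) • (1 : O)), ∃ s a b c : ℤ,
      g = ⟨m - R ^ 2 * s, R * a, R * b, R * c⟩ ∧ 1 ≤ s ∧ (R : ℤ) ^ 2 * s ≤ 2 * m ∧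
      a ^ 2 + b ^ 2 + c ^ 2 = s * (2 * m - R ^ 2 * s) := fun g hg =>
    shape hm hR hc (h g (mem_of_mem_erase hg)).1 (h g (mem_of_mem_erase hg)).2 (ne_of_mem_erase hg)
  choose! s a b c hg hs1 hs2 he using key
  have am : ∀ t : ℤ, (R : ℤ) ^ 2 * (t * (2 * m - R ^ 2 * t)) ≤ (m : ℤ) ^ 2 := fun t => by
    nlinarith [sq_nonneg ((m : ℤ) - R ^ 2 * t)]
  have h1 := card_le_mul_card_image_of_maps_to (s := F.erase ((m : ℤ) • (1 : O)))
    (t := Icc (1 : ℤ) ((2 * m / R ^ 2 : ℕ) : ℤ) ×ˢ Icc (-((m / R : ℕ) : ℤ)) ((m / R : ℕ) : ℤ))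
    (f := fun g : O => (s g, a g)) (fun g hg' => by
      refine mem_product.2 ⟨mem_Icc.2 ⟨hs1 g hg', ?_⟩, ?_⟩
      · push_cast
        exact Int.le_ediv_of_mul_le (by positivity) (by linarith [hs2 g hg'])
      · have h2 : ((R : ℤ) * |a g|) ^ 2 ≤ (m : ℤ) ^ 2 := by
          have := am (s g)
          rw [← he g hg'] at this
          rw [mul_pow, sq_abs]
          nlinarith [sq_nonneg (R * b g), sq_nonneg (R * c g)]
        have h3 : (R : ℤ) * |a g| ≤ m := (abs_le_of_sq_le_sq' h2 (by positivity)).2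
        have h4 : |a g| ≤ ((m / R : ℕ) : ℤ) := by
          push_cast
          exact Int.le_ediv_of_mul_le hR0 (by linarith)
        exact mem_Icc.2 (abs_le.1 h4))
    (10 * T ^ 2) fun q _ => by
    rw [← card_image_of_injOn (f := fun g : O => (b g, c g))]
    · refine r2 hT1 hT (q.1 * (2 * m - R ^ 2 * q.1) - q.2 ^ 2) ?_ _ fun p hp => ?_
      · have h2 : ((m : ℤ)) ^ 2 ≤ X := by exact_mod_cast hX
        have h3 := am q.1
        have h4 : (1 : ℤ) ≤ (R : ℤ) ^ 2 := by nlinarith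
        by_cases h5 : 0 ≤ q.1 * (2 * m - R ^ 2 * q.1)
        · nlinarith [sq_nonneg q.2]
        · nlinarith [sq_nonneg q.2, sq_nonneg (m : ℤ)]
      · obtain ⟨g, hg', rfl⟩ := mem_image.1 hp
        obtain ⟨hg2, hb⟩ := mem_filter.1 hg'
        rw [← hb]
        simp only
        linarith [he g hg2]
    · intro v hv w hw e
      obtain ⟨hv, h1⟩ := mem_filter.1 (mem_coe.1 hv)
      obtain ⟨hw, h2⟩ := mem_filter.1 (mem_coe.1 hw)
      rw [← h2, Prod.mk.injEq] at h1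
      simp only [Prod.mk.injEq] at e
      rw [hg v hv, hg w hw, h1.1, h1.2, e.1, e.2]
  rw [card_product, card_sym, Int.card_Icc] at h1
  have h2 : (((2 * m / R ^ 2 : ℕ) : ℤ) + 1 - 1).toNat = 2 * m / R ^ 2 := by
    rw [add_sub_cancel_right, Int.toNat_natCast]
  rw [h2] at h1
  have h3 : #F ≤ #(F.erase ((m : ℤ) • (1 : O))) + 1 := by
    have := pred_card_le_card_erase (s := F) (a := (m : ℤ) • (1 : O))
    omega
  have h4 : 2 * m / R ^ 2 * (2 * (m / R) + 1) * R ^ 3 ≤ 8 * m ^ 2 := by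
    rcases Nat.eq_zero_or_pos (2 * m / R ^ 2) with h0 | h0
    · rw [h0]; simp
    have h5 : 2 * m / R ^ 2 * R ^ 2 ≤ 2 * m := Nat.div_mul_le_self _ _
    have h6 : m / R * R ≤ m := Nat.div_mul_le_self _ _
    have h7 : R ≤ 2 * m := by nlinarith [hR.pos]
    calc 2 * m / R ^ 2 * (2 * (m / R) + 1) * R ^ 3
        = (2 * m / R ^ 2 * R ^ 2) * (2 * (m / R * R) + R) := by ring
      _ ≤ (2 * m) * (2 * m + 2 * m) := Nat.mul_le_mul h5 (by omega)
      _ = 8 * m ^ 2 := by ring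
  calc #F * R ^ 3 ≤ (10 * T ^ 2 * (2 * m / R ^ 2 * (2 * (m / R) + 1)) + 1) * R ^ 3 :=
        Nat.mul_le_mul_right _ (by omega)
    _ = R ^ 3 + 2 * m / R ^ 2 * (2 * (m / R) + 1) * R ^ 3 * (10 * T ^ 2) := by ring
    _ ≤ R ^ 3 + 8 * m ^ 2 * (10 * T ^ 2) := by gcongr

theorem cg_cancel {c R : ℤ} (h : IsCoprime R c) {v w : O} (e : c • v = R • w) :
    ∃ x : O, v = R • x := by
  obtain ⟨p, q, hpq⟩ := h
  refine ⟨p • v + q • w, ?_⟩
  calc v = (p * R + q * c) • v := by rw [hpq, one_smul]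
    _ = R • (p • v + q • w) := by
      rw [add_smul, mul_smul q, e, smul_add, smul_comm q R, mul_comm, mul_smul]

theorem pair {n R : ℕ} (hn : Odd n) (hc : Nat.Coprime n R) {v v' : O} (hv : N v = n)
    (hv' : N v' = n) (h : Cg R v v') : ∃ c ∈ n.divisors, ∃ g : O, Prim g ∧
      star v * v' = (c : ℤ) • g ∧ N g = ((n / c : ℕ) : ℤ) ^ 2 ∧
        Cg R g (((n / c : ℕ) : ℤ) • (1 : O)) := by
  have hn0 : (0 : ℤ) < n := by exact_mod_cast hn.pos
  have hN : N (star v * v') = (n : ℤ) ^ 2 := by rw [N_mul, N_star, hv, hv', sq]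
  have hne : star v * v' ≠ 0 := by
    intro h0
    rw [h0, N_zero] at hN
    exact (pow_pos hn0 2).ne hN
  obtain ⟨c, hc0, g, hg, e⟩ := exists_content hne
  rw [e, N_smul] at hN
  have hcn : c ∣ n := by
    have : (c : ℤ) ^ 2 ∣ (n : ℤ) ^ 2 := ⟨_, hN.symm⟩
    exact_mod_cast (Int.pow_dvd_pow_iff two_ne_zero).1 this
  obtain ⟨m, rfl⟩ := hcn
  have hc0' : (c : ℤ) ≠ 0 := by exact_mod_cast hc0.ne'
  refine ⟨c, Nat.mem_divisors.2 ⟨Dvd.intro _ rfl, hn.pos.ne'⟩, g, hg, e, ?_, ?_⟩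
  · rw [Nat.mul_div_cancel_left _ hc0]
    refine mul_left_cancel₀ (pow_ne_zero 2 hc0') ?_
    rw [hN]; push_cast; ring
  · rw [Nat.mul_div_cancel_left _ hc0]
    obtain ⟨x, hx⟩ := h
    refine cg_cancel (c := c) (w := -(star v * x)) ?_ ?_
    · exact_mod_cast Nat.isCoprime_iff_coprime.2 (Nat.Coprime.coprime_mul_right hc).symm
    · have e2 : v' = v - (R : ℤ) • x := by rw [← hx]; simp
      rw [smul_sub, ← e, e2, mul_sub, star_mul_self', hv, smul_smul, mul_smul_comm]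
      push_cast
      rw [smul_neg]
      abel

theorem fibre {c m : ℕ} (hn : Odd (c * m)) {g : O} (hg : Prim g) (hN : N g = (m : ℤ) ^ 2)
    (F : Finset (O × O))
    (h : ∀ p ∈ F, N p.1 = (c * m : ℕ) ∧ star p.1 * p.2 = (c : ℤ) • g) : #F ≤ #(R4 c) := by
  have hm : Odd m := (Nat.odd_mul.1 hn).2
  have hc0 : (c : ℤ) ≠ 0 := by exact_mod_cast (Nat.odd_mul.1 hn).1.pos.ne'
  have hm0 : (m : ℤ) ≠ 0 := by exact_mod_cast hm.pos.ne'
  obtain ⟨a, b, ha, e⟩ := exists_left_factor hg hm (by rw [hN]; exact dvd_pow_self _ two_ne_zero)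
  refine le_trans ?_ (card_image_le (f := fun y => y * star a))
  refine card_le_card_of_injOn (fun p => p.1) (fun p hp => ?_) fun p hp q hq e' => ?_
  · obtain ⟨h1, h2⟩ := h p (mem_coe.1 hp)
    have h3 : p.1 * (a * b) = (m : ℤ) • p.2 := by
      refine smul_right_injective O hc0 ?_
      simp only
      rw [← e, ← mul_smul_comm, ← h2, ← mul_assoc, mul_star_self', h1, smul_mul_assoc, one_mul,
        smul_smul]
      push_cast; rfl
    obtain ⟨y, hy⟩ := jlemma (e ▸ hg) hm ha h3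
    refine mem_coe.2 (mem_image.2 ⟨y, mem_R4.2 ?_, hy.symm⟩)
    rw [hy, N_mul, N_star, ha] at h1
    push_cast at h1
    exact mul_right_cancel₀ hm0 h1
  · obtain ⟨h1, h2⟩ := h p (mem_coe.1 hp)
    obtain ⟨-, h3⟩ := h q (mem_coe.1 hq)
    have e'' : p.1 = q.1 := e'
    have hne : star p.1 ≠ 0 := by
      intro h0
      rw [← N_star, h0, N_zero] at h1
      exact hn.pos.ne (by exact_mod_cast h1)
    refine Prod.ext e'' (mul_left_cancel₀ hne ?_)
    rw [h2, e'', h3]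

end Cnt

open Cnt

theorem N2_le : ∃ C : ℕ, ∀ n R T : ℕ, Odd n → Odd R → Nat.Coprime n R →
    (∀ k ≤ n ^ 2, #k.divisors ≤ T) → N2 n R * R ^ 3 ≤ C * T ^ 5 * (n * R ^ 3 + n ^ 2) := by
  refine ⟨7200, fun n R T hn hR hc hT => ?_⟩
  have hn0 := hn.pos
  have hnn : n ≤ n ^ 2 := Nat.le_self_pow two_ne_zero n
  have hT1 : 1 ≤ T := by simpa using hT 1 (by omega)
  unfold N2
  generalize hP : ((A n ×ˢ A n).filter fun p => Cg R p.1 p.2) = P
  have hmem : ∀ p ∈ P, N p.1 = n ∧ N p.2 = n ∧ Cg R p.1 p.2 := by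
    intro p hp
    rw [← hP, mem_filter, mem_product, mem_A, mem_A] at hp
    exact ⟨hp.1.1.1, hp.1.2.1, hp.2⟩
  have key : ∀ p ∈ P, ∃ c ∈ n.divisors, ∃ g : O, Prim g ∧
      star p.1 * p.2 = (c : ℤ) • g ∧ N g = ((n / c : ℕ) : ℤ) ^ 2 ∧
        Cg R g (((n / c : ℕ) : ℤ) • (1 : O)) := fun p hp =>
    pair hn hc (hmem p hp).1 (hmem p hp).2.1 (hmem p hp).2.2
  choose! c hcd g hg he hN hC using key
  rw [card_eq_sum_card_fiberwise (f := c) (t := n.divisors) (fun p hp => hcd p hp), Finset.sum_mul]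
  have bound : ∀ d ∈ n.divisors, #{p ∈ P | c p = d} * R ^ 3 ≤
      7200 * T ^ 4 * (n * R ^ 3 + n ^ 2) := by
    intro d hd
    obtain ⟨m, rfl⟩ := Nat.dvd_of_mem_divisors hd
    have hd0 : 0 < d := Nat.pos_of_mem_divisors hd
    have hm0 : 0 < m := (Nat.odd_mul.1 hn).2.pos
    have hdiv : d * m / d = m := Nat.mul_div_cancel_left _ hd0
    have hdn : d ≤ d * m := Nat.le_mul_of_pos_right _ hm0
    have hmn : m ≤ d * m := Nat.le_mul_of_pos_left _ hd0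
    have h1 : #{p ∈ P | c p = d} ≤ #(R4 d) * #(image g {p ∈ P | c p = d}) := by
      refine card_le_mul_card_image _ _ fun g0 hg0 => ?_
      obtain ⟨q, hq, rfl⟩ := mem_image.1 hg0
      obtain ⟨hq, hqd⟩ := mem_filter.1 hq
      refine fibre hn (hg q hq) (by rw [hN q hq, hqd, hdiv]) _ fun p hp => ?_
      obtain ⟨hp, e⟩ := mem_filter.1 hp
      obtain ⟨hp, hpd⟩ := mem_filter.1 hp
      exact ⟨(hmem p hp).1, by rw [he p hp, hpd, e]⟩
    have h2 := r4 hT1 hT hd0 (hdn.trans hnn)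
    have h3 := cong_count hT1 hT hm0 (Nat.pow_le_pow_left hmn 2) hR
      (Nat.Coprime.coprime_mul_left hc) (image g {p ∈ P | c p = d}) fun g0 hg0 => by
        obtain ⟨q, hq, rfl⟩ := mem_image.1 hg0
        obtain ⟨hq, hqd⟩ := mem_filter.1 hq
        have a1 := hN q hq
        have a2 := hC q hq
        rw [hqd, hdiv] at a1 a2
        exact ⟨a1, a2⟩
    have h4 : T ^ 2 ≤ T ^ 4 := Nat.pow_le_pow_right hT1 (by norm_num)
    calc #{p ∈ P | c p = d} * R ^ 3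
        ≤ #(R4 d) * (#(image g {p ∈ P | c p = d}) * R ^ 3) := by
          rw [← mul_assoc]; exact Nat.mul_le_mul_right _ h1
      _ ≤ 10 * T ^ 2 * (9 * d) * (R ^ 3 + 8 * m ^ 2 * (10 * T ^ 2)) := Nat.mul_le_mul h2 h3
      _ = 90 * T ^ 2 * (d * R ^ 3) + 7200 * T ^ 4 * (d * m * m) := by ring
      _ ≤ 7200 * T ^ 4 * (d * m * R ^ 3) + 7200 * T ^ 4 * (d * m * (d * m)) := by
          gcongr
          norm_num
      _ = 7200 * T ^ 4 * (d * m * R ^ 3 + (d * m) ^ 2) := by ring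
  calc _ ≤ ∑ _d ∈ n.divisors, 7200 * T ^ 4 * (n * R ^ 3 + n ^ 2) := sum_le_sum bound
    _ = #n.divisors * (7200 * T ^ 4 * (n * R ^ 3 + n ^ 2)) := by rw [sum_const, smul_eq_mul]
    _ ≤ T * (7200 * T ^ 4 * (n * R ^ 3 + n ^ 2)) := Nat.mul_le_mul_right _ (hT n hnn)
    _ = 7200 * T ^ 5 * (n * R ^ 3 + n ^ 2) := by ring

end Pool.Agent.Lib.MP_f6c7cf_nt.E
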