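import Mathlib

/-! Exponential decay for the tree recurrence, and the Bombieri-Halasz-Montgomery inequality. -/

namespace Pool.Agent.Lib.MP_f6c7cf_nt.E

open Finset
open scoped Quaternion RealInnerProductSpace Classical Matrix

theorem decay_two_step {F : ℕ → ℝ} {s : ℝ} (hs0 : 0 < s) (hs1 : s ≤ 1) (h0 : 0 ≤ F 0)
    (h1 : F 1 ≤ F 0) (h2 : ∀ i, F (i + 2) ≤ s ^ 2 * F i) : ∀ i, F i ≤ s ^ i * (F 0 / s) := by
  intro i
  induction i using Nat.twoStepInduction with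
  | zero =>
    rw [pow_zero, one_mul, le_div_iff₀ hs0]
    nlinarith
  | one =>
    rw [pow_one, mul_div_cancel₀ _ hs0.ne']
    exact h1
  | more n ih _ =>
    calc F (n + 2) ≤ s ^ 2 * F n := h2 n
      _ ≤ s ^ 2 * (s ^ n * (F 0 / s)) := by gcongr
      _ = s ^ (n + 2) * (F 0 / s) := by ring

theorem decay {ρ lam : ℝ} (hρ : 1 < ρ) (hl0 : 0 ≤ lam) (hl : lam < 1) :
    ∃ C θ : ℝ, 0 < C ∧ 0 < θ ∧ θ < 1 ∧
      ∀ (E : Type) [NormedAddCommGroup E] [InnerProductSpace ℝ E] (h Z : E →L[ℝ] E)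
        (W : Submodule ℝ E), (∀ x y, ⟪h x, Z y⟫ = ⟪x, h y⟫) → (∀ x y, ⟪Z x, Z y⟫ = ⟪x, y⟫) →
        (∀ x, ‖h x‖ ≤ ‖x‖) → (∀ x ∈ W, ‖h x‖ ≤ lam * ‖x‖) →
        ∀ y : ℕ → E, (∀ i, y i ∈ W) →
          (∀ i, ρ • y (i + 2) = (ρ + 1) • h (y (i + 1)) - Z (y i)) →
          ∀ i, ‖y i‖ ≤ C * θ ^ i * (‖y 0‖ + ‖y 1‖) := by
  have hl2 : 0 < 1 - lam ^ 2 := by nlinarith
  have hl1 : 0 < 1 - lam := by linarith
  have hρ0 : 0 < ρ := by linarith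
  have hρ2 : 0 < ρ ^ 2 - 1 := by nlinarith
  obtain ⟨K, hK⟩ : ∃ K : ℝ, K = 1 + 2 * ρ ^ 2 / (1 - lam ^ 2) ^ 2 := ⟨_, rfl⟩
  have hK0 : 0 < K := by rw [hK]; positivity
  obtain ⟨c, hc⟩ : ∃ c : ℝ, c = (ρ ^ 2 - 1) / K := ⟨_, rfl⟩
  have hc0 : 0 < c := by rw [hc]; positivity
  obtain ⟨s, hs⟩ : ∃ s : ℝ, s = √(1 / (1 + c)) := ⟨_, rfl⟩
  have hs0 : 0 < s := by rw [hs]; exact Real.sqrt_pos.mpr (by positivity)
  have hss : s ^ 2 = 1 / (1 + c) := by rw [hs]; exact Real.sq_sqrt (by positivity)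
  have hs1 : s < 1 := by
    rw [hs, Real.sqrt_lt' one_pos, one_pow, div_lt_one (by positivity)]
    linarith
  refine ⟨√(2 / (s * (1 - lam))), √s, Real.sqrt_pos.mpr (by positivity), Real.sqrt_pos.mpr hs0,
    by rw [Real.sqrt_lt' one_pos]; linarith, ?_⟩
  intro E _ _ h Z W hhZ hZ hh hW y hy hrec
  have hZn : ∀ x, ‖Z x‖ = ‖x‖ := fun x => by
    have := hZ x x
    rw [real_inner_self_eq_norm_sq, real_inner_self_eq_norm_sq] at this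
    exact (pow_left_inj₀ (norm_nonneg _) (norm_nonneg _) two_ne_zero).mp this
  obtain ⟨u, hu⟩ : ∃ u : ℕ → E, ∀ i, u i = y (i + 1) - h (y i) := ⟨_, fun _ => rfl⟩
  obtain ⟨F, hF⟩ : ∃ F : ℕ → ℝ,
      ∀ i, F i = ‖y (i + 1)‖ ^ 2 - 2 * ⟪y (i + 1), h (y i)⟫ + ‖y i‖ ^ 2 := ⟨_, fun _ => rfl⟩
  have hFu : ∀ i, F i = ‖u i‖ ^ 2 + ‖y i‖ ^ 2 - ‖h (y i)‖ ^ 2 := fun i => by
    simp only [hF, hu]
    rw [norm_sub_sq_real]
    ring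
  have hin : ∀ i, |⟪y (i + 1), h (y i)⟫| ≤ ‖y (i + 1)‖ * (lam * ‖y i‖) := fun i =>
    (abs_real_inner_le_norm _ _).trans (by gcongr; exact hW _ (hy i))
  have hFlow : ∀ i, (1 - lam) * ‖y i‖ ^ 2 ≤ F i := fun i => by
    have h1 := (abs_le.mp (hin i)).2
    simp only [hF]
    nlinarith [mul_nonneg hl0 (sq_nonneg (‖y (i + 1)‖ - ‖y i‖)),
      mul_nonneg hl1.le (sq_nonneg ‖y (i + 1)‖)]
  have hF0 : F 0 ≤ 2 * (‖y 0‖ + ‖y 1‖) ^ 2 := by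
    have h1 := (abs_le.mp (hin 0)).1
    simp only [hF, zero_add] at h1 ⊢
    have h2 := mul_nonneg (norm_nonneg (y 1)) (norm_nonneg (y 0))
    nlinarith [mul_nonneg hl1.le h2, sq_nonneg (‖y 0‖ + ‖y 1‖)]
  have hρu : ∀ i, ρ • u (i + 1) = h (y (i + 1)) - Z (y i) := fun i => by
    simp only [hu]
    rw [smul_sub, hrec, add_smul, one_smul]
    abel
  have hstep : ∀ i, F (i + 1) = F i - (ρ ^ 2 - 1) * ‖u (i + 1)‖ ^ 2 := fun i => by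
    have h1 : ‖ρ • u (i + 1)‖ ^ 2 = ‖h (y (i + 1)) - Z (y i)‖ ^ 2 := by rw [hρu]
    rw [norm_smul, Real.norm_eq_abs, abs_of_pos hρ0, norm_sub_sq_real, hhZ, hZn] at h1
    rw [hFu (i + 1), hF i]
    nlinarith
  have hyu : ∀ i, (1 - lam ^ 2) * ‖y i‖ ≤ ρ * ‖u (i + 1)‖ + ‖u i‖ := fun i => by
    have e1 : Z (y i) - h (h (y i)) = h (u i) - ρ • u (i + 1) := by
      rw [hρu]
      simp only [hu, map_sub]
      abel
    have e2 : ⟪Z (y i) - h (h (y i)), Z (y i)⟫ = ‖y i‖ ^ 2 - ‖h (y i)‖ ^ 2 := by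
      rw [inner_sub_left, hZ, hhZ, real_inner_self_eq_norm_sq, real_inner_self_eq_norm_sq]
    have e3 : ‖Z (y i) - h (h (y i))‖ ≤ ρ * ‖u (i + 1)‖ + ‖u i‖ := by
      rw [e1]
      refine (norm_sub_le _ _).trans ?_
      rw [norm_smul, Real.norm_eq_abs, abs_of_pos hρ0]
      linarith [hh (u i)]
    have e4 := real_inner_le_norm (Z (y i) - h (h (y i))) (Z (y i))
    rw [e2, hZn] at e4
    have e5 : ‖h (y i)‖ ^ 2 ≤ (lam * ‖y i‖) ^ 2 :=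
      pow_le_pow_left₀ (norm_nonneg _) (hW _ (hy i)) 2
    rcases (norm_nonneg (y i)).eq_or_lt with h0 | h0
    · rw [← h0, mul_zero]
      positivity
    · refine le_of_mul_le_mul_right ?_ h0
      have := mul_le_mul_of_nonneg_right e3 h0.le
      nlinarith
  have hFK : ∀ i, F i ≤ K * (‖u i‖ ^ 2 + ‖u (i + 1)‖ ^ 2) := fun i => by
    have h1 : ((1 - lam ^ 2) * ‖y i‖) ^ 2 ≤ (ρ * ‖u (i + 1)‖ + ‖u i‖) ^ 2 :=
      pow_le_pow_left₀ (by positivity) (hyu i) 2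
    have h2 : (ρ * ‖u (i + 1)‖ + ‖u i‖) ^ 2 ≤ 2 * ρ ^ 2 * (‖u i‖ ^ 2 + ‖u (i + 1)‖ ^ 2) := by
      nlinarith [sq_nonneg (ρ * ‖u (i + 1)‖ - ‖u i‖), mul_nonneg hρ2.le (sq_nonneg ‖u i‖)]
    have h3 : ‖y i‖ ^ 2 ≤ 2 * ρ ^ 2 / (1 - lam ^ 2) ^ 2 * (‖u i‖ ^ 2 + ‖u (i + 1)‖ ^ 2) := by
      rw [div_mul_eq_mul_div, le_div_iff₀ (by positivity)]
      nlinarith
    rw [hFu, hK]
    nlinarith [sq_nonneg ‖h (y i)‖, sq_nonneg ‖u (i + 1)‖]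
  have hmono : ∀ i, F (i + 1) ≤ F i := fun i => by
    rw [hstep]
    nlinarith [mul_nonneg hρ2.le (sq_nonneg ‖u (i + 1)‖)]
  have htwo : ∀ i, F (i + 2) ≤ s ^ 2 * F i := fun i => by
    have h1 := hstep (i + 1)
    have h2 := hstep i
    have h3 := hFK (i + 1)
    have h4 := hmono (i + 1)
    have h5 : c * F (i + 1) ≤ (ρ ^ 2 - 1) * (‖u (i + 1)‖ ^ 2 + ‖u (i + 1 + 1)‖ ^ 2) := by
      rw [hc, div_mul_eq_mul_div, div_le_iff₀ hK0]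
      nlinarith [mul_le_mul_of_nonneg_left h3 hρ2.le]
    rw [hss, one_div, inv_mul_eq_div, le_div_iff₀ (by positivity)]
    have h6 := mul_le_mul_of_nonneg_left h4 hc0.le
    change F (i + 1 + 1) * (1 + c) ≤ F i
    nlinarith
  have hF00 : 0 ≤ F 0 := le_trans (by positivity) (hFlow 0)
  intro i
  have h1 := decay_two_step hs0 hs1.le hF00 (hmono 0) htwo i
  refine (pow_le_pow_iff_left₀ (norm_nonneg _) (by positivity) two_ne_zero).mp ?_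
  have e1 : (√(2 / (s * (1 - lam))) * √s ^ i * (‖y 0‖ + ‖y 1‖)) ^ 2 =
      2 / (s * (1 - lam)) * s ^ i * (‖y 0‖ + ‖y 1‖) ^ 2 := by
    rw [mul_pow, mul_pow, Real.sq_sqrt (by positivity), ← pow_mul, mul_comm i 2, pow_mul,
      Real.sq_sqrt hs0.le]
  rw [e1]
  refine le_of_mul_le_mul_left ?_ hl1
  calc (1 - lam) * ‖y i‖ ^ 2 ≤ s ^ i * (F 0 / s) := (hFlow i).trans h1
    _ ≤ s ^ i * (2 * (‖y 0‖ + ‖y 1‖) ^ 2 / s) := by gcongr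
    _ = _ := by field_simp

theorem bessel {ι H : Type*} [NormedAddCommGroup H] [InnerProductSpace ℝ H] (s : Finset ι)
    (Φ : ι → H) (Ψ : H) {K : ℝ} (hK0 : 0 ≤ K) (hK : ∀ t ∈ s, ∑ t' ∈ s, |⟪Φ t, Φ t'⟫| ≤ K) :
    ∑ t ∈ s, ⟪Ψ, Φ t⟫ ^ 2 ≤ K * ‖Ψ‖ ^ 2 := by
  set a : ι → ℝ := fun t => ⟪Ψ, Φ t⟫ with ha
  set S : ℝ := ∑ t ∈ s, a t ^ 2 with hS
  set v : H := ∑ t ∈ s, a t • Φ t with hv
  have hS0 : 0 ≤ S := sum_nonneg fun t _ => sq_nonneg _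
  have h1 : ⟪Ψ, v⟫ = S := by
    rw [hv, inner_sum]
    refine sum_congr rfl fun t _ => ?_
    rw [real_inner_smul_right, sq]
  have h2 : ‖v‖ ^ 2 ≤ K * S := by
    rw [← real_inner_self_eq_norm_sq, hv, sum_inner]
    have e1 : ∀ t ∈ s, ⟪a t • Φ t, ∑ t' ∈ s, a t' • Φ t'⟫ ≤
        ∑ t' ∈ s, (a t ^ 2 / 2 * |⟪Φ t, Φ t'⟫| + a t' ^ 2 / 2 * |⟪Φ t', Φ t⟫|) := fun t _ => by
      rw [inner_sum]
      refine sum_le_sum fun t' _ => ?_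
      rw [real_inner_smul_left, real_inner_smul_right, real_inner_comm (Φ t) (Φ t')]
      rcases abs_cases ⟪Φ t, Φ t'⟫ with ⟨e, h⟩ | ⟨e, h⟩
      · rw [e]
        nlinarith [mul_nonneg h (sq_nonneg (a t - a t'))]
      · rw [e]
        nlinarith [mul_nonneg (neg_nonneg.mpr h.le) (sq_nonneg (a t + a t'))]
    refine (sum_le_sum e1).trans ?_
    simp only [sum_add_distrib]
    rw [sum_comm (s := s) (t := s) (f := fun t t' => a t' ^ 2 / 2 * |⟪Φ t', Φ t⟫|)]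
    have e2 : ∑ t ∈ s, ∑ t' ∈ s, a t ^ 2 / 2 * |⟪Φ t, Φ t'⟫| ≤ K * S / 2 := by
      rw [hS, mul_sum, sum_div]
      refine sum_le_sum fun t ht => ?_
      rw [← mul_sum]
      have := mul_le_mul_of_nonneg_left (hK t ht) (by positivity : 0 ≤ a t ^ 2 / 2)
      linarith
    linarith
  have h3 : S ^ 2 ≤ ‖Ψ‖ ^ 2 * (K * S) := by
    have := real_inner_le_norm Ψ v
    rw [h1] at this
    calc S ^ 2 ≤ (‖Ψ‖ * ‖v‖) ^ 2 := pow_le_pow_left₀ hS0 this 2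
      _ = ‖Ψ‖ ^ 2 * ‖v‖ ^ 2 := by ring
      _ ≤ _ := by gcongr
  rcases hS0.eq_or_lt with h0 | h0
  · rw [← h0]
    positivity
  · refine le_of_mul_le_mul_right ?_ h0
    nlinarith

end Pool.Agent.Lib.MP_f6c7cf_nt.E
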