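import Mathlib

/-! Lipschitz quaternions: basic definitions for the equidistribution argument. -/

namespace Pool.Agent.Lib.MP_f6c7cf_nt.E

open Finset
open scoped Quaternion RealInnerProductSpace

/-- Lipschitz quaternions. -/
abbrev O := ℍ[ℤ]

/-- The norm form, a sum of four squares. -/
abbrev N (v : O) : ℤ := Quaternion.normSq v

/-- Primitive quaternions. -/
def Prim (v : O) : Prop := ∀ (c : ℤ) (w : O), v = c • w → IsUnit c

/-- Congruence modulo an integer. -/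
def Cg (M : ℤ) (v w : O) : Prop := ∃ x : O, v - w = M • x

theorem finite_R4 (n : ℕ) : {v : O | N v = n}.Finite := by
  have h : {v : O | N v = n} ⊆ (fun p : ℤ × ℤ × ℤ × ℤ => (⟨p.1, p.2.1, p.2.2.1, p.2.2.2⟩ : O)) ''
      (Set.Icc (-(n : ℤ)) n ×ˢ Set.Icc (-(n : ℤ)) n ×ˢ Set.Icc (-(n : ℤ)) n ×ˢ
        Set.Icc (-(n : ℤ)) n) := by
    intro v hv
    have e : v.re ^ 2 + v.imI ^ 2 + v.imJ ^ 2 + v.imK ^ 2 = n := by
      rw [← Quaternion.normSq_def']; exact hv
    have b : ∀ x y : ℤ, 0 ≤ y → x ^ 2 + y = n → x ∈ Set.Icc (-(n : ℤ)) n := by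
      intro x y hy h
      constructor <;> nlinarith [sq_nonneg (x - 1), sq_nonneg (x + 1), sq_nonneg x]
    refine ⟨(v.re, v.imI, v.imJ, v.imK), ⟨b _ (v.imI ^ 2 + v.imJ ^ 2 + v.imK ^ 2) ?_ ?_,
      b _ (v.re ^ 2 + v.imJ ^ 2 + v.imK ^ 2) ?_ ?_, b _ (v.re ^ 2 + v.imI ^ 2 + v.imK ^ 2) ?_ ?_,
      b _ (v.re ^ 2 + v.imI ^ 2 + v.imJ ^ 2) ?_ ?_⟩, rfl⟩ <;>
    first | positivity | linarith
  exact (((Set.finite_Icc _ _).prod ((Set.finite_Icc _ _).prod ((Set.finite_Icc _ _).prod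
    (Set.finite_Icc _ _)))).image _).subset h

/-- All quaternions of norm `n`. -/
noncomputable def R4 (n : ℕ) : Finset O := (finite_R4 n).toFinset

open Classical in
/-- Primitive quaternions of norm `n`. -/
noncomputable def A (n : ℕ) : Finset O := (R4 n).filter Prim

theorem mem_R4 {n : ℕ} {v : O} : v ∈ R4 n ↔ N v = n := by simp [R4]

theorem mem_A {n : ℕ} {v : O} : v ∈ A n ↔ N v = n ∧ Prim v := by simp [A, mem_R4]

/-- The number of units. -/
noncomputable def u : ℕ := #(A 1)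

/-- The matrix model of `O / R O`. -/
structure Model (R : ℕ) where
  φ : O →+* Matrix (Fin 2) (Fin 2) (ZMod R)
  surj : Function.Surjective φ
  det : ∀ v, (φ v).det = ((N v : ℤ) : ZMod R)
  ker : ∀ v, φ v = 0 → ∃ w : O, v = (R : ℤ) • w

/-- A bounded anti-multiplicative action, isometric on elements of norm prime to `M`. -/
structure Rep (M : ℕ) (E : Type) [NormedAddCommGroup E] [InnerProductSpace ℝ E] where
  τ : O → E →L[ℝ] E
  mul : ∀ v w : O, v ≠ 0 → w ≠ 0 → ∀ x, τ (v * w) x = τ w (τ v x)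
  B : ℝ
  bdd : ∀ v x, ‖τ v x‖ ≤ B * ‖x‖
  iso : ∀ v : O, IsCoprime (N v) (M : ℤ) → ∀ x y, ⟪τ v x, τ v y⟫ = ⟪x, y⟫

variable {M : ℕ} {E : Type} [NormedAddCommGroup E] [InnerProductSpace ℝ E]

/-- The Hecke operator over primitive elements. -/
noncomputable def Rep.T (ρ : Rep M E) (n : ℕ) : E →L[ℝ] E := ∑ v ∈ A n, ρ.τ v

theorem Rep.T_apply (ρ : Rep M E) (n : ℕ) (x : E) : ρ.T n x = ∑ v ∈ A n, ρ.τ v x := by
  simp [Rep.T]

/-- Vectors on which all elements of norm `r` act in the same way. -/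
def Rep.Fix (ρ : Rep M E) (r : ℕ) : Submodule ℝ E where
  carrier := {x | ∀ β ∈ A r, ∀ β' ∈ A r, ρ.τ β x = ρ.τ β' x}
  add_mem' := by
    intro x y hx hy β hβ β' hβ'
    rw [map_add, map_add, hx β hβ β' hβ', hy β hβ β' hβ']
  zero_mem' := by intro β _ β' _; simp
  smul_mem' := by
    intro c x hx β hβ β' hβ'
    rw [map_smul, map_smul, hx β hβ β' hβ']

/-- Vectors on which the action only depends on the norm. -/
def Rep.Inv (ρ : Rep M E) : Submodule ℝ E where
  carrier := {x | ∀ α α' : O, N α = N α' → IsCoprime (N α) (M : ℤ) → ρ.τ α x = ρ.τ α' x}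
  add_mem' := by
    intro x y hx hy β β' h h'
    rw [map_add, map_add, hx β β' h h', hy β β' h h']
  zero_mem' := by intro β β' _ _; simp
  smul_mem' := by
    intro c x hx β β' h h'
    rw [map_smul, map_smul, hx β β' h h']

/-- The embedding into real quaternions. -/
def toR (v : O) : ℍ[ℝ] := ⟨v.re, v.imI, v.imJ, v.imK⟩

/-- The direction of a nonzero quaternion. -/
noncomputable def dir (v : O) : ℍ[ℝ] := ‖toR v‖⁻¹ • toR v

open Classical in
/-- Number of pairs of primitive elements of norm `n` congruent modulo `R`. -/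
noncomputable def N2 (n R : ℕ) : ℕ := #((A n ×ˢ A n).filter fun p => Cg R p.1 p.2)

end Pool.Agent.Lib.MP_f6c7cf_nt.E
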