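import Pool.Agent.Lib.MP_f6c7cf_nt.E.Core
import Pool.Agent.Lib.MP_f6c7cf_nt.E.Count
import Pool.Agent.Lib.MP_30b5ba_nt.Upper

/-! Equidistribution in an abstract representation. -/

namespace Pool.Agent.Lib.MP_f6c7cf_nt.E

open Finset
open scoped Quaternion RealInnerProductSpace Classical Matrix

variable {M : ℕ} {E : Type} [NormedAddCommGroup E] [InnerProductSpace ℝ E]

theorem equi_odd (hM : Even M) {r : ℕ} (hr : r.Prime) (hrM : ¬ r ∣ M) : Odd r :=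
  hr.odd_of_ne_two fun h => hrM (h ▸ hM.two_dvd)

theorem equi_delta {r θ : ℝ} (hr : 1 < r) (h0 : 0 < θ) (h1 : θ < 1) :
    ∃ δ : ℝ, 0 < δ ∧ θ * r ^ (15 * δ) < 1 := by
  have hl : 0 < Real.log r := Real.log_pos hr
  have hθ : Real.log θ < 0 := Real.log_neg h0 h1
  refine ⟨-Real.log θ / (30 * Real.log r), div_pos (by linarith) (by positivity), ?_⟩
  rw [Real.rpow_def_of_pos (by linarith)]
  have e : Real.log r * (15 * (-Real.log θ / (30 * Real.log r))) = -Real.log θ / 2 := by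
    field_simp
    ring
  rw [e]
  nth_rewrite 1 [← Real.exp_log h0]
  rw [← Real.exp_add, Real.exp_lt_one_iff]
  linarith

theorem equi_N2 {r : ℕ} (hr : r.Prime) (ho : Odd r) {δ : ℝ} (hδ : 0 < δ) :
    ∃ D : ℝ, 0 ≤ D ∧ ∀ n k : ℕ, Odd n → ¬ r ∣ n → (r ^ 3) ^ k ≤ n → n < (r ^ 3) ^ (k + 1) →
      (N2 n (r ^ k) : ℝ) * ((r : ℝ) ^ k) ^ 3 ≤ D * ((r : ℝ) ^ (15 * δ)) ^ k * n ^ 2 := by
  obtain ⟨C, hC⟩ := N2_le
  obtain ⟨C', hC'0, hC'⟩ := Pool.Agent.Lib.MP_30b5ba_nt.exists_divisor_bound hδ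
  have hr0 : (0 : ℝ) < r := by exact_mod_cast hr.pos
  refine ⟨C * C' ^ 5 * (r : ℝ) ^ (15 * δ) * 2, by positivity, fun n k hn hnr h1 h2 => ?_⟩
  obtain ⟨T, hT, hT'⟩ := hC' n hn.pos
  have hcop : Nat.Coprime n (r ^ k) :=
    Nat.Coprime.pow_right _ ((Nat.Prime.coprime_iff_not_dvd hr).2 hnr).symm
  have h3 : (N2 n (r ^ k) : ℝ) * ((r : ℝ) ^ k) ^ 3 ≤
      C * (T : ℝ) ^ 5 * (n * ((r : ℝ) ^ k) ^ 3 + n ^ 2) := by
    exact_mod_cast hC n (r ^ k) T hn ho.pow hcop hT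
  have h4 : ((r : ℝ) ^ k) ^ 3 ≤ n := by
    rw [← pow_mul, mul_comm, pow_mul]
    exact_mod_cast h1
  have h5 : (n : ℝ) ≤ ((r : ℝ) ^ 3) ^ (k + 1) := by exact_mod_cast h2.le
  have hn0 : (0 : ℝ) ≤ n := by positivity
  have h6 : ((n : ℝ) ^ δ) ^ 5 ≤ ((r : ℝ) ^ (15 * δ)) ^ (k + 1) := by
    have e : ((((r : ℝ) ^ 3) ^ (k + 1)) ^ δ) ^ 5 = ((r : ℝ) ^ (15 * δ)) ^ (k + 1) := by
      rw [← pow_mul, ← Real.rpow_natCast (r : ℝ), ← Real.rpow_mul hr0.le, ← Real.rpow_natCast,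
        ← Real.rpow_mul hr0.le, ← Real.rpow_natCast, ← Real.rpow_mul hr0.le]
      congr 1
      push_cast
      ring
    rw [← e]
    gcongr
  have h7 : (T : ℝ) ^ 5 ≤ C' ^ 5 * ((r : ℝ) ^ (15 * δ)) ^ (k + 1) := by
    calc (T : ℝ) ^ 5 ≤ (C' * (n : ℝ) ^ δ) ^ 5 := by gcongr
      _ = C' ^ 5 * ((n : ℝ) ^ δ) ^ 5 := mul_pow _ _ _
      _ ≤ _ := by gcongr
  have h8 : n * ((r : ℝ) ^ k) ^ 3 + n ^ 2 ≤ 2 * (n : ℝ) ^ 2 := by nlinarith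
  calc _ ≤ _ := h3
    _ ≤ C * (C' ^ 5 * ((r : ℝ) ^ (15 * δ)) ^ (k + 1)) * (2 * (n : ℝ) ^ 2) := by gcongr
    _ = _ := by ring

theorem Rep.small_coprime [FiniteDimensional ℝ E] (ρ : Rep M E) (hM : Even M) {r : ℕ}
    (hr : r.Prime) (hrM : ¬ r ∣ M) {ε : ℝ} (hε : 0 < ε) :
    ∃ N₀ : ℕ, ∀ n ≥ N₀, Odd n → ¬ r ∣ n → ∀ η ∈ (ρ.Fix r)ᗮ, ‖ρ.T n η‖ ≤ ε * n * ‖η‖ := by
  obtain ⟨C, θ, hC, hθ0, hθ1, hrθ, ht⟩ := ρ.tower hM hr hrM
  have hr1 : (1 : ℝ) < r := by exact_mod_cast hr.one_lt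
  have hr0 : (0 : ℝ) < r := by linarith
  obtain ⟨δ, hδ, hq⟩ := equi_delta hr1 hθ0 hθ1
  obtain ⟨D, hD, hN⟩ := equi_N2 hr (equi_odd hM hr hrM) hδ
  set σ : ℝ := (r : ℝ) ^ (15 * δ) with hσ
  have hσ0 : 0 < σ := by positivity
  set F : ℝ := (Module.finrank ℝ E : ℝ) * ρ.B ^ 2 with hF
  have hF0 : 0 ≤ F := by positivity
  have hlim := (tendsto_pow_const_mul_const_pow_of_abs_lt_one 2
    (r := θ * σ) (by rw [abs_of_pos (by positivity)]; exact hq)).const_mul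
      (F * D * 2 * (r : ℝ) ^ 2 * C)
  rw [mul_zero] at hlim
  obtain ⟨k₀, hk₀⟩ := Filter.eventually_atTop.1 (hlim.eventually (gt_mem_nhds (pow_pos hε 2)))
  have hr3 : 1 < r ^ 3 := Nat.one_lt_pow (by norm_num) hr.one_lt
  refine ⟨(r ^ 3) ^ (k₀ + 1), fun n hn hno hnr η hη => ?_⟩
  set k := Nat.log (r ^ 3) n with hk
  have hk1 : k₀ + 1 ≤ k := Nat.le_log_of_pow_le hr3 hn
  have h1 := hN n k hno hnr (Nat.pow_log_le_self _ hno.pos.ne') (Nat.lt_pow_succ_log_self hr3 n)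
  have h2 := ρ.core hM hr hrM (k := k) (by omega) hno hnr η
  have h3 : ∑ l ∈ range k, ‖ρ.T (r ^ l) η‖ ≤ k * (C * (r * θ) ^ k * ‖η‖) := by
    have h := Finset.sum_le_card_nsmul (range k) (fun l => ‖ρ.T (r ^ l) η‖)
      (C * (r * θ) ^ k * ‖η‖) fun l hl => (ht η hη l).2.trans (by
        have := pow_le_pow_right₀ hrθ (mem_range.1 hl).le
        gcongr)
    simpa using h
  have h4 := (hk₀ k (by omega)).le
  have h5 : ‖ρ.T n η‖ ^ 2 ≤ (ε * n * ‖η‖) ^ 2 := by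
    calc _ ≤ _ := h2
      _ ≤ F * (N2 n (r ^ k) : ℝ) * (2 * k * (r : ℝ) ^ (2 * k + 2)) *
          ((k * (C * (r * θ) ^ k * ‖η‖)) * ‖η‖) := by gcongr
      _ = F * ((N2 n (r ^ k) : ℝ) * ((r : ℝ) ^ k) ^ 3) *
          (2 * (r : ℝ) ^ 2 * C * k ^ 2 * θ ^ k * ‖η‖ ^ 2) := by ring
      _ ≤ F * (D * σ ^ k * n ^ 2) * (2 * (r : ℝ) ^ 2 * C * k ^ 2 * θ ^ k * ‖η‖ ^ 2) := by gcongr
      _ = (F * D * 2 * (r : ℝ) ^ 2 * C * ((k : ℝ) ^ 2 * (θ * σ) ^ k)) * (n * ‖η‖) ^ 2 := by ring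
      _ ≤ ε ^ 2 * (n * ‖η‖) ^ 2 := by gcongr
      _ = _ := by ring
  exact (pow_le_pow_iff_left₀ (norm_nonneg _) (by positivity) two_ne_zero).1 h5

theorem Rep.norm_T_le_B (ρ : Rep M E) (n : ℕ) (η : E) : ‖ρ.T n η‖ ≤ #(A n) * |ρ.B| * ‖η‖ := by
  rw [ρ.T_apply]
  refine (norm_sum_le _ _).trans ?_
  have h := Finset.sum_le_card_nsmul (A n) (fun v => ‖ρ.τ v η‖) (|ρ.B| * ‖η‖) fun v _ =>
    (ρ.bdd v η).trans (by gcongr; exact le_abs_self _)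
  simpa [mul_assoc] using h

theorem Rep.bdd_coprime [FiniteDimensional ℝ E] (ρ : Rep M E) (hM : Even M) {r : ℕ}
    (hr : r.Prime) (hrM : ¬ r ∣ M) :
    ∃ K : ℝ, 0 < K ∧ ∀ n, Odd n → ¬ r ∣ n → ∀ η ∈ (ρ.Fix r)ᗮ, ‖ρ.T n η‖ ≤ K * n * ‖η‖ := by
  obtain ⟨N₀, hN⟩ := ρ.small_coprime hM hr hrM one_pos
  have h0 : 0 ≤ ∑ m ∈ range N₀, (#(A m) : ℝ) * |ρ.B| := by positivity
  refine ⟨1 + ∑ m ∈ range N₀, (#(A m) : ℝ) * |ρ.B|, by positivity, fun n hn hnr η hη => ?_⟩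
  have hn1 : (1 : ℝ) ≤ n := by exact_mod_cast hn.pos
  rcases le_or_gt N₀ n with h | h
  · refine (hN n h hn hnr η hη).trans ?_
    gcongr
    linarith
  · refine (ρ.norm_T_le_B n η).trans ?_
    have h1 : (#(A n) : ℝ) * |ρ.B| ≤ ∑ m ∈ range N₀, (#(A m) : ℝ) * |ρ.B| :=
      Finset.single_le_sum (f := fun m => (#(A m) : ℝ) * |ρ.B|) (fun m _ => by positivity)
        (mem_range.2 h)
    exact mul_le_mul_of_nonneg_right (by nlinarith) (norm_nonneg _)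

theorem Rep.small [FiniteDimensional ℝ E] (ρ : Rep M E) (hM : Even M) {r : ℕ} (hr : r.Prime)
    (hrM : ¬ r ∣ M) {ε : ℝ} (hε : 0 < ε) :
    ∃ N₀ : ℕ, ∀ n ≥ N₀, Odd n → ∀ η ∈ (ρ.Fix r)ᗮ, ‖ρ.T n η‖ ≤ ε * n * ‖η‖ := by
  obtain ⟨C, θ, hC, hθ0, hθ1, -, ht⟩ := ρ.tower hM hr hrM
  obtain ⟨K, hK, hb⟩ := ρ.bdd_coprime hM hr hrM
  obtain ⟨N₁, hN⟩ := ρ.small_coprime hM hr hrM (div_pos hε hC)
  obtain ⟨j₀, hj₀⟩ := exists_pow_lt_of_lt_one (div_pos hε (mul_pos hK hC)) hθ1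
  have hro := equi_odd hM hr hrM
  refine ⟨r ^ j₀ * N₁, fun n hn hno η hη => ?_⟩
  obtain ⟨j, m, hm, rfl⟩ := Nat.exists_eq_pow_mul_and_not_dvd hno.pos.ne' r hr.ne_one
  have hmo : Odd m := (Nat.odd_mul.1 hno).2
  have hcop : Nat.Coprime (r ^ j) m :=
    Nat.Coprime.pow_left _ ((Nat.Prime.coprime_iff_not_dvd hr).2 hm)
  have h1 := ρ.T_mul (hro.pow (n := j)) hmo hcop η
  have hu : (1 : ℝ) ≤ u := by exact_mod_cast u_pos
  have h2 : ‖ρ.T (r ^ j * m) η‖ ≤ ‖ρ.T m (ρ.T (r ^ j) η)‖ := by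
    rw [h1, norm_smul, Real.norm_natCast]
    exact le_mul_of_one_le_left (norm_nonneg _) hu
  obtain ⟨h3, h4⟩ := ht η hη j
  refine h2.trans ?_
  push_cast
  rcases le_or_gt j₀ j with h | h
  · have h5 : θ ^ j ≤ ε / (K * C) := (pow_le_pow_of_le_one hθ0.le hθ1.le h).trans hj₀.le
    calc _ ≤ _ := hb m hmo hm _ h3
      _ ≤ K * m * (C * (r * θ) ^ j * ‖η‖) := by gcongr
      _ = K * C * θ ^ j * (r ^ j * m) * ‖η‖ := by ring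
      _ ≤ K * C * (ε / (K * C)) * (r ^ j * m) * ‖η‖ := by gcongr
      _ = _ := by field_simp
  · have h5 : N₁ ≤ m := by
      by_contra h6
      have h7 : r ^ j * m < r ^ j₀ * N₁ :=
        Nat.mul_lt_mul'' (Nat.pow_lt_pow_right hr.one_lt h) (not_le.1 h6)
      omega
    have h6 : θ ^ j ≤ 1 := pow_le_one₀ hθ0.le hθ1.le
    calc _ ≤ _ := hN m h5 hmo hm _ h3
      _ ≤ ε / C * m * (C * (r * θ) ^ j * ‖η‖) := by gcongr
      _ = ε * θ ^ j * (r ^ j * m) * ‖η‖ := by rw [mul_pow]; field_simp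
      _ ≤ ε * 1 * (r ^ j * m) * ‖η‖ := by gcongr
      _ = _ := by ring

theorem equi_nonempty {r : ℕ} (ho : Odd r) : (A r).Nonempty :=
  Finset.card_pos.1 (lt_of_lt_of_le (Nat.mul_pos ho.pos u_pos) (card_A_ge r ho))

theorem Rep.T_comm (ρ : Rep M E) {r s : ℕ} (hr : r.Prime) (hs : s.Prime) (ho : Odd r)
    (ho' : Odd s) (x : E) : ρ.T r (ρ.T s x) = ρ.T s (ρ.T r x) := by
  rcases eq_or_ne r s with rfl | h
  · rfl
  · have hc : Nat.Coprime r s := (Nat.coprime_primes hr hs).2 h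
    rw [ρ.T_mul ho' ho hc.symm, ρ.T_mul ho ho' hc, mul_comm]

theorem Rep.T_scalar (ρ : Rep M E) (n : ℕ) {c : ℤ} (hc : c ≠ 0) (x : E) :
    ρ.T n (ρ.τ (c • (1 : O)) x) = ρ.τ (c • (1 : O)) (ρ.T n x) := by
  have h0 : c • (1 : O) ≠ 0 := by
    intro h
    have h1 := N_smul c 1
    rw [h] at h1
    simp only [map_zero, map_one, mul_one] at h1
    exact hc (pow_eq_zero_iff (two_ne_zero) |>.1 h1.symm)
  rw [ρ.T_apply, ρ.T_apply, map_sum]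
  refine Finset.sum_congr rfl fun v hv => ?_
  have hv0 : v ≠ 0 := (mem_A.1 hv).2.ne_zero
  rw [← ρ.mul _ _ h0 hv0, ← ρ.mul _ _ hv0 h0, smul_mul_assoc, mul_smul_comm, one_mul, mul_one]

theorem Rep.step_mem (ρ : Rep M E) (hM : Even M) {x : E}
    (hx : ∀ r : ℕ, r.Prime → ¬ r ∣ M → x ∈ ρ.Fix r) {s : ℕ} (hs : s.Prime) (hsM : ¬ s ∣ M)
    {β : O} (hβ : β ∈ A s) (r : ℕ) (hr : r.Prime) (hrM : ¬ r ∣ M) : ρ.τ β x ∈ ρ.Fix r := by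
  have hro := equi_odd hM hr hrM
  have hso := equi_odd hM hs hsM
  have h1 : ρ.T s x ∈ ρ.Fix r := by
    rw [ρ.mem_Fix_iff hr hrM, ρ.T_comm hr hs hro hso, ρ.T_comm hr hs hro hso,
      (ρ.mem_Fix_iff hr hrM x).1 (hx r hr hrM), map_smul,
      ρ.T_scalar s (by exact_mod_cast hr.ne_zero)]
  have h2 : ρ.T s x = (#(A s) : ℝ) • ρ.τ β x := by
    rw [ρ.T_apply, Finset.sum_congr rfl fun v hv => hx s hs hsM v hv β hβ, Finset.sum_const,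
      Nat.cast_smul_eq_nsmul]
  have h3 : (#(A s) : ℝ) ≠ 0 := by exact_mod_cast (Finset.card_pos.2 ⟨β, hβ⟩).ne'
  rw [h2] at h1
  exact (Submodule.smul_mem_iff _ h3).1 h1

theorem equi_ne_zero {v : O} (h : N v ≠ 0) : v ≠ 0 := by
  rintro rfl
  exact h (map_zero _)

theorem Rep.inv_aux (ρ : Rep M E) (hM : Even M) (hM0 : M ≠ 0) (n : ℕ) :
    ∀ x : E, (∀ r : ℕ, r.Prime → ¬ r ∣ M → x ∈ ρ.Fix r) → ∀ α α' : O, N α = n → N α' = n →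
      Nat.Coprime n M → ρ.τ α x = ρ.τ α' x := by
  induction n using Nat.strong_induction_on with
  | _ n ih =>
  intro x hx α α' hα hα' hc
  have hn0 : n ≠ 0 := by
    rintro rfl
    rw [Nat.coprime_zero_left] at hc
    subst hc
    exact absurd hM (by decide)
  have hn0' : (n : ℤ) ≠ 0 := by exact_mod_cast hn0
  rcases eq_or_ne n 1 with rfl | hn1
  · obtain ⟨r, hrM', hr⟩ := Nat.exists_infinite_primes (M + 1)
    have hrM : ¬ r ∣ M := fun h => by have := Nat.le_of_dvd (Nat.pos_of_ne_zero hM0) h; omega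
    obtain ⟨β, hβ⟩ := equi_nonempty (equi_odd hM hr hrM)
    have hβN := (mem_A.1 hβ).1
    have hβ0 := (mem_A.1 hβ).2.ne_zero
    have hm : ∀ a : O, N a = (1 : ℕ) → a * β ∈ A r := fun a ha => by
      have e : N (a * β) = r := by rw [N_mul, ha, hβN]; simp
      exact mem_A.2 ⟨e, prim_of_N_prime hr e⟩
    have h1 := hx r hr hrM _ (hm α hα) _ (hm α' hα')
    rw [ρ.mul _ _ (equi_ne_zero (hα ▸ hn0')) hβ0, ρ.mul _ _ (equi_ne_zero (hα' ▸ hn0')) hβ0,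
      ← sub_eq_zero, ← map_sub] at h1
    have h2 : IsCoprime (N β) (M : ℤ) := by
      rw [hβN]
      exact Nat.isCoprime_iff_coprime.2 ((Nat.Prime.coprime_iff_not_dvd hr).2 hrM)
    have h3 := ρ.norm_τ h2 (ρ.τ α x - ρ.τ α' x)
    rw [h1, norm_zero] at h3
    exact sub_eq_zero.1 (norm_eq_zero.1 h3.symm)
  · obtain ⟨r, hr, m, rfl⟩ := Nat.exists_prime_and_dvd hn1
    have hrM : ¬ r ∣ M :=
      (Nat.Prime.coprime_iff_not_dvd hr).1 (Nat.Coprime.coprime_mul_right hc)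
    have hro := equi_odd hM hr hrM
    have hr0 : (r : ℤ) ≠ 0 := by exact_mod_cast hr.ne_zero
    have hm0 : m ≠ 0 := fun h => hn0 (by rw [h, mul_zero])
    have hm0' : (m : ℤ) ≠ 0 := by exact_mod_cast hm0
    have hf : ∀ a : O, N a = (r * m : ℕ) → ∃ β ∈ A r, ∃ a' : O, N a' = m ∧
        ρ.τ a x = ρ.τ a' (ρ.τ β x) := fun a ha => by
      obtain ⟨β, a', hβ, rfl⟩ := exists_left_prime hr hro (equi_nonempty hro) (α := a)
        (by rw [ha]; push_cast; exact dvd_mul_right _ _)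
      have e : N a' = m := by
        rw [N_mul, hβ] at ha
        push_cast at ha
        exact mul_left_cancel₀ hr0 ha
      exact ⟨β, mem_A.2 ⟨hβ, prim_of_N_prime hr hβ⟩, a', e,
        ρ.mul _ _ (equi_ne_zero (hβ ▸ hr0)) (equi_ne_zero (e ▸ hm0')) x⟩
    obtain ⟨β, hβ, a, ha, e⟩ := hf α hα
    obtain ⟨β', hβ', a', ha', e'⟩ := hf α' hα'
    rw [e, e', hx r hr hrM β' hβ' β hβ]
    have hlt : m < r * m := by
      have := hr.two_le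
      have := Nat.pos_of_ne_zero hm0
      nlinarith
    exact ih m hlt _ (ρ.step_mem hM hx hr hrM hβ) a a' ha ha' (Nat.Coprime.coprime_mul_left hc)

theorem Rep.mem_Inv (ρ : Rep M E) (hM : Even M) (hM0 : M ≠ 0) {x : E}
    (hx : ∀ r : ℕ, r.Prime → ¬ r ∣ M → x ∈ ρ.Fix r) : x ∈ ρ.Inv := by
  intro α α' h hc
  obtain ⟨n, hn⟩ := Int.eq_ofNat_of_zero_le (N_nonneg α)
  refine ρ.inv_aux hM hM0 n x hx α α' hn (h ▸ hn) ?_
  rw [hn] at hc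
  exact Nat.isCoprime_iff_coprime.1 hc

theorem Rep.equi_one [FiniteDimensional ℝ E] (ρ : Rep M E) (hM : Even M) (hM0 : M ≠ 0)
    {η : E} (hη : η ∈ (ρ.Inv)ᗮ) :
    ∀ ε : ℝ, 0 < ε → ∃ N₀ : ℕ, ∀ n ≥ N₀, Odd n → ‖ρ.T n η‖ ≤ ε * n := by
  let K : {r : ℕ // r.Prime ∧ ¬ r ∣ M} → Submodule ℝ E := fun r => (ρ.Fix r.1)ᗮ
  have h1 : (iSup K)ᗮ ≤ ρ.Inv := by
    rw [← Submodule.iInf_orthogonal]
    intro x hx
    refine ρ.mem_Inv hM hM0 fun r hr hrM => ?_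
    have h := (Submodule.mem_iInf _).1 hx ⟨r, hr, hrM⟩
    rwa [Submodule.orthogonal_orthogonal] at h
  have h2 : η ∈ iSup K := by
    have h := Submodule.orthogonal_le h1 hη
    rwa [Submodule.orthogonal_orthogonal] at h
  refine Submodule.iSup_induction K (motive := fun η =>
    ∀ ε : ℝ, 0 < ε → ∃ N₀ : ℕ, ∀ n ≥ N₀, Odd n → ‖ρ.T n η‖ ≤ ε * n) h2 ?_ ?_ ?_
  · intro r x hx ε hε
    have h3 : 0 < ‖x‖ + 1 := by positivity
    obtain ⟨N₀, hN⟩ := ρ.small hM r.2.1 r.2.2 (div_pos hε h3)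
    refine ⟨N₀, fun n hn ho => (hN n hn ho x hx).trans ?_⟩
    calc ε / (‖x‖ + 1) * n * ‖x‖ ≤ ε / (‖x‖ + 1) * n * (‖x‖ + 1) := by gcongr; linarith
      _ = _ := by field_simp
  · intro ε hε
    refine ⟨0, fun n _ _ => ?_⟩
    rw [map_zero, norm_zero]
    positivity
  · intro x y hx hy ε hε
    obtain ⟨N₁, h3⟩ := hx (ε / 2) (by positivity)
    obtain ⟨N₂, h4⟩ := hy (ε / 2) (by positivity)
    refine ⟨max N₁ N₂, fun n hn ho => ?_⟩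
    rw [map_add]
    have h5 := h3 n (le_of_max_le_left hn) ho
    have h6 := h4 n (le_of_max_le_right hn) ho
    exact (norm_add_le _ _).trans (by linarith)

theorem Rep.equi [FiniteDimensional ℝ E] (ρ : Rep M E) (hM : Even M) (hM0 : M ≠ 0) {ε : ℝ}
    (hε : 0 < ε) :
    ∃ N₀ : ℕ, ∀ n ≥ N₀, Odd n → ∀ η ∈ (ρ.Inv)ᗮ, ‖ρ.T n η‖ ≤ ε * n * ‖η‖ := by
  let b := stdOrthonormalBasis ℝ (ρ.Inv)ᗮ
  set d := Module.finrank ℝ (ρ.Inv)ᗮ with hd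
  have hd0 : (0 : ℝ) < d + 1 := by positivity
  choose f hf using fun i => ρ.equi_one hM hM0 (b i).2 _ (div_pos hε hd0)
  refine ⟨univ.sup f, fun n hn ho η hη => ?_⟩
  have h1 : η = ∑ i, ⟪b i, ⟨η, hη⟩⟫ • (b i : E) := by
    have h := congrArg Subtype.val (b.sum_repr' ⟨η, hη⟩)
    simpa using h.symm
  have h2 : ∀ i, ‖⟪b i, ⟨η, hη⟩⟫ • ρ.T n (b i)‖ ≤ ‖η‖ * (ε / (d + 1) * n) := fun i => by
    rw [norm_smul]
    have h3 := norm_inner_le_norm (𝕜 := ℝ) (b i) ⟨η, hη⟩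
    rw [b.orthonormal.1 i, one_mul] at h3
    exact mul_le_mul h3 (hf i n ((Finset.le_sup (mem_univ i)).trans hn) ho) (norm_nonneg _)
      (norm_nonneg _)
  calc ‖ρ.T n η‖ = ‖∑ i, ⟪b i, ⟨η, hη⟩⟫ • ρ.T n (b i)‖ := by
        conv_lhs => rw [h1]
        simp only [map_sum, map_smul]
    _ ≤ ∑ i, ‖⟪b i, ⟨η, hη⟩⟫ • ρ.T n (b i)‖ := norm_sum_le _ _
    _ ≤ ∑ _i : Fin d, ‖η‖ * (ε / (d + 1) * n) := Finset.sum_le_sum fun i _ => h2 i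
    _ = d * (‖η‖ * (ε / (d + 1) * n)) := by simp
    _ ≤ (d + 1) * (‖η‖ * (ε / (d + 1) * n)) := by gcongr; linarith
    _ = _ := by field_simp

end Pool.Agent.Lib.MP_f6c7cf_nt.E
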