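import Pool.Agent.Lib.MP_f6c7cf_nt.E.Defs

/-! Left ideals containing an odd integer are principal; factorisation of primitive elements. -/

namespace Pool.Agent.Lib.MP_f6c7cf_nt.E

open Finset
open scoped Quaternion RealInnerProductSpace Classical Matrix

theorem N_star (v : O) : N (star v) = N v := Quaternion.normSq_star v

theorem N_mul (v w : O) : N (v * w) = N v * N w := map_mul _ v w

theorem N_smul (c : ℤ) (v : O) : N (c • v) = c ^ 2 * N v := Quaternion.normSq_smul c v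

theorem N_nonneg (v : O) : 0 ≤ N v := Quaternion.normSq_nonneg

theorem star_mul_self' (v : O) : star v * v = N v • (1 : O) := by
  rw [Quaternion.star_mul_self]
  ext <;> simp

theorem mul_star_self' (v : O) : v * star v = N v • (1 : O) := by
  rw [Quaternion.self_mul_star]
  ext <;> simp

theorem ideal_N_pos {v : O} (h : v ≠ 0) : 0 < N v :=
  lt_of_le_of_ne (N_nonneg v) fun e => h (Quaternion.normSq_eq_zero.1 e.symm)

theorem ideal_ne_zero {v : O} (h : N v ≠ 0) : v ≠ 0 := fun e => h (Quaternion.normSq_eq_zero.2 e)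

theorem ideal_cancel {c : ℤ} (hc : c ≠ 0) {v w : O} (h : c • v = c • w) : v = w := by
  ext
  · exact mul_left_cancel₀ hc (congrArg (fun v : O => v.re) h)
  · exact mul_left_cancel₀ hc (congrArg (fun v : O => v.imI) h)
  · exact mul_left_cancel₀ hc (congrArg (fun v : O => v.imJ) h)
  · exact mul_left_cancel₀ hc (congrArg (fun v : O => v.imK) h)

theorem ideal_star_smul (c : ℤ) (v : O) : star (c • v) = c • star v := star_zsmul c v

theorem ideal_N_def (v : O) : N v = v.re ^ 2 + v.imI ^ 2 + v.imJ ^ 2 + v.imK ^ 2 :=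
  Quaternion.normSq_def' v

theorem ideal_mk (a b c d : ℤ) : ∃ v : O, v.re = a ∧ v.imI = b ∧ v.imJ = c ∧ v.imK = d :=
  ⟨⟨a, b, c, d⟩, rfl, rfl, rfl, rfl⟩

theorem ideal_N_add (x y : O) (b : ℤ) : ∃ k, N (x + b • y) = N x + b * k := by
  refine ⟨2 * (x.re * y.re + x.imI * y.imI + x.imJ * y.imJ + x.imK * y.imK) + b * N y, ?_⟩
  simp only [Quaternion.normSq_def', Quaternion.re_add, Quaternion.imI_add, Quaternion.imJ_add,
    Quaternion.imK_add, Quaternion.re_smul, Quaternion.imI_smul, Quaternion.imJ_smul,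
    Quaternion.imK_smul, smul_eq_mul]
  ring

theorem ideal_half {γ : O} (h : Even (N γ)) : ∃ p d : O, N p = 2 ∧ p * γ = (2 : ℤ) • d := by
  have h1 : Even (γ.re + γ.imI + γ.imJ + γ.imK) := by
    rw [ideal_N_def] at h
    simp only [Int.even_add, Int.even_pow' two_ne_zero] at h ⊢
    exact h
  obtain ⟨k, hk⟩ := h1
  have h2 : (γ.re + γ.imI) % 2 = 0 ∨ (γ.re + γ.imJ) % 2 = 0 ∨ (γ.re + γ.imK) % 2 = 0 := by omega
  have key : ∀ x y z a b c d : ℤ, x ^ 2 + y ^ 2 + z ^ 2 = 1 →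
      γ.re - x * γ.imI - y * γ.imJ - z * γ.imK = 2 * a →
      γ.imI + x * γ.re + y * γ.imK - z * γ.imJ = 2 * b →
      γ.imJ - x * γ.imK + y * γ.re + z * γ.imI = 2 * c →
      γ.imK + x * γ.imJ - y * γ.imI + z * γ.re = 2 * d →
      ∃ p d : O, N p = 2 ∧ p * γ = (2 : ℤ) • d := fun x y z a b c d h0 h1 h2 h3 h4 => by
    obtain ⟨p, p0, p1, p2, p3⟩ := ideal_mk 1 x y z
    obtain ⟨q, q0, q1, q2, q3⟩ := ideal_mk a b c d
    refine ⟨p, q, by rw [ideal_N_def, p0, p1, p2, p3]; linarith, ?_⟩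
    ext
    · rw [Quaternion.re_mul, Quaternion.re_smul, p0, p1, p2, p3, q0, one_mul]; exact h1
    · rw [Quaternion.imI_mul, Quaternion.imI_smul, p0, p1, p2, p3, q1, one_mul]; exact h2
    · rw [Quaternion.imJ_mul, Quaternion.imJ_smul, p0, p1, p2, p3, q2, one_mul]; exact h3
    · rw [Quaternion.imK_mul, Quaternion.imK_smul, p0, p1, p2, p3, q3, one_mul]; exact h4
  rcases h2 with h2 | h2 | h2
  · exact key (-1) 0 0 ((γ.re + γ.imI) / 2) ((γ.imI - γ.re) / 2) ((γ.imJ + γ.imK) / 2)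
      ((γ.imK - γ.imJ) / 2) (by norm_num) (by omega) (by omega) (by omega) (by omega)
  · exact key 0 (-1) 0 ((γ.re + γ.imJ) / 2) ((γ.imI - γ.imK) / 2) ((γ.imJ - γ.re) / 2)
      ((γ.imK + γ.imI) / 2) (by norm_num) (by omega) (by omega) (by omega) (by omega)
  · exact key 0 0 (-1) ((γ.re + γ.imK) / 2) ((γ.imI + γ.imJ) / 2) ((γ.imJ - γ.imI) / 2)
      ((γ.imK - γ.re) / 2) (by norm_num) (by omega) (by omega) (by omega) (by omega)

theorem ideal_round (k t : ℤ) (hk : 0 ≤ k) : ∃ y, (t - (2 * k + 1) * y) ^ 2 ≤ k ^ 2 := by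
  refine ⟨(t + k) / (2 * k + 1), sq_le_sq' ?_ ?_⟩
  · have h1 := Int.emod_nonneg (t + k) (show 2 * k + 1 ≠ 0 by omega)
    rw [Int.emod_def] at h1
    linarith
  · have h1 := Int.emod_lt_of_pos (t + k) (show 0 < 2 * k + 1 by omega)
    rw [Int.emod_def] at h1
    linarith

theorem ideal_div {n : ℤ} (ho : Odd n) (hn : 0 < n) (t : O) : ∃ y : O, N (t - n • y) < n ^ 2 := by
  obtain ⟨k, rfl⟩ := ho
  have hk : 0 ≤ k := by omega
  obtain ⟨y0, h0⟩ := ideal_round k t.re hk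
  obtain ⟨y1, h1⟩ := ideal_round k t.imI hk
  obtain ⟨y2, h2⟩ := ideal_round k t.imJ hk
  obtain ⟨y3, h3⟩ := ideal_round k t.imK hk
  refine ⟨⟨y0, y1, y2, y3⟩, ?_⟩
  refine lt_of_eq_of_lt (ideal_N_def _) ?_
  show (t.re - (2 * k + 1) * y0) ^ 2 + (t.imI - (2 * k + 1) * y1) ^ 2 +
    (t.imJ - (2 * k + 1) * y2) ^ 2 + (t.imK - (2 * k + 1) * y3) ^ 2 < _
  nlinarith

theorem exists_gen (I : Ideal O) (b : ℤ) (hb : Odd b) (hI : b • (1 : O) ∈ I) :
    ∃ γ : O, ∀ x, x ∈ I ↔ ∃ y, x = y * γ := by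
  have hb0 : b • (1 : O) ≠ 0 := fun h => by
    have h1 : b * 1 = 0 := congrArg (fun v : O => v.re) h
    obtain ⟨k, hk⟩ := hb
    omega
  obtain ⟨γ, ⟨hγ, h0⟩, hmin⟩ := (measure fun v : O => (N v).natAbs).wf.has_min
    {v | v ∈ I ∧ v ≠ 0} ⟨_, hI, hb0⟩
  have hlt : ∀ x ∈ I, N x < N γ → x = 0 := fun x hx h => by
    by_contra h1
    refine hmin x ⟨hx, h1⟩ ?_
    show (N x).natAbs < (N γ).natAbs
    have := N_nonneg x
    omega
  have hpos := ideal_N_pos h0
  have hodd : Odd (N γ) := by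
    rw [← Int.not_even_iff_odd]
    intro he
    obtain ⟨p, d, hp, hd⟩ := ideal_half he
    obtain ⟨k, hk⟩ := hb
    have h1 : d = d * (b • (1 : O)) - (k • p) * γ := by
      rw [smul_mul_assoc, hd, mul_smul_comm, mul_one, smul_smul, ← sub_smul, hk]
      simp [mul_comm]
    have h2 : d ∈ I := by
      rw [h1]; exact I.sub_mem (I.mul_mem_left _ hI) (I.mul_mem_left _ hγ)
    have h3 := congrArg N hd
    rw [N_mul, N_smul, hp] at h3
    have h4 := hlt d h2 (by linarith)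
    have h5 : N d = 0 := Quaternion.normSq_eq_zero.2 h4
    linarith
  refine ⟨γ, fun x => ⟨fun hx => ?_, fun ⟨y, hy⟩ => hy ▸ I.mul_mem_left _ hγ⟩⟩
  obtain ⟨y, hy⟩ := ideal_div hodd hpos (x * star γ)
  have h1 : (x - y * γ) * star γ = x * star γ - N γ • y := by
    rw [sub_mul, mul_assoc, mul_star_self', mul_smul_comm, mul_one]
  rw [← h1, N_mul, N_star, sq] at hy
  exact ⟨y, sub_eq_zero.1 (hlt _ (I.sub_mem hx (I.mul_mem_left _ hγ))
    (lt_of_mul_lt_mul_right hy hpos.le))⟩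

theorem prim_iff (v : O) : Prim v ↔ ∀ p : ℕ, p.Prime → ¬ ∃ w : O, v = (p : ℤ) • w := by
  refine ⟨fun h p hp ⟨w, hw⟩ => (Nat.prime_iff_prime_int.1 hp).not_isUnit (h _ _ hw),
    fun h c w e => ?_⟩
  rw [Int.isUnit_iff_natAbs_eq]
  by_contra h1
  obtain ⟨p, hp, hd⟩ := Nat.exists_prime_and_dvd h1
  obtain ⟨k, hk⟩ := Int.natCast_dvd.2 hd
  exact h p hp ⟨k • w, by rw [e, hk, mul_smul]⟩

theorem Prim.ne_zero {v : O} (h : Prim v) : v ≠ 0 := by
  rintro rfl
  exact not_isUnit_zero (h 0 0 (by simp))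

theorem Prim.dvd {γ w : O} (h : Prim γ) {c m : ℤ} (e : c • γ = m • w) : m ∣ c := by
  by_cases h0 : (Int.gcd c m : ℤ) = 0
  · have h1 := Int.gcd_dvd_left c m
    rw [h0, zero_dvd_iff] at h1
    rw [h1]; exact dvd_zero m
  obtain ⟨m', hm'⟩ := Int.gcd_dvd_right c m
  have h1 : (Int.gcd c m : ℤ) • γ = m • (Int.gcdA c m • w + Int.gcdB c m • γ) := by
    rw [smul_add, smul_comm m, ← e, smul_smul, smul_smul, ← add_smul, Int.gcd_eq_gcd_ab,
      mul_comm c]
  have h2 : γ = m' • (Int.gcdA c m • w + Int.gcdB c m • γ) :=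
    ideal_cancel h0 (by rw [smul_smul, ← hm', h1])
  have h3 : m ∣ (Int.gcd c m : ℤ) := by
    have h4 := (h _ _ h2).mul_right_dvd.2 (dvd_refl (Int.gcd c m : ℤ))
    rwa [← hm'] at h4
  exact h3.trans (Int.gcd_dvd_left c m)

theorem Prim.star {v : O} (h : Prim v) : Prim (star v) := by
  intro c w e
  exact h c (Star.star w) (by rw [← ideal_star_smul, ← e, star_star])

theorem Prim.left {a b : O} (h : Prim (a * b)) : Prim a := by
  intro c w e
  exact h c (w * b) (by rw [e, smul_mul_assoc])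

theorem Prim.right {a b : O} (h : Prim (a * b)) : Prim b := by
  intro c w e
  exact h c (a * w) (by rw [e, mul_smul_comm])

theorem Prim.mul_coprime {a b : O} (ha : Prim a) (hb : Prim b) (h : IsCoprime (N a) (N b)) :
    Prim (a * b) := by
  intro c w e
  refine h.isUnit_of_dvd' (hb.dvd (w := Star.star a * w) ?_) (ha.dvd (w := w * Star.star b) ?_)
  · rw [← mul_smul_comm, ← e, ← mul_assoc, star_mul_self', smul_mul_assoc, one_mul]
  · rw [← smul_mul_assoc, ← e, mul_assoc, mul_star_self', mul_smul_comm, mul_one]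

theorem prim_of_N_one {v : O} (h : N v = 1) : Prim v := by
  intro c w e
  rw [e, N_smul, sq, mul_assoc] at h
  exact IsUnit.of_mul_eq_one _ h

theorem prim_of_N_prime {v : O} {r : ℕ} (hr : r.Prime) (h : N v = r) : Prim v := by
  intro c w e
  rw [e, N_smul, sq] at h
  exact (Nat.prime_iff_prime_int.1 hr).squarefree c ⟨_, h.symm⟩

theorem star_mem_A {n : ℕ} {v : O} (h : v ∈ A n) : star v ∈ A n := by
  rw [mem_A] at h ⊢
  exact ⟨by rw [N_star, h.1], h.2.star⟩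

theorem exists_content {v : O} (h : v ≠ 0) :
    ∃ c : ℕ, 0 < c ∧ ∃ w : O, Prim w ∧ v = (c : ℤ) • w := by
  induction hn : (N v).natAbs using Nat.strong_induction_on generalizing v with
  | _ n ih =>
    by_cases hv : Prim v
    · exact ⟨1, one_pos, v, hv, by simp⟩
    rw [prim_iff] at hv
    push Not at hv
    obtain ⟨p, hp, w, rfl⟩ := hv
    have hw : w ≠ 0 := fun e => h (by rw [e, smul_zero])
    have h1 := ideal_N_pos hw
    have h2 : (2 : ℤ) ≤ p := by exact_mod_cast hp.two_le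
    have h3 : N w < N ((p : ℤ) • w) := by
      rw [N_smul]
      exact lt_mul_of_one_lt_left h1 (one_lt_pow₀ (by linarith) two_ne_zero)
    obtain ⟨c, hc, w', hw', e⟩ := ih (N w).natAbs (by omega) hw rfl
    exact ⟨p * c, mul_pos hp.pos hc, w', hw', by rw [e, smul_smul, Nat.cast_mul]⟩

theorem exists_right_factor {γ : O} (hγ : Prim γ) {b : ℕ} (hb : Odd b) (hd : (b : ℤ) ∣ N γ) :
    ∃ β : O, N β = b ∧ (∃ α, γ = α * β) ∧
      ∀ α' β' : O, γ = α' * β' → N β' = b → ∃ e : O, N e = 1 ∧ β' = e * β := by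
  have hb0 : (0 : ℤ) < b := by exact_mod_cast hb.pos
  obtain ⟨β, hβ⟩ := exists_gen (Ideal.span {γ, (b : ℤ) • (1 : O)}) b hb.natCast
    (Ideal.subset_span (by simp))
  obtain ⟨α, hα⟩ := (hβ γ).1 (Ideal.subset_span (by simp))
  obtain ⟨w, hw⟩ := (hβ _).1 (Ideal.subset_span (Set.mem_insert_of_mem _ rfl))
  obtain ⟨a, a', ha⟩ := Ideal.mem_span_pair.1 ((hβ β).2 ⟨1, (one_mul β).symm⟩)
  rw [mul_smul_comm, mul_one] at ha
  obtain ⟨c, hc⟩ : (b : ℤ) ∣ N β := by
    obtain ⟨k, hk⟩ := ideal_N_add (a * γ) a' b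
    rw [← ha, hk, N_mul]
    exact dvd_add (hd.mul_left _) (dvd_mul_right _ _)
  have h1 : star β = c • w := ideal_cancel hb0.ne' (by
    rw [smul_smul, ← hc, ← one_mul (star β), ← smul_mul_assoc, hw, mul_assoc, mul_star_self',
      mul_smul_comm, mul_one])
  have h2 : IsUnit c := (hα ▸ hγ : Prim (α * β)).right.star c w h1
  have h3 : N β = b := by
    rcases Int.isUnit_iff.1 h2 with h | h
    · rw [hc, h, mul_one]
    · have := N_nonneg β
      rw [hc, h] at this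
      omega
  refine ⟨β, h3, ⟨α, hα⟩, fun α' β' e hβ' => ?_⟩
  have h4 : β = (a * α' + a' * star β') * β' := by
    rw [add_mul, mul_assoc, mul_assoc, star_mul_self', hβ', ← e, mul_smul_comm, mul_one, ha]
  have h5 : N (a * α' + a' * star β') = 1 := by
    have := congrArg N h4
    rw [N_mul, h3, hβ'] at this
    exact mul_right_cancel₀ hb0.ne' (by rw [← this, one_mul])
  refine ⟨star (a * α' + a' * star β'), by rw [N_star, h5], ?_⟩
  rw [h4, ← mul_assoc, star_mul_self', h5, one_smul, one_mul]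

theorem exists_left_factor {γ : O} (hγ : Prim γ) {b : ℕ} (hb : Odd b) (hd : (b : ℤ) ∣ N γ) :
    ∃ β α : O, N β = b ∧ γ = β * α := by
  obtain ⟨β, h1, ⟨α, h2⟩, _⟩ := exists_right_factor hγ.star hb (by rwa [N_star])
  exact ⟨star β, star α, by rw [N_star, h1], by rw [← star_mul, ← h2, star_star]⟩

theorem jlemma {a b x w : O} (h : Prim (a * b)) {m : ℕ} (hm : Odd m) (ha : N a = m)
    (e : x * (a * b) = (m : ℤ) • w) : ∃ y, x = y * star a := by
  have hm0 : (0 : ℤ) < m := by exact_mod_cast hm.pos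
  let J : Ideal O :=
    { carrier := {x | ∃ w, x * (a * b) = (m : ℤ) • w}
      add_mem' := fun ⟨w, hw⟩ ⟨w', hw'⟩ => ⟨w + w', by rw [add_mul, hw, hw', smul_add]⟩
      zero_mem' := ⟨0, by simp⟩
      smul_mem' := fun c x ⟨w, hw⟩ =>
        ⟨c * w, by rw [smul_eq_mul, mul_assoc, hw, mul_smul_comm]⟩ }
  obtain ⟨j, hj⟩ := exists_gen J m hm.natCast ⟨a * b, by rw [smul_mul_assoc, one_mul]⟩
  obtain ⟨y, hy⟩ := (hj x).1 ⟨w, e⟩
  obtain ⟨f, hf⟩ := (hj (star a)).1
    ⟨b, by rw [← mul_assoc, star_mul_self', ha, smul_mul_assoc, one_mul]⟩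
  obtain ⟨w', hw'⟩ := (hj j).2 ⟨1, (one_mul j).symm⟩
  obtain ⟨k, hk⟩ := h.dvd (c := N j) (m := m) (w := star j * w') (by
    rw [← mul_smul_comm (m : ℤ), ← hw', ← mul_assoc (star j), star_mul_self', smul_mul_assoc,
      one_mul])
  have h1 := congrArg N hf
  rw [N_star, N_mul, ha, hk] at h1
  have h2 : N f * k = 1 := mul_left_cancel₀ hm0.ne' (by linarith)
  have h3 : N f = 1 := Int.eq_one_of_mul_eq_one_right (N_nonneg f) h2
  refine ⟨y * star f, ?_⟩
  rw [hf, mul_assoc, ← mul_assoc (star f), star_mul_self', h3, one_smul, one_mul, hy]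

theorem exists_left_prime {r : ℕ} (hr : r.Prime) (ho : Odd r) (hne : (A r).Nonempty) {α : O}
    (hd : (r : ℤ) ∣ N α) : ∃ β α' : O, N β = r ∧ α = β * α' := by
  obtain ⟨β0, h0⟩ := hne
  have h1 := (mem_A.1 h0).1
  by_cases hα : α = 0
  · exact ⟨β0, 0, h1, by rw [hα, mul_zero]⟩
  obtain ⟨c, _, w, hw, rfl⟩ := exists_content hα
  rw [N_smul] at hd
  have hp := Nat.prime_iff_prime_int.1 hr
  rcases hp.dvd_or_dvd hd with h | h
  · obtain ⟨k, hk⟩ := hp.dvd_of_dvd_pow h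
    refine ⟨β0, star β0 * (k • w), h1, ?_⟩
    rw [← mul_assoc, mul_star_self', h1, smul_mul_assoc, one_mul, smul_smul, hk]
  · obtain ⟨β, α', h2, h3⟩ := exists_left_factor hw ho h
    exact ⟨β, (c : ℤ) • α', h2, by rw [h3, mul_smul_comm]⟩

theorem ideal_mem_A_one {e : O} : e ∈ A 1 ↔ N e = 1 := by
  rw [mem_A, Nat.cast_one]
  exact ⟨fun h => h.1, fun h => ⟨h, prim_of_N_one h⟩⟩

theorem u_pos : 0 < u := by
  exact card_pos.2 ⟨1, ideal_mem_A_one.2 (map_one _)⟩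

theorem card_unit_mul {β : O} (hβ : β ≠ 0) (S : Finset O)
    (hS : ∀ x, x ∈ S ↔ ∃ e : O, N e = 1 ∧ x = e * β) : #S = u := by
  refine (card_bij (fun e _ => e * β) (fun e he => (hS _).2 ⟨e, ideal_mem_A_one.1 he, rfl⟩)
    (fun e _ e' _ h => mul_right_cancel₀ hβ h) fun x hx => ?_).symm
  obtain ⟨e, he, rfl⟩ := (hS x).1 hx
  exact ⟨e, ideal_mem_A_one.2 he, rfl⟩

theorem sum_mul {E : Type*} [AddCommMonoid E] (F : O → E) {m n : ℕ} (hm : m ≠ 0) (hn : Odd n) :
    ∑ α ∈ A m, ∑ v ∈ (A n).filter (fun v => Prim (α * v)), F (α * v) =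
      u • ∑ δ ∈ A (m * n), F δ := by
  have hn0 : (n : ℤ) ≠ 0 := by exact_mod_cast hn.pos.ne'
  have h1 : ∑ α ∈ A m, ∑ v ∈ (A n).filter (fun v => Prim (α * v)), F (α * v) =
      ∑ p ∈ (A m ×ˢ A n).filter (fun p => Prim (p.1 * p.2)), F (p.1 * p.2) := by
    rw [sum_filter, sum_product]
    exact sum_congr rfl fun α _ => sum_filter _ _
  rw [h1, ← sum_fiberwise_of_maps_to' (g := fun p : O × O => p.1 * p.2) (t := A (m * n)),
    smul_sum]
  · refine sum_congr rfl fun δ hδ => ?_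
    obtain ⟨d1, d2⟩ := mem_A.1 hδ
    rw [Nat.cast_mul] at d1
    obtain ⟨β, b1, ⟨α0, b2⟩, b3⟩ := exists_right_factor d2 hn (d1 ▸ dvd_mul_left _ _)
    rw [sum_const, ← card_image_of_injOn (f := Prod.snd), card_unit_mul
      (ideal_ne_zero (v := β) (by rwa [b1]))]
    · intro x
      rw [mem_image]
      constructor
      · rintro ⟨p, hp, rfl⟩
        simp only [mem_filter, mem_product] at hp
        exact b3 p.1 p.2 hp.2.symm (mem_A.1 hp.1.1.2).1
      · rintro ⟨e, he, rfl⟩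
        have h2 : α0 * star e * (e * β) = δ := by
          rw [mul_assoc, ← mul_assoc (star e), star_mul_self', he, one_smul, one_mul, b2]
        have h3 : N (e * β) = n := by rw [N_mul, he, b1, one_mul]
        have h4 : Prim (α0 * star e * (e * β)) := h2 ▸ d2
        have h5 : N (α0 * star e) = m :=
          mul_right_cancel₀ hn0 (by rw [← d1, ← h2, N_mul _ (e * β), h3])
        refine ⟨(α0 * star e, e * β), ?_, rfl⟩
        simp only [mem_filter, mem_product]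
        exact ⟨⟨⟨mem_A.2 ⟨h5, h4.left⟩, mem_A.2 ⟨h3, h4.right⟩⟩, h4⟩, h2⟩
    · intro p hp q hq h
      simp only [coe_filter, mem_filter, mem_product, Set.mem_ofPred_eq] at hp hq
      refine Prod.ext (mul_right_cancel₀ (mem_A.1 hq.1.1.2).2.ne_zero ?_) h
      rw [hq.2, ← h, hp.2]
  · intro p hp
    simp only [mem_filter, mem_product] at hp
    exact mem_A.2 ⟨by rw [N_mul, (mem_A.1 hp.1.1).1, (mem_A.1 hp.1.2).1, Nat.cast_mul], hp.2⟩

theorem sum_mul_coprime {E : Type*} [AddCommMonoid E] (F : O → E) {m n : ℕ} (hm : m ≠ 0)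
    (hn : Odd n) (h : Nat.Coprime m n) :
    ∑ α ∈ A m, ∑ v ∈ A n, F (α * v) = u • ∑ δ ∈ A (m * n), F δ := by
  rw [← sum_mul F hm hn]
  refine sum_congr rfl fun α hα => ?_
  rw [filter_true_of_mem fun v hv => (mem_A.1 hα).2.mul_coprime (mem_A.1 hv).2 (by
    rw [(mem_A.1 hα).1, (mem_A.1 hv).1]; exact Nat.isCoprime_iff_coprime.2 h)]

theorem sum_right {E : Type*} [AddCommMonoid E] (F : O → E) {n R : ℕ} (hR : R ≠ 0) {β : O}
    (hβ : N β = R) :
    ∑ δ ∈ (A (n * R)).filter (fun δ => ∃ y, δ = y * β), F δ =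
      ∑ v ∈ (A n).filter (fun v => Prim (v * β)), F (v * β) := by
  have hR' : (R : ℤ) ≠ 0 := by exact_mod_cast hR
  refine (sum_bij (fun v _ => v * β) (fun v hv => ?_)
    (fun v _ v' _ h => mul_right_cancel₀ (ideal_ne_zero (by rwa [hβ])) h) (fun δ hδ => ?_)
    fun _ _ => rfl).symm
  · rw [mem_filter] at hv ⊢
    exact ⟨mem_A.2 ⟨by rw [N_mul, (mem_A.1 hv.1).1, hβ, Nat.cast_mul], hv.2⟩, v, rfl⟩
  · obtain ⟨h1, y, rfl⟩ := mem_filter.1 hδ
    obtain ⟨h2, h3⟩ := mem_A.1 h1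
    rw [N_mul, hβ, Nat.cast_mul] at h2
    exact ⟨y, mem_filter.2 ⟨mem_A.2 ⟨mul_right_cancel₀ hR' h2, h3.left⟩, h3⟩, rfl⟩

end Pool.Agent.Lib.MP_f6c7cf_nt.E
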