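import Pool.Agent.Lib.MP_f6c7cf_nt.E.Defs
import Pool.Agent.Lib.MP_f6c7cf_nt.E.Crt

/-! Exponent patterns avoiding all primes of a finite set. -/

namespace Pool.Agent.Lib.MP_f6c7cf_nt.E

open Finset
open scoped Quaternion RealInnerProductSpace Classical Matrix

/-- The linear form attached to the pattern used for `n`. -/
def D (n : ℕ) : ℕ :=
  if n % 4 = 1 then 5 * n - 4 else if n % 3 = 1 then 29 * n - 6
  else if n % 3 = 0 then 9 * n - 2 else 3 * (9 * n - 2)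

/-- The discriminant attached to the pattern used for `n`. -/
def δ (n : ℕ) : ℕ := if n % 4 = 1 then 5 else if n % 3 = 1 then 29 else 1

namespace LocalAux

/-! ### Solutions modulo prime powers -/

lemma lift {p : ℕ} (hp : p.Prime) (α β γ : ℤ) (e : ℕ) (a₀ W₀ : ZMod p)
    (h0 : α * a₀ ^ 2 + β * a₀ + γ + W₀ ^ 2 = 0)
    (h1 : e ≤ 1 ∨ 2 * α * a₀ + β ≠ 0 ∨ 2 * W₀ ≠ 0) :
    ∃ a W : ℤ, (a : ZMod p) = a₀ ∧ (p : ℤ) ^ e ∣ α * a ^ 2 + β * a + γ + W ^ 2 := by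
  obtain ⟨a, rfl⟩ := ZMod.intCast_surjective a₀
  obtain ⟨W, rfl⟩ := ZMod.intCast_surjective W₀
  have h2 : (p : ℤ) ∣ α * a ^ 2 + β * a + γ + W ^ 2 := by
    rw [← ZMod.intCast_zmod_eq_zero_iff_dvd]
    push_cast
    exact h0
  rcases h1 with h1 | h1 | h1
  · refine ⟨a, W, rfl, (pow_dvd_pow _ h1).trans ?_⟩
    rwa [pow_one]
  · obtain ⟨x, hx1, hx2⟩ := hensel hp (a := α) (b := β) (c := γ + W ^ 2) (x₀ := a)
      (by rwa [← add_assoc]) (by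
        rw [← ZMod.intCast_zmod_eq_zero_iff_dvd]
        push_cast
        exact h1) e
    exact ⟨x, W, (ZMod.intCast_eq_intCast_iff _ _ _).2 hx1, by rwa [add_assoc]⟩
  · obtain ⟨x, _, hx2⟩ := hensel hp (a := 1) (b := 0) (c := α * a ^ 2 + β * a + γ) (x₀ := W)
      (by convert h2 using 1; ring) (by
        rw [← ZMod.intCast_zmod_eq_zero_iff_dvd]
        push_cast
        simpa using h1) e
    exact ⟨a, x, rfl, by convert hx2 using 1; ring⟩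

lemma sol {p : ℕ} [Fact p.Prime] (hp2 : p ≠ 2) (α d : ZMod p) (hα : α ≠ 0) :
    ∃ u W : ZMod p, u ^ 2 + α * W ^ 2 = d ∧ ((d = 0 → IsSquare (-α)) → u ≠ 0 ∨ W ≠ 0) := by
  by_cases h : d = 0 ∧ IsSquare (-α)
  · obtain ⟨rfl, s, hs⟩ := h
    exact ⟨s, 1, by linear_combination -hs, fun _ => Or.inr one_ne_zero⟩
  · have hodd : Fintype.card (ZMod p) % 2 = 1 := by
      rw [ZMod.card]
      exact ((Fact.out : p.Prime).eq_two_or_odd).resolve_left hp2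
    obtain ⟨u, W, huW⟩ := FiniteField.exists_root_sum_quadratic
      (f := (Polynomial.X ^ 2 - Polynomial.C d : Polynomial (ZMod p)))
      (g := Polynomial.C α * Polynomial.X ^ 2) (Polynomial.degree_X_pow_sub_C (by norm_num) _)
      (Polynomial.degree_C_mul_X_pow _ hα) hodd
    simp only [Polynomial.eval_sub, Polynomial.eval_pow, Polynomial.eval_X, Polynomial.eval_C,
      Polynomial.eval_mul] at huW
    refine ⟨u, W, by linear_combination huW, fun hd => ?_⟩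
    by_contra hne
    push Not at hne
    obtain ⟨rfl, rfl⟩ := hne
    have h0 : d = 0 := by linear_combination -huW
    exact h ⟨h0, hd h0⟩

lemma two_ne {p : ℕ} [Fact p.Prime] (hp2 : p ≠ 2) : (2 : ZMod p) ≠ 0 := by
  intro h
  have h1 : ((2 : ℕ) : ZMod p) = 0 := by exact_mod_cast h
  rw [ZMod.natCast_eq_zero_iff] at h1
  exact hp2 ((Nat.prime_dvd_prime_iff_eq Fact.out Nat.prime_two).1 h1)

/-- the generic odd prime -/
lemma loc {p : ℕ} (hp : p.Prime) (hp2 : p ≠ 2) (α β γ : ℤ) (e : ℕ) (hα : ¬ (p : ℤ) ∣ α)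
    (h : 2 ≤ e → (p : ℤ) ∣ β ^ 2 - α * γ → IsSquare (-(α : ZMod p))) :
    ∃ a W : ℤ, (p : ℤ) ^ e ∣ α * a ^ 2 + 2 * β * a + γ + W ^ 2 ∧
      (¬ (p : ℤ) ∣ 2 * β - α → ¬ (p : ℤ) ∣ 2 * a + 1) := by
  have : Fact p.Prime := ⟨hp⟩
  have h2 := two_ne hp2
  have hα' : (α : ZMod p) ≠ 0 := by rwa [Ne, ZMod.intCast_zmod_eq_zero_iff_dvd]
  obtain ⟨u, W, h3, h4⟩ := sol hp2 (α : ZMod p) ((β : ZMod p) ^ 2 - α * γ) hα'
  have key : ∀ u : ZMod p, u ^ 2 + α * W ^ 2 = (β : ZMod p) ^ 2 - α * γ →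
      (2 ≤ e → u ≠ 0 ∨ W ≠ 0) → ((2 * β - α : ZMod p) ≠ 0 → 2 * u ≠ 2 * β - α) →
      ∃ a W : ℤ, (p : ℤ) ^ e ∣ α * a ^ 2 + 2 * β * a + γ + W ^ 2 ∧
        (¬ (p : ℤ) ∣ 2 * β - α → ¬ (p : ℤ) ∣ 2 * a + 1) := by
    intro u h5 h6 h7
    obtain ⟨a₀, rfl⟩ : ∃ a₀ : ZMod p, u = α * a₀ + β :=
      ⟨(u - β) / α, by field_simp; ring⟩
    obtain ⟨a, W', ha, hd⟩ := lift hp α (2 * β) γ e a₀ W (by
      apply mul_left_cancel₀ hα'
      push_cast
      linear_combination h5) (by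
      by_cases he : e ≤ 1
      · exact Or.inl he
      · right
        rcases h6 (by omega) with h8 | h8
        · left
          push_cast
          intro h9
          exact mul_ne_zero h2 h8 (by linear_combination h9)
        · exact Or.inr (mul_ne_zero h2 h8))
    refine ⟨a, W', hd, fun h8 h9 => ?_⟩
    rw [← ZMod.intCast_zmod_eq_zero_iff_dvd] at h8 h9
    push_cast at h8 h9
    rw [ha] at h9
    exact h7 h8 (by linear_combination (α : ZMod p) * h9)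
  have h5 : 2 ≤ e → u ≠ 0 ∨ W ≠ 0 := fun he => h4 fun hd => h he (by
    rw [← ZMod.intCast_zmod_eq_zero_iff_dvd]
    push_cast
    exact hd)
  by_cases h6 : 2 * u = 2 * β - α
  · refine key (-u) (by linear_combination h3) (fun he => by simpa using h5 he) fun h7 h8 => ?_
    exact mul_ne_zero h2 h7 (by linear_combination -h6 - h8)
  · exact key u h3 h5 fun _ => h6

/-- a special prime, checked by enumeration -/
lemma spec {p : ℕ} (hp : p.Prime) (α β γ n : ℤ) (e : ℕ)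
    (h : ∀ m : ZMod p, ∃ a W : ZMod p, α * a ^ 2 + β * a + (γ - m) + W ^ 2 = 0 ∧
      (2 * α * a + β ≠ 0 ∨ 2 * W ≠ 0) ∧ 2 * a + 1 ≠ 0) :
    ∃ a W : ℤ, (p : ℤ) ^ e ∣ α * a ^ 2 + β * a + (γ - n) + W ^ 2 ∧ ¬ (p : ℤ) ∣ 2 * a + 1 := by
  obtain ⟨a₀, W₀, h1, h2, h3⟩ := h n
  obtain ⟨a, W, ha, hd⟩ := lift hp α β (γ - n) e a₀ W₀ (by push_cast; exact h1) (Or.inr h2)
  refine ⟨a, W, hd, fun h4 => h3 ?_⟩
  rw [← ZMod.intCast_zmod_eq_zero_iff_dvd] at h4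
  push_cast at h4
  rwa [ha] at h4

lemma ndvd {p q : ℕ} (hp : p.Prime) (hq : q.Prime) (h : p ≠ q) : ¬ (p : ℤ) ∣ (q : ℤ) :=
  fun h1 => h ((Nat.prime_dvd_prime_iff_eq hp hq).1 (Int.natCast_dvd_natCast.1 h1))

lemma loc1 {p : ℕ} (hp : p.Prime) (hp2 : p ≠ 2) (n : ℤ) (e : ℕ)
    (h : 2 ≤ e → (p : ℤ) ∣ 5 * n - 4 → IsSquare (-(5 : ZMod p))) :
    ∃ a W : ℤ, (p : ℤ) ^ e ∣ 5 * a ^ 2 + 12 * a + (8 - n) + W ^ 2 ∧ ¬ (p : ℤ) ∣ 2 * a + 1 := by
  by_cases h5 : p = 5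
  · subst h5
    exact spec hp 5 12 8 n e (by decide +kernel)
  by_cases h7 : p = 7
  · subst h7
    exact spec hp 5 12 8 n e (by decide +kernel)
  obtain ⟨a, W, h1, h2⟩ := loc hp hp2 5 6 (8 - n) e (ndvd hp Nat.prime_five h5) (fun he hd => by
    simpa using h he (by convert hd using 1; ring))
  exact ⟨a, W, h1.trans (dvd_of_eq (by ring)), h2 (ndvd hp (by norm_num : Nat.Prime 7) h7)⟩

lemma loc2 {p : ℕ} (hp : p.Prime) (hp2 : p ≠ 2) (n : ℤ) (e : ℕ)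
    (h : 2 ≤ e → (p : ℤ) ∣ 29 * n - 6 → IsSquare (-(29 : ZMod p))) :
    ∃ a W : ℤ, (p : ℤ) ^ e ∣ 29 * a ^ 2 + 18 * a + (3 - n) + W ^ 2 ∧ ¬ (p : ℤ) ∣ 2 * a + 1 := by
  by_cases h5 : p = 29
  · subst h5
    exact spec hp 29 18 3 n e (by decide +kernel)
  by_cases h7 : p = 11
  · subst h7
    exact spec hp 29 18 3 n e (by decide +kernel)
  obtain ⟨a, W, h1, h2⟩ := loc hp hp2 29 9 (3 - n) e (ndvd hp (by norm_num : Nat.Prime 29) h5)
    (fun he hd => by simpa using h he (by convert hd using 1; ring))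
  refine ⟨a, W, h1.trans (dvd_of_eq (by ring)), h2 fun h3 => ndvd hp (by norm_num : Nat.Prime 11) h7 ?_⟩
  exact (dvd_neg.1 (by simpa using h3))

lemma loc3 {p : ℕ} (hp : p.Prime) (hp2 : p ≠ 2) (hp3 : p ≠ 3) (n : ℤ) (e : ℕ)
    (h : 2 ≤ e → (p : ℤ) ∣ 9 * n - 2 → IsSquare (-(1 : ZMod p))) :
    ∃ a W : ℤ, (p : ℤ) ^ e ∣ 9 * a ^ 2 + (-8) * a + (2 - n) + W ^ 2 := by
  obtain ⟨a, W, h1, _⟩ := loc hp hp2 9 (-4) (2 - n) e (fun h3 => ndvd hp Nat.prime_three hp3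
    ((Nat.prime_iff_prime_int.1 hp).dvd_of_dvd_pow (n := 2) (by simpa using h3)))
    (fun he hd => by
      obtain ⟨s, hs⟩ := h he (by convert hd using 1; ring)
      exact ⟨3 * s, by push_cast; linear_combination 9 * hs⟩)
  exact ⟨a, W, h1.trans (dvd_of_eq (by ring))⟩

/-- the prime two -/
lemma loc_two (α β γ r s t : ℤ) (e : ℕ) (hβ : 8 * α * r + 4 * β = 8 * (2 * s + 1))
    (hγ : α * r ^ 2 + β * r + γ = 4 * t) :
    ∃ a W : ℤ, ((2 : ℕ) : ℤ) ^ e ∣ α * a ^ 2 + β * a + γ + W ^ 2 ∧ a % 4 = r % 4 ∧ Even W := by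
  obtain ⟨w, k, hw⟩ : ∃ w k : ℤ, t + w ^ 2 = 2 * k := by
    rcases Int.even_or_odd' t with ⟨k, hk | hk⟩
    · exact ⟨0, k, by linear_combination hk⟩
    · exact ⟨1, k + 1, by linear_combination hk⟩
  obtain ⟨b, _, hb⟩ := hensel Nat.prime_two (a := 2 * α) (b := 2 * s + 1) (c := k) (x₀ := k)
    ⟨α * k ^ 2 + s * k + k, by push_cast; ring⟩ (by
      rintro ⟨t, ht⟩
      have h3 : 2 * (2 * α * k + s - t) + 1 = 0 := by push_cast at ht; linear_combination ht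
      omega) e
  refine ⟨4 * b + r, 2 * w, ?_, by omega, even_two_mul w⟩
  have : α * (4 * b + r) ^ 2 + β * (4 * b + r) + γ + (2 * w) ^ 2 =
      8 * (2 * α * b ^ 2 + (2 * s + 1) * b + k) := by
    linear_combination b * hβ + hγ + 4 * hw
  rw [this]
  exact hb.mul_left _

/-- the prime three with `a = 0` -/
lemma loc_three (α β γ : ℤ) (e : ℕ) (h : (γ + 1) % 3 = 0 ∨ (γ % 3 = 0 ∧ e ≤ 1)) :
    ∃ W : ℤ, ((3 : ℕ) : ℤ) ^ e ∣ α * 0 ^ 2 + β * 0 + γ + W ^ 2 := by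
  rcases h with h | ⟨h, he⟩
  · obtain ⟨x, _, hx⟩ := hensel Nat.prime_three (a := 1) (b := 0) (c := γ) (x₀ := 1)
      (by push_cast; omega) (by norm_num) e
    exact ⟨x, by convert hx using 1; ring⟩
  · refine ⟨0, (pow_dvd_pow _ he).trans ?_⟩
    push_cast
    omega

lemma glue {R : ℕ} (hR : R ≠ 0) (α β γ : ℤ) (S : ℕ → ℤ → ℤ → Prop)
    (h : ∀ p ∈ R.primeFactors, ∃ a W : ℤ,
      (p : ℤ) ^ R.factorization p ∣ α * a ^ 2 + β * a + γ + W ^ 2 ∧ S p a W) :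
    ∃ a W : ℤ, (R : ℤ) ∣ α * a ^ 2 + β * a + γ + W ^ 2 ∧ ∀ p ∈ R.primeFactors, ∃ a' W' : ℤ,
      (p : ℤ) ^ R.factorization p ∣ a' - a ∧ (p : ℤ) ^ R.factorization p ∣ W' - W ∧ S p a' W' := by
  choose! fa fW hf using h
  obtain ⟨x, hx⟩ := crt (ι := Bool) R fun p i => if i then fa p else fW p
  refine ⟨x true, x false, ?_, fun p hp => ⟨fa p, fW p, ?_, ?_, (hf p hp).2⟩⟩
  · rw [← Int.modEq_zero_iff_dvd]
    refine modEq_of_local hR fun p hp => ?_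
    have h1 : x true ≡ fa p [ZMOD ((p ^ R.factorization p : ℕ) : ℤ)] := by simpa using hx p hp true
    have h2 : x false ≡ fW p [ZMOD ((p ^ R.factorization p : ℕ) : ℤ)] := by
      simpa using hx p hp false
    refine (((((h1.pow 2).mul_left α).add (h1.mul_left β)).add_right γ).add (h2.pow 2)).trans ?_
    rw [Int.modEq_zero_iff_dvd]
    push_cast
    exact (hf p hp).1
  · have h1 : x true ≡ fa p [ZMOD ((p ^ R.factorization p : ℕ) : ℤ)] := by simpa using hx p hp true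
    simpa using h1.dvd
  · have h2 : x false ≡ fW p [ZMOD ((p ^ R.factorization p : ℕ) : ℤ)] := by
      simpa using hx p hp false
    simpa using h2.dvd

/-- the global solution with all side conditions -/
lemma glue' {L : ℕ} (hL : L ≠ 0) (α β γ r : ℤ) (T U : Prop)
    (h2 : ∀ e, ∃ a W : ℤ, ((2 : ℕ) : ℤ) ^ e ∣ α * a ^ 2 + β * a + γ + W ^ 2 ∧ a % 4 = r ∧ Even W)
    (h3 : T → ∀ e, (2 ≤ e → 3 ^ 2 ∣ L) →
      ∃ W : ℤ, ((3 : ℕ) : ℤ) ^ e ∣ α * 0 ^ 2 + β * 0 + γ + W ^ 2)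
    (h : ∀ p : ℕ, p.Prime → p ≠ 2 → (T → p ≠ 3) → ∀ e, (2 ≤ e → p ^ 2 ∣ L) → ∃ a W : ℤ,
      (p : ℤ) ^ e ∣ α * a ^ 2 + β * a + γ + W ^ 2 ∧ (U → ¬ (p : ℤ) ∣ 2 * a + 1)) :
    ∃ a W : ℤ, ((8 * L : ℕ) : ℤ) ∣ α * a ^ 2 + β * a + γ + W ^ 2 ∧ a % 4 = r ∧ Even W ∧
      (T → ∀ k : ℕ, 3 ^ k ∣ L → (3 : ℤ) ^ k ∣ a) ∧
      (U → ∀ p : ℕ, p.Prime → p ∣ 8 * L → ¬ (p : ℤ) ∣ 2 * a + 1) := by
  have hR : 8 * L ≠ 0 := by omega
  have hsq : ∀ p : ℕ, p.Prime → p ≠ 2 → 2 ≤ (8 * L).factorization p → p ^ 2 ∣ L := by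
    intro p hp hp2 he
    have h1 : p ^ 2 ∣ 8 * L := (hp.pow_dvd_iff_le_factorization hR).2 he
    refine Nat.Coprime.dvd_of_dvd_mul_left ?_ h1
    exact Nat.Coprime.pow 2 3 ((Nat.coprime_primes hp Nat.prime_two).2 hp2)
  obtain ⟨a, W, hd, hS⟩ := glue hR α β γ (fun p a W => (p = 2 → a % 4 = r ∧ Even W) ∧
      (T → p = 3 → a = 0) ∧ (U → ¬ (p : ℤ) ∣ 2 * a + 1)) (by
    intro p hp
    have hp' := Nat.prime_of_mem_primeFactors hp
    by_cases hp2 : p = 2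
    · subst hp2
      obtain ⟨a, W, h4, h5, h6⟩ := h2 ((8 * L).factorization 2)
      exact ⟨a, W, h4, fun _ => ⟨h5, h6⟩, fun _ h => by omega, fun _ => by push_cast; omega⟩
    by_cases hp3 : T ∧ p = 3
    · obtain ⟨hT, rfl⟩ := hp3
      obtain ⟨W, h4⟩ := h3 hT _ (hsq 3 hp' hp2)
      exact ⟨0, W, h4, fun h => by omega, fun _ _ => rfl, fun _ => by norm_num⟩
    · obtain ⟨a, W, h4, h5⟩ := h p hp' hp2 (fun hT h => hp3 ⟨hT, h⟩) _ (hsq p hp' hp2)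
      exact ⟨a, W, h4, fun h => absurd h hp2, fun hT h => absurd ⟨hT, h⟩ hp3, h5⟩)
  have hm : ∀ p : ℕ, p.Prime → p ∣ 8 * L → p ∈ (8 * L).primeFactors := fun p hp hd =>
    Nat.mem_primeFactors.2 ⟨hp, hd, hR⟩
  obtain ⟨a', W', h4, h5, h6, -⟩ := hS 2 (hm 2 Nat.prime_two ⟨4 * L, by ring⟩)
  obtain ⟨h7, h8⟩ := h6 rfl
  have h9 : 2 ≤ (8 * L).factorization 2 :=
    (Nat.prime_two.pow_dvd_iff_le_factorization hR).1 ⟨2 * L, by ring⟩
  have h10 := (pow_dvd_pow _ h9).trans h4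
  have h11 := (pow_dvd_pow _ h9).trans h5
  push_cast at h10 h11
  refine ⟨a, W, hd, by omega, ?_, fun hT k hk => ?_, fun hU p hp hpd => ?_⟩
  · rw [Int.even_iff] at h8 ⊢
    omega
  · rcases Nat.eq_zero_or_pos k with rfl | hk0
    · simp
    have hk' : 3 ^ k ∣ 8 * L := hk.mul_left _
    obtain ⟨a'', _, h12, -, -, h13, -⟩ := hS 3
      (hm 3 Nat.prime_three ((dvd_pow_self 3 hk0.ne').trans hk'))
    rw [h13 hT rfl, zero_sub, dvd_neg] at h12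
    exact (pow_dvd_pow _ ((Nat.prime_three.pow_dvd_iff_le_factorization hR).1 hk')).trans h12
  · obtain ⟨a'', _, h12, -, -, -, h13⟩ := hS p (hm p hp hpd)
    have h14 : (p : ℤ) ∣ a'' - a :=
      (dvd_pow_self _ (hp.factorization_pos_of_dvd hR hpd).ne').trans h12
    intro h15
    apply h13 hU
    exact (h15.add (h14.mul_left 2)).trans (dvd_of_eq (by ring))

/-! ### Powers of two in a field -/

section Field

variable {K : Type} [Field K]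

lemma ord_dvd {g : K} (hg : g ≠ 0) {t : ℤ} : (orderOf g : ℤ) ∣ t ↔ g ^ t = 1 := by
  have h := orderOf_dvd_iff_zpow_eq_one (x := Units.mk0 g hg) (i := t)
  rw [← orderOf_units, Units.val_mk0, Units.ext_iff] at h
  simpa using h

lemma zpow_congr {g : K} (hg : g ≠ 0) {M : ℤ} (hM : (orderOf g : ℤ) ∣ M) {x : ℕ} {c : ℤ}
    (h : (x : ℤ) ≡ c [ZMOD M]) : g ^ x = g ^ c := by
  have h1 : g ^ (c - x) = 1 := (ord_dvd hg).1 (hM.trans h.dvd)
  rw [zpow_sub₀ hg, div_eq_one_iff_eq (zpow_ne_zero _ hg), zpow_natCast] at h1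
  exact h1.symm

lemma three_part {d : ℕ} (hd : d ≠ 0) {t : ℤ} (h : (d : ℤ) ∣ 3 * t)
    (h3 : ∀ k : ℕ, 3 ^ k ∣ d → (3 : ℤ) ^ k ∣ t) : (d : ℤ) ∣ t := by
  obtain ⟨k, d', h1, rfl⟩ := Nat.exists_eq_pow_mul_and_not_dvd hd 3 (by norm_num)
  have h2 : IsCoprime (d' : ℤ) 3 := by
    have := ((Nat.Prime.coprime_iff_not_dvd Nat.prime_three).2 h1).symm
    exact_mod_cast Nat.isCoprime_iff_coprime.2 this
  push_cast at h ⊢
  refine IsCoprime.mul_dvd (h2.symm.pow_left) (h3 k (Dvd.intro _ rfl)) ?_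
  exact h2.dvd_of_dvd_mul_left ((Dvd.intro_left _ rfl).trans h)

lemma four {a : ℤ} (h2 : (2 : K) ≠ 0) (hc : IsCoprime (orderOf (2 : K) : ℤ) (2 * a + 1))
    (h : 1 + 2 * (2 : K) ^ a + 2 * ((2 : K) ^ a) ^ 2 = 0) : (2 : K) ^ (4 : ℤ) = 1 := by
  rw [← ord_dvd h2]
  refine hc.dvd_of_dvd_mul_left ((ord_dvd h2).2 ?_)
  have e : (2 : K) ^ ((2 * a + 1) * 4) = 16 * ((2 : K) ^ a) ^ 8 := by
    rw [show (2 * a + 1) * 4 = 4 + a * (8 : ℕ) by push_cast; ring, zpow_add₀ h2, zpow_mul,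
      zpow_natCast]
    norm_num
  rw [e]
  linear_combination (1 - 2 * (2 : K) ^ a + 2 * ((2 : K) ^ a) ^ 2) *
    (4 * ((2 : K) ^ a) ^ 4 - 1) * h

lemma pow_mod {a r m : ℤ} (h2 : (2 : K) ≠ 0) (h : (2 : K) ^ m = 1) (hr : m ∣ a - r) :
    (2 : K) ^ a = 2 ^ r := by
  obtain ⟨k, hk⟩ := hr
  rw [show a = r + m * k by linear_combination hk, zpow_add₀ h2, zpow_mul, h, one_zpow, mul_one]

lemma case1 {a : ℤ} (h2 : (2 : K) ≠ 0) (hc : IsCoprime (orderOf (2 : K) : ℤ) (2 * a + 1))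
    (ha : a % 4 = 1) : (2 : K) ^ (0 : ℤ) + 2 ^ (a + 2) + 2 ^ (2 * a + 2) + 1 ≠ 0 := by
  intro h
  rw [zpow_add₀ h2, zpow_add₀ h2, show 2 * a = a * (2 : ℕ) by push_cast; ring, zpow_mul,
    zpow_natCast, zpow_zero, zpow_two] at h
  have h3 : 1 + 2 * (2 : K) ^ a + 2 * ((2 : K) ^ a) ^ 2 = 0 := by
    apply mul_left_cancel₀ h2
    linear_combination h
  have h4 := four h2 hc h3
  rw [pow_mod (r := 1) h2 h4 (by omega), zpow_one] at h3
  rw [show (4 : ℤ) = (4 : ℕ) from rfl, zpow_natCast] at h4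
  exact h2 (by linear_combination h4 - h3)

lemma case2 {a : ℤ} (h2 : (2 : K) ≠ 0) (hd : orderOf (2 : K) ≠ 0)
    (hc : IsCoprime (orderOf (2 : K) : ℤ) (2 * a + 1)) (ha : a % 4 = 2)
    (h3 : ∀ k : ℕ, 3 ^ k ∣ orderOf (2 : K) → (3 : ℤ) ^ k ∣ a) :
    (2 : K) ^ (-4 * a - 1) + 2 ^ (-3 * a - 1) + 2 ^ (-2 * a - 1) + 1 ≠ 0 := by
  intro h
  have e : ∀ j : ℕ, (2 : K) ^ (-(j : ℤ) * a - 1) * (2 * ((2 : K) ^ a) ^ j) = 1 := by
    intro j
    rw [← zpow_natCast, ← zpow_mul, ← zpow_one_add₀ h2, ← zpow_add₀ h2]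
    convert zpow_zero (2 : K) using 2
    ring
  have e4 := e 4
  have e3 := e 3
  have e2 := e 2
  push_cast at e4 e3 e2
  have h4 : (1 + 2 * (2 : K) ^ a + 2 * ((2 : K) ^ a) ^ 2) *
      (1 - (2 : K) ^ a + ((2 : K) ^ a) ^ 2) = 0 := by
    linear_combination (2 * ((2 : K) ^ a) ^ 4) * h - e4 - (2 : K) ^ a * e3 -
      ((2 : K) ^ a) ^ 2 * e2
  rcases mul_eq_zero.1 h4 with h5 | h5
  · have h6 := four h2 hc h5
    rw [pow_mod (r := 2) h2 h6 (by omega), zpow_two] at h5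
    rw [show (4 : ℤ) = (4 : ℕ) from rfl, zpow_natCast] at h6
    exact one_ne_zero (α := K) (by linear_combination 11 * h6 - 4 * h5)
  · have h6 : (2 : K) ^ (3 * (2 * a)) = 1 := by
      rw [show 3 * (2 * a) = a * (6 : ℕ) by push_cast; ring, zpow_mul, zpow_natCast]
      linear_combination ((2 : K) ^ a + 1) * (((2 : K) ^ a) ^ 3 - 1) * h5
    have h7 := (ord_dvd h2).1 (three_part hd ((ord_dvd h2).2 h6)
      fun k hk => (h3 k hk).mul_left 2)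
    rw [show 2 * a = a * (2 : ℕ) by push_cast; ring, zpow_mul, zpow_natCast] at h7
    have h8 : (2 : K) ^ a = 2 := by linear_combination h7 - h5
    have h9 : (2 : K) ^ (2 : ℤ) = 1 := by
      rw [h8] at h7
      rw [zpow_two]
      linear_combination h7
    rw [pow_mod (r := 0) h2 h9 (by omega), zpow_zero] at h8
    exact one_ne_zero (α := K) (by linear_combination -h8)

lemma case3 {a : ℤ} (h2 : (2 : K) ≠ 0) (hd : orderOf (2 : K) ≠ 0) (ha : a % 4 = 1)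
    (h3 : ∀ k : ℕ, 3 ^ k ∣ orderOf (2 : K) → (3 : ℤ) ^ k ∣ a) :
    (2 : K) ^ a + 2 ^ (2 * a - 1) + 2 ^ (2 * a - 1) + 1 ≠ 0 := by
  intro h
  have e : (2 : K) ^ (2 * a - 1) * 2 = ((2 : K) ^ a) ^ 2 := by
    rw [← zpow_add_one₀ h2, ← zpow_natCast, ← zpow_mul]
    congr 1
    push_cast
    ring
  have h5 : 1 + (2 : K) ^ a + ((2 : K) ^ a) ^ 2 = 0 := by linear_combination h - e
  have h6 : (2 : K) ^ (3 * a) = 1 := by
    rw [show 3 * a = a * (3 : ℕ) by push_cast; ring, zpow_mul, zpow_natCast]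
    linear_combination ((2 : K) ^ a - 1) * h5
  have h7 := (ord_dvd h2).1 (three_part hd ((ord_dvd h2).2 h6) h3)
  have h9 : (2 : K) ^ (2 : ℤ) = 1 := by
    rw [h7] at h5
    rw [zpow_two]
    linear_combination h5
  rw [pow_mod (r := 1) h2 h9 (by omega), zpow_one] at h7
  exact one_ne_zero (α := K) (by linear_combination h7)

end Field

lemma lcm_sq {ι : Type} (Q : Finset ι) (f : ι → ℕ) (hf : ∀ q ∈ Q, f q ≠ 0) {p : ℕ}
    (hp : p.Prime) (h : p ^ 2 ∣ Q.lcm f) : ∃ q ∈ Q, p ^ 2 ∣ f q := by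
  induction Q using Finset.induction_on with
  | empty =>
    rw [Finset.lcm_empty] at h
    exact absurd (Nat.dvd_one.1 ((dvd_pow_self p two_ne_zero).trans h)) hp.ne_one
  | insert i s hi ih =>
    have h1 : f i ≠ 0 := hf i (mem_insert_self _ _)
    have h2 : s.lcm f ≠ 0 := by
      rw [Ne, Finset.lcm_eq_zero_iff]
      rintro ⟨q, hq, hq0⟩
      exact hf q (mem_insert_of_mem hq) hq0
    rw [Finset.lcm_insert, lcm_eq_nat_lcm,
      hp.pow_dvd_iff_le_factorization (Nat.lcm_ne_zero h1 h2), Nat.factorization_lcm h1 h2,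
      Finsupp.sup_apply, le_sup_iff, ← hp.pow_dvd_iff_le_factorization h1,
      ← hp.pow_dvd_iff_le_factorization h2] at h
    rcases h with h | h
    · exact ⟨i, mem_insert_self _ _, h⟩
    · obtain ⟨q, hq, hq'⟩ := ih (fun q hq => hf q (mem_insert_of_mem hq)) h
      exact ⟨q, mem_insert_of_mem hq, hq'⟩

lemma coprime_of {d : ℕ} {t : ℤ} (h : ∀ p : ℕ, p.Prime → p ∣ d → ¬ (p : ℤ) ∣ t) :
    IsCoprime (d : ℤ) t := by
  rw [Int.isCoprime_iff_gcd_eq_one]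
  by_contra hne
  obtain ⟨p, hp, hpd⟩ := Nat.exists_prime_and_dvd hne
  have h1 : (p : ℤ) ∣ (Int.gcd (d : ℤ) t : ℤ) := Int.natCast_dvd_natCast.2 hpd
  exact h p hp (Int.natCast_dvd_natCast.1 (h1.trans (Int.gcd_dvd_left _ _)))
    (h1.trans (Int.gcd_dvd_right _ _))

end LocalAux

open LocalAux in
theorem local_class (Q : Finset ℕ) (hQ : ∀ q ∈ Q, q.Prime ∧ q ≠ 2) :
    ∃ M : ℕ, Even M ∧ M ≠ 0 ∧ ∀ n : ℕ, Odd n →
      (∀ q ∈ Q, ∀ p : ℕ, p.Prime → p ^ 2 ∣ orderOf (2 : ZMod q) → p ∣ D n →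
        IsSquare (-(δ n : ZMod p))) →
      ∃ c : O, (∀ p : ℕ, p.Prime → p ∣ M → ¬ ∃ w : O, c = (p : ℤ) • w) ∧
        N c ≡ n [ZMOD (2 * M : ℤ)] ∧ Even c.imK ∧
        ∀ x y z : ℕ, (x : ℤ) ≡ c.re [ZMOD (M : ℤ)] → (y : ℤ) ≡ c.imI [ZMOD (M : ℤ)] →
          (z : ℤ) ≡ c.imJ [ZMOD (M : ℤ)] → ∀ q ∈ Q, ¬ q ∣ 2 ^ x + 2 ^ y + 2 ^ z + 1 := by
  have hord : ∀ q ∈ Q, orderOf (2 : ZMod q) ≠ 0 := by
    intro q hq
    have : Fact q.Prime := ⟨(hQ q hq).1⟩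
    have h1 := orderOf_pos (Units.mk0 (2 : ZMod q) (two_ne (hQ q hq).2))
    rw [← orderOf_units, Units.val_mk0] at h1
    exact h1.ne'
  obtain ⟨L, hL⟩ : ∃ L : ℕ, L = Q.lcm fun q => orderOf (2 : ZMod q) := ⟨_, rfl⟩
  have hL0 : L ≠ 0 := by
    rw [hL, Ne, Finset.lcm_eq_zero_iff]
    rintro ⟨q, hq, hq0⟩
    exact hord q hq hq0
  have hdL : ∀ q ∈ Q, orderOf (2 : ZMod q) ∣ L := fun q hq => by
    rw [hL]; exact Finset.dvd_lcm (f := fun q => orderOf (2 : ZMod q)) hq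
  refine ⟨4 * L, ⟨2 * L, by ring⟩, by omega, fun n hn H => ?_⟩
  have H' : ∀ p : ℕ, p.Prime → p ^ 2 ∣ L → p ∣ D n → IsSquare (-(δ n : ZMod p)) := by
    intro p hp hpL
    rw [hL] at hpL
    obtain ⟨q, hq, hq'⟩ := lcm_sq Q _ hord hp hpL
    exact H q hq p hp hq'
  -- reduction to a statement on integer exponents
  have fin : ∀ c : O, (∀ p : ℕ, p.Prime → p ∣ 8 * L → ¬ ((p : ℤ) ∣ c.re ∧ (p : ℤ) ∣ c.imI ∧
      (p : ℤ) ∣ c.imJ)) →
      ((8 * L : ℕ) : ℤ) ∣ c.re ^ 2 + c.imI ^ 2 + c.imJ ^ 2 + c.imK ^ 2 - n → Even c.imK →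
      (∀ (K : Type) [Field K], (2 : K) ≠ 0 → orderOf (2 : K) ≠ 0 → orderOf (2 : K) ∣ L →
        (2 : K) ^ c.re + 2 ^ c.imI + 2 ^ c.imJ + 1 ≠ 0) →
      ∃ c : O, (∀ p : ℕ, p.Prime → p ∣ 4 * L → ¬ ∃ w : O, c = (p : ℤ) • w) ∧
        N c ≡ n [ZMOD (2 * (4 * L : ℕ) : ℤ)] ∧ Even c.imK ∧
        ∀ x y z : ℕ, (x : ℤ) ≡ c.re [ZMOD ((4 * L : ℕ) : ℤ)] →
          (y : ℤ) ≡ c.imI [ZMOD ((4 * L : ℕ) : ℤ)] →
          (z : ℤ) ≡ c.imJ [ZMOD ((4 * L : ℕ) : ℤ)] → ∀ q ∈ Q, ¬ q ∣ 2 ^ x + 2 ^ y + 2 ^ z + 1 := by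
    intro c h1 h2 h3 h4
    refine ⟨c, ?_, ?_, h3, ?_⟩
    · rintro p hp hpL ⟨w, rfl⟩
      exact h1 p hp (hpL.trans ⟨2, by ring⟩) ⟨⟨w.re, by simp⟩, ⟨w.imI, by simp⟩, ⟨w.imJ, by simp⟩⟩
    · refine (Int.modEq_iff_dvd.2 ?_).symm
      rw [N, Quaternion.normSq_def']
      convert h2 using 1
      push_cast
      ring
    · intro x y z hx hy hz q hq hd
      have : Fact q.Prime := ⟨(hQ q hq).1⟩
      have h5 : (2 : ZMod q) ≠ 0 := two_ne (hQ q hq).2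
      have h6 : (orderOf (2 : ZMod q) : ℤ) ∣ ((4 * L : ℕ) : ℤ) :=
        Int.natCast_dvd_natCast.2 ((hdL q hq).mul_left 4)
      apply h4 (ZMod q) h5 (hord q hq) (hdL q hq)
      rw [← zpow_congr h5 h6 hx, ← zpow_congr h5 h6 hy, ← zpow_congr h5 h6 hz]
      exact_mod_cast (ZMod.natCast_eq_zero_iff _ _).2 hd
  have hn2 : n % 2 = 1 := Nat.odd_iff.1 hn
  by_cases c1 : n % 4 = 1
  · have hD : ((D n : ℕ) : ℤ) = 5 * n - 4 := by
      rw [D, if_pos c1]; omega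
    have hδ : δ n = 5 := by rw [δ, if_pos c1]
    obtain ⟨a, W, h1, h2, h3, -, h5⟩ := glue' hL0 5 12 (8 - n) 1 False True
      (fun e => loc_two 5 12 (8 - n) 1 5 (6 - n / 4) e (by norm_num) (by omega))
      False.elim (fun p hp hp2 _ e he => by
        obtain ⟨a, W, h1, h2⟩ := loc1 hp hp2 n e fun h3 h4 => by
          have := H' p hp (he h3) (by rw [← Int.natCast_dvd_natCast, hD]; exact h4)
          rw [hδ] at this
          exact_mod_cast this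
        exact ⟨a, W, h1, fun _ => h2⟩)
    refine fin ⟨0, a + 2, 2 * a + 2, W⟩ ?_ (by convert h1 using 1; ring) h3 ?_
    · rintro p hp - ⟨-, h6, h7⟩
      have h8 : (p : ℤ) ∣ ((2 : ℕ) : ℤ) :=
        ((h6.mul_left 2).sub h7).trans (dvd_of_eq (by push_cast; ring))
      obtain rfl := (Nat.prime_dvd_prime_iff_eq hp Nat.prime_two).1
        (Int.natCast_dvd_natCast.1 h8)
      simp only [Nat.cast_ofNat] at h6
      omega
    · intro K _ h6 _ h8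
      exact case1 h6 (coprime_of fun p hp hpd => h5 trivial p hp ((hpd.trans h8).mul_left 8)) h2
  by_cases c2 : n % 3 = 1
  · have hD : ((D n : ℕ) : ℤ) = 29 * n - 6 := by
      rw [D, if_neg c1, if_pos c2]; omega
    have hδ : δ n = 29 := by rw [δ, if_neg c1, if_pos c2]
    obtain ⟨a, W, h1, h2, h3, h4, h5⟩ := glue' hL0 29 18 (3 - n) 2 True True
      (fun e => loc_two 29 18 (3 - n) 2 33 (38 - n / 4) e (by norm_num) (by omega))
      (fun _ e _ => loc_three _ _ _ e (Or.inl (by omega))) (fun p hp hp2 _ e he => by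
        obtain ⟨a, W, h1, h2⟩ := loc2 hp hp2 n e fun h3 h4 => by
          have := H' p hp (he h3) (by rw [← Int.natCast_dvd_natCast, hD]; exact h4)
          rw [hδ] at this
          exact_mod_cast this
        exact ⟨a, W, h1, fun _ => h2⟩)
    refine fin ⟨-4 * a - 1, -3 * a - 1, -2 * a - 1, W⟩ ?_ (by convert h1 using 1; ring) h3 ?_
    · rintro p hp hpL ⟨-, -, h7⟩
      apply h5 trivial p hp hpL
      rw [← dvd_neg]
      exact h7.trans (dvd_of_eq (by ring))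
    · intro K _ h6 h7 h8
      exact case2 h6 h7
        (coprime_of fun p hp hpd => h5 trivial p hp ((hpd.trans h8).mul_left 8)) h2
        fun k hk => h4 trivial k (hk.trans h8)
  · have hD : ∃ t : ℤ, ((D n : ℕ) : ℤ) = (9 * n - 2) * t := by
      rw [D, if_neg c1, if_neg c2]
      split_ifs
      · exact ⟨1, by omega⟩
      · exact ⟨3, by omega⟩
    have hδ : δ n = 1 := by rw [δ, if_neg c1, if_neg c2]
    obtain ⟨a, W, h1, h2, h3, h4, -⟩ := glue' hL0 9 (-8) (2 - n) 1 True False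
      (fun e => loc_two 9 (-8) (2 - n) 1 2 (-(n / 4)) e (by norm_num) (by omega))
      (fun _ e he => loc_three _ _ _ e (by
        by_cases c3 : n % 3 = 0
        · exact Or.inl (by omega)
        · refine Or.inr ⟨by omega, ?_⟩
          by_contra h9
          have := H' 3 Nat.prime_three (he (by omega)) (by
            rw [D, if_neg c1, if_neg c2, if_neg c3]
            exact Dvd.intro _ rfl)
          rw [hδ] at this
          revert this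
          decide)) (fun p hp hp2 hp3 e he => by
        obtain ⟨a, W, h1⟩ := loc3 hp hp2 (hp3 trivial) n e fun h3 h4 => by
          obtain ⟨t, ht⟩ := hD
          have := H' p hp (he h3) (by
            rw [← Int.natCast_dvd_natCast, ht]; exact h4.mul_right t)
          rw [hδ] at this
          exact_mod_cast this
        exact ⟨a, W, h1, False.elim⟩)
    refine fin ⟨a, 2 * a - 1, 2 * a - 1, W⟩ ?_ (by convert h1 using 1; ring) h3 ?_
    · rintro p hp - ⟨h6, h7, -⟩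
      have h8 : (p : ℤ) ∣ ((1 : ℕ) : ℤ) :=
        ((h6.mul_left 2).sub h7).trans (dvd_of_eq (by push_cast; ring))
      exact hp.ne_one (Nat.dvd_one.1 (Int.natCast_dvd_natCast.1 h8))
    · intro K _ h6 h7 h8
      exact case3 h6 h7 h2 fun k hk => h4 trivial k (hk.trans h8)

end Pool.Agent.Lib.MP_f6c7cf_nt.E
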