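import Pool.Agent.Lib.MP_f6c7cf_nt.E.Local

/-! The pattern `(-a-1, a-1, a-1)` for `n ≡ 3 mod 4`. -/

namespace Pool.Agent.Lib.MP_f6c7cf_nt.E

open Finset LocalAux
open scoped Quaternion

lemma glue₂ {L : ℕ} (hL : L ≠ 0) (α β γ r : ℤ) (S : ℕ → ℤ → Prop)
    (hS : ∀ (p : ℕ) (a a' : ℤ), (p : ℤ) ∣ a' - a → S p a' → S p a)
    (h2 : ∀ e, ∃ a W : ℤ, ((2 : ℕ) : ℤ) ^ e ∣ α * a ^ 2 + β * a + γ + W ^ 2 ∧ a % 4 = r ∧ Even W)
    (h : ∀ p : ℕ, p.Prime → p ≠ 2 → ∀ e, (2 ≤ e → p ^ 2 ∣ L) → ∃ a W : ℤ,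
      (p : ℤ) ^ e ∣ α * a ^ 2 + β * a + γ + W ^ 2 ∧ S p a) :
    ∃ a W : ℤ, ((8 * L : ℕ) : ℤ) ∣ α * a ^ 2 + β * a + γ + W ^ 2 ∧ a % 4 = r ∧ Even W ∧
      ∀ p : ℕ, p.Prime → p ≠ 2 → p ∣ L → S p a := by
  have hR : 8 * L ≠ 0 := by omega
  have hsq : ∀ p : ℕ, p.Prime → p ≠ 2 → 2 ≤ (8 * L).factorization p → p ^ 2 ∣ L := by
    intro p hp hp2 he
    have h1 : p ^ 2 ∣ 8 * L := (hp.pow_dvd_iff_le_factorization hR).2 he
    refine Nat.Coprime.dvd_of_dvd_mul_left ?_ h1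
    exact Nat.Coprime.pow 2 3 ((Nat.coprime_primes hp Nat.prime_two).2 hp2)
  obtain ⟨a, W, hd, hT⟩ := glue hR α β γ (fun p a W => (p = 2 → a % 4 = r ∧ Even W) ∧
      (p ≠ 2 → S p a)) (by
    intro p hp
    have hp' := Nat.prime_of_mem_primeFactors hp
    by_cases hp2 : p = 2
    · subst hp2
      obtain ⟨a, W, h4, h5, h6⟩ := h2 ((8 * L).factorization 2)
      exact ⟨a, W, h4, fun _ => ⟨h5, h6⟩, fun h => absurd rfl h⟩
    · obtain ⟨a, W, h4, h5⟩ := h p hp' hp2 _ (hsq p hp' hp2)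
      exact ⟨a, W, h4, fun h => absurd h hp2, fun _ => h5⟩)
  have hm : ∀ p : ℕ, p.Prime → p ∣ 8 * L → p ∈ (8 * L).primeFactors := fun p hp hd =>
    Nat.mem_primeFactors.2 ⟨hp, hd, hR⟩
  obtain ⟨a', W', h4, h5, h6, -⟩ := hT 2 (hm 2 Nat.prime_two ⟨4 * L, by ring⟩)
  obtain ⟨h7, h8⟩ := h6 rfl
  have h9 : 2 ≤ (8 * L).factorization 2 :=
    (Nat.prime_two.pow_dvd_iff_le_factorization hR).1 ⟨2 * L, by ring⟩
  have h10 := (pow_dvd_pow _ h9).trans h4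
  have h11 := (pow_dvd_pow _ h9).trans h5
  push_cast at h10 h11
  refine ⟨a, W, hd, by omega, ?_, fun p hp hp2 hpd => ?_⟩
  · rw [Int.even_iff] at h8 ⊢
    omega
  · have hpd' : p ∣ 8 * L := hpd.mul_left _
    obtain ⟨a'', _, h12, -, -, h13⟩ := hT p (hm p hp hpd')
    exact hS p a a'' ((dvd_pow_self _ (hp.factorization_pos_of_dvd hR hpd').ne').trans h12)
      (h13 hp2)

lemma loc4 {p : ℕ} (hp : p.Prime) (hp2 : p ≠ 2) (n : ℤ) (e : ℕ)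
    (h : 2 ≤ e → (p : ℤ) ∣ 3 * n - 8 → IsSquare (-(3 : ZMod p))) :
    ∃ a W : ℤ, (p : ℤ) ^ e ∣ 3 * a ^ 2 + (-2) * a + (3 - n) + W ^ 2 ∧
      ((p = 5 → n % 5 ≠ 1) → ¬ (p : ℤ) ∣ 2 * a + 1) := by
  by_cases h3 : p = 3
  · subst h3
    obtain ⟨a, W, h1, h2⟩ := spec hp 3 (-2) 3 n e (by decide +kernel)
    exact ⟨a, W, h1, fun _ => h2⟩
  by_cases h5 : p = 5 ∧ n % 5 ≠ 1
  · obtain ⟨rfl, h5⟩ := h5
    have key : ∀ m : ZMod 5, m ≠ 1 → ∃ a W : ZMod 5, 3 * a ^ 2 + (-2) * a + (3 - m) + W ^ 2 = 0 ∧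
        (2 * 3 * a + (-2) ≠ 0 ∨ 2 * W ≠ 0) ∧ 2 * a + 1 ≠ 0 := by decide +kernel
    obtain ⟨a₀, W₀, h1, h2, h3⟩ := key n (fun h => h5 (by
      have := (ZMod.intCast_eq_intCast_iff' n 1 5).1 (by simpa using h)
      simpa using this))
    obtain ⟨a, W, ha, hd⟩ := lift hp 3 (-2) (3 - n) e a₀ W₀ (by push_cast; exact h1)
      (Or.inr (by push_cast; exact h2))
    refine ⟨a, W, hd, fun _ h4 => h3 ?_⟩
    rw [← ZMod.intCast_zmod_eq_zero_iff_dvd] at h4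
    push_cast at h4
    rwa [ha] at h4
  obtain ⟨a, W, h1, h2⟩ := loc hp hp2 3 (-1) (3 - n) e (ndvd hp Nat.prime_three h3)
    (fun he hd => by simpa using h he (by convert hd using 1; ring))
  refine ⟨a, W, h1.trans (dvd_of_eq (by ring)), fun h6 => h2 fun h7 => ?_⟩
  have h8 : p ≠ 5 := fun h8 => h5 ⟨h8, h6 h8⟩
  exact ndvd hp Nat.prime_five h8 (dvd_neg.1 (by simpa using h7))

lemma case4 {K : Type} [Field K] {a : ℤ} (h2 : (2 : K) ≠ 0) (ha : a % 4 = 2)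
    (hc : ∀ p : ℕ, p.Prime → p ∣ orderOf (2 : K) → (p : ℤ) ∣ 2 * a + 1 →
      p = 5 ∧ ¬ 5 ^ 2 ∣ orderOf (2 : K) ∧ (41 : K) ≠ 0) :
    (2 : K) ^ (-a - 1) + 2 ^ (a - 1) + 2 ^ (a - 1) + 1 ≠ 0 := by
  intro h
  have e1 : (2 : K) ^ (-a - 1) * (2 * (2 : K) ^ a) = 1 := by
    rw [← zpow_one_add₀ h2, ← zpow_add₀ h2]
    convert zpow_zero (2 : K) using 2
    ring
  have e2 : (2 : K) ^ (a - 1) * 2 = (2 : K) ^ a := by
    rw [← zpow_add_one₀ h2]; congr 1; ring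
  have h5 : 1 + 2 * (2 : K) ^ a + 2 * ((2 : K) ^ a) ^ 2 = 0 := by
    linear_combination (2 * (2 : K) ^ a) * h - e1 - 2 * (2 : K) ^ a * e2
  by_cases hco : IsCoprime (orderOf (2 : K) : ℤ) (2 * a + 1)
  · have h6 := four h2 hco h5
    rw [pow_mod (r := 2) h2 h6 (by omega), zpow_two] at h5
    rw [show (4 : ℤ) = (4 : ℕ) from rfl, zpow_natCast] at h6
    exact one_ne_zero (α := K) (by linear_combination 11 * h6 - 4 * h5)
  · have : ∃ p : ℕ, p.Prime ∧ p ∣ orderOf (2 : K) ∧ (p : ℤ) ∣ 2 * a + 1 := by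
      by_contra hne
      push Not at hne
      exact hco (coprime_of hne)
    obtain ⟨p, hp, h6, h7⟩ := this
    obtain ⟨rfl, h8, h9⟩ := hc p hp h6 h7
    obtain ⟨d, hd'⟩ := h6
    have h10 : IsCoprime (d : ℤ) (2 * a + 1) := coprime_of fun p hp hpd hpa => by
      obtain ⟨rfl, -, -⟩ := hc p hp (hd' ▸ hpd.mul_left 5) hpa
      exact h8 (by rw [hd', sq]; exact Nat.mul_dvd_mul_left 5 hpd)
    have h11 : (orderOf (2 : K) : ℤ) ∣ (2 * a + 1) * 4 := by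
      rw [ord_dvd h2, show (2 * a + 1) * 4 = 4 + a * (8 : ℕ) by push_cast; ring, zpow_add₀ h2,
        zpow_mul, zpow_natCast]
      norm_num
      linear_combination (1 - 2 * (2 : K) ^ a + 2 * ((2 : K) ^ a) ^ 2) *
        (4 * ((2 : K) ^ a) ^ 4 - 1) * h5
    have h12 : (d : ℤ) ∣ 4 :=
      h10.dvd_of_dvd_mul_left (Dvd.dvd.trans ⟨5, by rw [hd']; push_cast; ring⟩ h11)
    have h13 : (2 : K) ^ (20 : ℤ) = 1 := by
      rw [← ord_dvd h2, hd']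
      push_cast
      exact mul_dvd_mul_left 5 h12
    push_cast at h7
    rw [pow_mod (r := 2) h2 h13 (by omega), zpow_two] at h5
    exact h9 (by linear_combination h5)

theorem local_class₂ (Q : Finset ℕ) (hQ : ∀ q ∈ Q, q.Prime ∧ q ≠ 2) :
    ∃ M : ℕ, Even M ∧ M ≠ 0 ∧ ∀ n : ℕ, n % 4 = 3 → (n % 5 = 1 → 41 ∉ Q) →
      (∀ q ∈ Q, ∀ p : ℕ, p.Prime → p ^ 2 ∣ orderOf (2 : ZMod q) → p ∣ 3 * n - 8 →
        IsSquare (-(3 : ZMod p))) →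
      ∃ c : O, (∀ p : ℕ, p.Prime → p ∣ M → ¬ ∃ w : O, c = (p : ℤ) • w) ∧
        N c ≡ n [ZMOD (2 * M : ℤ)] ∧ Even c.imK ∧
        ∀ x y z : ℕ, (x : ℤ) ≡ c.re [ZMOD (M : ℤ)] → (y : ℤ) ≡ c.imI [ZMOD (M : ℤ)] →
          (z : ℤ) ≡ c.imJ [ZMOD (M : ℤ)] → ∀ q ∈ Q, ¬ q ∣ 2 ^ x + 2 ^ y + 2 ^ z + 1 := by
  have hord : ∀ q ∈ Q, orderOf (2 : ZMod q) ≠ 0 := by
    intro q hq
    have : Fact q.Prime := ⟨(hQ q hq).1⟩
    have h1 := orderOf_pos (Units.mk0 (2 : ZMod q) (two_ne (hQ q hq).2))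
    rw [← orderOf_units, Units.val_mk0] at h1
    exact h1.ne'
  obtain ⟨L, hL⟩ : ∃ L : ℕ, L = Q.lcm fun q => orderOf (2 : ZMod q) := ⟨_, rfl⟩
  have hL0 : L ≠ 0 := by
    rw [hL, Ne, Finset.lcm_eq_zero_iff]
    rintro ⟨q, hq, hq0⟩
    exact hord q hq hq0
  have hdL : ∀ q ∈ Q, orderOf (2 : ZMod q) ∣ L := fun q hq => by
    rw [hL]; exact Finset.dvd_lcm (f := fun q => orderOf (2 : ZMod q)) hq
  refine ⟨4 * L, ⟨2 * L, by ring⟩, by omega, fun n hn h41 H => ?_⟩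
  have H' : ∀ p : ℕ, p.Prime → p ^ 2 ∣ L → p ∣ 3 * n - 8 → IsSquare (-(3 : ZMod p)) := by
    intro p hp hpL
    rw [hL] at hpL
    obtain ⟨q, hq, hq'⟩ := lcm_sq Q _ hord hp hpL
    exact H q hq p hp hq'
  have hD : ((3 * n - 8 : ℕ) : ℤ) = 3 * n - 8 := by omega
  obtain ⟨a, W, h1, h2, h3, h5⟩ := glue₂ hL0 3 (-2) (3 - n) 2
    (fun p a => (p = 5 → (n : ℤ) % 5 ≠ 1) → ¬ (p : ℤ) ∣ 2 * a + 1)
    (fun p a a' h h' h6 h7 => h' h6 ((h7.add (h.mul_left 2)).trans (dvd_of_eq (by ring))))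
    (fun e => loc_two 3 (-2) (3 - n) 2 2 (2 - n / 4) e (by norm_num) (by omega))
    (fun p hp hp2 e he => loc4 hp hp2 n e fun h3 h4 =>
      H' p hp (he h3) (by rw [← Int.natCast_dvd_natCast, hD]; exact h4))
  refine ⟨⟨-a - 1, a - 1, a - 1, W⟩, ?_, ?_, h3, ?_⟩
  · rintro p hp - ⟨w, hw⟩
    have h6 : (p : ℤ) ∣ -a - 1 := ⟨w.re, by simpa using congrArg (·.re) hw⟩
    have h7 : (p : ℤ) ∣ a - 1 := ⟨w.imI, by simpa using congrArg (·.imI) hw⟩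
    have h8 : (p : ℤ) ∣ ((2 : ℕ) : ℤ) :=
      (dvd_neg.2 (h6.add h7)).trans (dvd_of_eq (by push_cast; ring))
    obtain rfl := (Nat.prime_dvd_prime_iff_eq hp Nat.prime_two).1 (Int.natCast_dvd_natCast.1 h8)
    simp only [Nat.cast_ofNat] at h7
    omega
  · refine (Int.modEq_iff_dvd.2 ?_).symm
    have e : N (⟨-a - 1, a - 1, a - 1, W⟩ : O) = (-a - 1) ^ 2 + (a - 1) ^ 2 + (a - 1) ^ 2 + W ^ 2 :=
      Quaternion.normSq_def' _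
    rw [e]
    convert h1 using 1
    · push_cast; ring
    · ring
  · intro x y z hx hy hz q hq hd
    have : Fact q.Prime := ⟨(hQ q hq).1⟩
    have h6 : (2 : ZMod q) ≠ 0 := two_ne (hQ q hq).2
    have h7 : (orderOf (2 : ZMod q) : ℤ) ∣ ((4 * L : ℕ) : ℤ) :=
      Int.natCast_dvd_natCast.2 ((hdL q hq).mul_left 4)
    refine case4 (a := a) h6 h2 (fun p hp hpd hpa => ?_) ?_
    · have hp2 : p ≠ 2 := by
        rintro rfl
        simp only [Nat.cast_ofNat] at hpa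
        omega
      have h8 : ¬ (p = 5 → (n : ℤ) % 5 ≠ 1) := fun h => h5 p hp hp2 (hpd.trans (hdL q hq)) h hpa
      push Not at h8
      refine ⟨h8.1, fun h9 => ?_, fun h9 => ?_⟩
      · have := H q hq 5 Nat.prime_five h9 (by omega)
        revert this
        decide
      · have h10 : q ∣ 41 := (ZMod.natCast_eq_zero_iff 41 q).1 (by exact_mod_cast h9)
        obtain rfl := (Nat.prime_dvd_prime_iff_eq (hQ q hq).1 (by norm_num)).1 h10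
        exact h41 (by omega) hq
    · have e : (2 : ZMod q) ^ x + 2 ^ y + 2 ^ z + 1 = 0 := by
        exact_mod_cast (ZMod.natCast_eq_zero_iff _ _).2 hd
      rwa [zpow_congr h6 h7 hx, zpow_congr h6 h7 hy, zpow_congr h6 h7 hz] at e

end Pool.Agent.Lib.MP_f6c7cf_nt.E
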