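import Pool.Agent.Lib.MP_f6c7cf_nt.E.Ideal

/-! The matrix model: lines, ideals and counts. -/

namespace Pool.Agent.Lib.MP_f6c7cf_nt.E

open Finset
open scoped Quaternion RealInnerProductSpace Classical Matrix

theorem mat_exists_ab (R : ℕ) (hR : Odd R) : ∃ a b : ZMod R, a ^ 2 + b ^ 2 + 1 = 0 := by
  obtain ⟨k, hk⟩ := hR
  have h1 : (4 * k + 1).Coprime (2 * R) := by
    have e : 2 * R = 4 * k + 1 + 1 := by omega
    rw [e]
    exact (Nat.coprime_self_add_right.2 (Nat.coprime_one_right _))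
  have h2 : (4 * k + 1).Coprime (4 * R) := by
    refine Nat.Coprime.coprime_dvd_right ⟨R, ?_⟩ (h1.mul_right h1)
    ring
  obtain ⟨p, -, hp, hm⟩ := Nat.forall_exists_prime_gt_and_modEq 0 (by omega) h2
  have := Fact.mk hp
  have h3 : p % 4 ≠ 3 := by
    have := hm.of_mul_right R
    unfold Nat.ModEq at this
    omega
  obtain ⟨a, b, hab⟩ := Nat.Prime.sq_add_sq h3
  refine ⟨a, b, ?_⟩
  have h4 : ((p : ℕ) : ZMod R) = ((4 * k + 1 : ℕ) : ZMod R) :=
    (ZMod.natCast_eq_natCast_iff _ _ _).2 (hm.of_mul_left 4)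
  have h5 : ((2 * k + 1 : ℕ) : ZMod R) = 0 := by rw [← hk, ZMod.natCast_self]
  rw [← hab] at h4
  push_cast at h4 h5
  linear_combination h4 + 2 * h5

/-- the splitting of the quaternions over a ring in which `-1` is a sum of two squares -/
def matPhi {S : Type} [CommRing S] (a b : S) (h : a ^ 2 + b ^ 2 + 1 = 0) :
    O →+* Matrix (Fin 2) (Fin 2) S where
  toFun v := !![(v.re : S) + a * v.imI - b * v.imK, b * v.imI + v.imJ + a * v.imK;
    b * v.imI - v.imJ + a * v.imK, (v.re : S) - a * v.imI + b * v.imK]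
  map_one' := by
    ext i j
    fin_cases i <;> fin_cases j <;> simp
  map_mul' v w := by
    ext i j
    fin_cases i <;> fin_cases j <;> simp [Matrix.mul_apply, Fin.sum_univ_two]
    · linear_combination (-(v.imI : S) * w.imI - v.imK * w.imK) * h
    · linear_combination ((v.imK : S) * w.imI - v.imI * w.imK) * h
    · linear_combination (-(v.imK : S) * w.imI + v.imI * w.imK) * h
    · linear_combination (-(v.imI : S) * w.imI - v.imK * w.imK) * h
  map_zero' := by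
    ext i j
    fin_cases i <;> fin_cases j <;> simp
  map_add' v w := by
    ext i j
    fin_cases i <;> fin_cases j <;> simp <;> ring

theorem matPhi_apply {S : Type} [CommRing S] (a b : S) (h : a ^ 2 + b ^ 2 + 1 = 0) (v : O) :
    matPhi a b h v = !![(v.re : S) + a * v.imI - b * v.imK, b * v.imI + v.imJ + a * v.imK;
      b * v.imI - v.imJ + a * v.imK, (v.re : S) - a * v.imI + b * v.imK] := rfl

theorem exists_model (R : ℕ) (hR : Odd R) : Nonempty (Model R) := by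
  obtain ⟨a, b, h⟩ := mat_exists_ab R hR
  obtain ⟨t, ht⟩ : ∃ t : ZMod R, 2 * t = 1 := by
    obtain ⟨k, hk⟩ := hR
    have h5 : ((2 * k + 1 : ℕ) : ZMod R) = 0 := by rw [← hk, ZMod.natCast_self]
    push_cast at h5
    exact ⟨-k, by linear_combination -h5⟩
  refine ⟨⟨matPhi a b h, fun m => ?_, fun v => ?_, fun v hv => ?_⟩⟩
  · obtain ⟨x0, h0⟩ := ZMod.intCast_surjective (t * (m 0 0 + m 1 1))
    obtain ⟨x1, h1⟩ := ZMod.intCast_surjective
      (-(a * (t * (m 0 0 - m 1 1)) + b * (t * (m 0 1 + m 1 0))))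
    obtain ⟨x2, h2⟩ := ZMod.intCast_surjective (t * (m 0 1 - m 1 0))
    obtain ⟨x3, h3⟩ := ZMod.intCast_surjective
      (b * (t * (m 0 0 - m 1 1)) - a * (t * (m 0 1 + m 1 0)))
    refine ⟨⟨x0, x1, x2, x3⟩, ?_⟩
    rw [matPhi_apply]
    ext i j
    fin_cases i <;> fin_cases j <;> simp [h0, h1, h2, h3]
    · linear_combination m 0 0 * ht - t * (m 0 0 - m 1 1) * h
    · linear_combination m 0 1 * ht - t * (m 0 1 + m 1 0) * h
    · linear_combination m 1 0 * ht - t * (m 0 1 + m 1 0) * h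
    · linear_combination m 1 1 * ht + t * (m 0 0 - m 1 1) * h
  · rw [matPhi_apply, Matrix.det_fin_two_of, N, Quaternion.normSq_def']
    push_cast
    linear_combination (-(v.imI : ZMod R) ^ 2 - (v.imK : ZMod R) ^ 2) * h
  · rw [matPhi_apply] at hv
    have e00 : (v.re : ZMod R) + a * v.imI - b * v.imK = 0 := congrFun (congrFun hv 0) 0
    have e01 : b * (v.imI : ZMod R) + v.imJ + a * v.imK = 0 := congrFun (congrFun hv 0) 1
    have e10 : b * (v.imI : ZMod R) - v.imJ + a * v.imK = 0 := congrFun (congrFun hv 1) 0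
    have e11 : (v.re : ZMod R) - a * v.imI + b * v.imK = 0 := congrFun (congrFun hv 1) 1
    have f0 : (v.re : ZMod R) = 0 := by
      linear_combination t * (e00 + e11) - (v.re : ZMod R) * ht
    have f2 : (v.imJ : ZMod R) = 0 := by
      linear_combination t * (e01 - e10) - (v.imJ : ZMod R) * ht
    have f1 : (v.imI : ZMod R) = 0 := by
      linear_combination -a * (e00 - f0) - b * (e01 - f2) + (v.imI : ZMod R) * h
    have f3 : (v.imK : ZMod R) = 0 := by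
      linear_combination b * (e00 - f0) - a * (e01 - f2) + (v.imK : ZMod R) * h
    obtain ⟨y0, g0⟩ := (ZMod.intCast_zmod_eq_zero_iff_dvd _ _).1 f0
    obtain ⟨y1, g1⟩ := (ZMod.intCast_zmod_eq_zero_iff_dvd _ _).1 f1
    obtain ⟨y2, g2⟩ := (ZMod.intCast_zmod_eq_zero_iff_dvd _ _).1 f2
    obtain ⟨y3, g3⟩ := (ZMod.intCast_zmod_eq_zero_iff_dvd _ _).1 f3
    refine ⟨⟨y0, y1, y2, y3⟩, ?_⟩
    ext <;> simp [g0, g1, g2, g3]

theorem mat_zsmul {R : ℕ} (μ : Model R) (c : ℤ) (x : O) :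
    μ.φ (c • x) = (c : ZMod R) • μ.φ x := by
  rw [map_zsmul, Int.cast_smul_eq_zsmul]

theorem mat_kill {R : ℕ} (μ : Model R) {α : O} (hα : Prim α) {d : ZMod R}
    (h : d • μ.φ α = 0) : d = 0 := by
  obtain ⟨c, rfl⟩ := ZMod.intCast_surjective d
  rw [← mat_zsmul] at h
  obtain ⟨w, hw⟩ := μ.ker _ h
  exact (ZMod.intCast_zmod_eq_zero_iff_dvd _ _).2 (hα.dvd hw)

theorem mat_kill' {R : ℕ} (μ : Model R) {α : O} (hα : Prim α)
    {h : Matrix (Fin 2) (Fin 2) (ZMod R)} (hh : IsUnit h.det) {d : ZMod R}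
    (e : d • (μ.φ α * h) = 0) : d = 0 := by
  refine mat_kill μ hα ?_
  have e2 := congrArg (· * h⁻¹) e
  simpa only [Matrix.smul_mul, Matrix.mul_assoc, Matrix.mul_nonsing_inv _ hh, Matrix.mul_one,
    Matrix.zero_mul] using e2

theorem mat_line {S : Type} [CommRing S] (m : Matrix (Fin 2) (Fin 2) S) (c x y : S) :
    c • (m *ᵥ ![x, y]) = 0 ↔
      c * (m 0 0 * x + m 0 1 * y) = 0 ∧ c * (m 1 0 * x + m 1 1 * y) = 0 := by
  rw [funext_iff, Fin.forall_fin_two]
  simp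

theorem mat_line' {S : Type} [CommRing S] (m : Matrix (Fin 2) (Fin 2) S) (x y : S) :
    m *ᵥ ![x, y] = 0 ↔ m 0 0 * x + m 0 1 * y = 0 ∧ m 1 0 * x + m 1 1 * y = 0 := by
  simp

theorem mat_two_lines {S : Type} [CommRing S] {m : Matrix (Fin 2) (Fin 2) S} {d d' : S}
    (h : m *ᵥ ![1, d] = 0) (h' : m *ᵥ ![1, d'] = 0) : (d - d') • m = 0 := by
  rw [mat_line'] at h h'
  ext i j
  fin_cases i <;> fin_cases j <;> simp
  · linear_combination d * h'.1 - d' * h.1
  · linear_combination h.1 - h'.1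
  · linear_combination d * h'.2 - d' * h.2
  · linear_combination h.2 - h'.2

theorem ideal_gen {R m₁ m₂ : ℕ} (hR : Odd R) (e : R = m₁ * m₂) (μ : Model R)
    (h : Matrix (Fin 2) (Fin 2) (ZMod R)) (hh : IsUnit h.det) :
    ∃ γ : O, γ ∈ A m₂ ∧
      ∀ x, (m₁ : ZMod R) • (μ.φ x *ᵥ (h *ᵥ ![1, 0])) = 0 ↔ ∃ y, x = y * γ := by
  have hR0 : 0 < R := hR.pos
  have hm₁ : 0 < m₁ := Nat.pos_of_mul_pos_right (e ▸ hR0)
  have hm₂ : 0 < m₂ := Nat.pos_of_mul_pos_left (e ▸ hR0)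
  let I : Ideal O :=
    { carrier := {x | (m₁ : ZMod R) • (μ.φ x *ᵥ (h *ᵥ ![1, 0])) = 0}
      add_mem' := by
        intro x y hx hy
        have hx' : (m₁ : ZMod R) • (μ.φ x *ᵥ (h *ᵥ ![1, 0])) = 0 := hx
        have hy' : (m₁ : ZMod R) • (μ.φ y *ᵥ (h *ᵥ ![1, 0])) = 0 := hy
        show (m₁ : ZMod R) • (μ.φ (x + y) *ᵥ (h *ᵥ ![1, 0])) = 0
        rw [map_add, Matrix.add_mulVec, smul_add, hx', hy', add_zero]
      zero_mem' := by
        show (m₁ : ZMod R) • (μ.φ 0 *ᵥ (h *ᵥ ![1, 0])) = 0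
        rw [map_zero, Matrix.zero_mulVec, smul_zero]
      smul_mem' := by
        intro c x hx
        have hx' : (m₁ : ZMod R) • (μ.φ x *ᵥ (h *ᵥ ![1, 0])) = 0 := hx
        show (m₁ : ZMod R) • (μ.φ (c * x) *ᵥ (h *ᵥ ![1, 0])) = 0
        rw [map_mul, ← Matrix.mulVec_mulVec, ← Matrix.mulVec_smul, hx', Matrix.mulVec_zero] }
  have hsc : ∀ c : ℤ, c • (1 : O) ∈ I ↔ (m₂ : ℤ) ∣ c := by
    intro c
    show (m₁ : ZMod R) • (μ.φ (c • (1 : O)) *ᵥ (h *ᵥ ![1, 0])) = 0 ↔ _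
    rw [mat_zsmul, map_one, Matrix.smul_mulVec, Matrix.one_mulVec, smul_smul]
    have e1 : ((m₁ : ZMod R) * (c : ZMod R) = 0) ↔ (m₂ : ℤ) ∣ c := by
      have e2 : (m₁ : ZMod R) * (c : ZMod R) = (((m₁ : ℤ) * c : ℤ) : ZMod R) := by push_cast; rfl
      rw [e2, ZMod.intCast_zmod_eq_zero_iff_dvd]
      have e3 : (R : ℤ) = m₁ * m₂ := by exact_mod_cast e
      rw [e3]
      exact mul_dvd_mul_iff_left (by exact_mod_cast hm₁.ne')
    rw [← e1]
    refine ⟨fun h1 => ?_, fun h1 => by rw [h1, zero_smul]⟩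
    have h2 := congrArg (h⁻¹ *ᵥ ·) h1
    simp only [Matrix.mulVec_smul, Matrix.mulVec_mulVec, Matrix.nonsing_inv_mul _ hh,
      Matrix.one_mulVec, Matrix.mulVec_zero] at h2
    simpa using congrFun h2 0
  have ho : Odd (m₂ : ℤ) := by
    rw [e] at hR
    exact (Nat.Odd.of_mul_right hR).natCast
  obtain ⟨γ, hγ⟩ := exists_gen I m₂ ho ((hsc _).2 dvd_rfl)
  obtain ⟨w, hw⟩ := (hγ _).1 ((hsc _).2 dvd_rfl)
  have hp : Prim γ := by
    rw [prim_iff]
    rintro p hp ⟨w', hw'⟩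
    obtain ⟨x, hx⟩ := μ.surj (!![0, 1; 0, 0] * h⁻¹)
    have hxI : x ∈ I := by
      show (m₁ : ZMod R) • (μ.φ x *ᵥ (h *ᵥ ![1, 0])) = 0
      rw [hx, Matrix.mulVec_mulVec, Matrix.mul_assoc, Matrix.nonsing_inv_mul _ hh, Matrix.mul_one,
        mat_line]
      simp
    obtain ⟨y, hy⟩ := (hγ _).1 hxI
    have h1 : (p : ℤ) ∣ m₂ := by
      rw [hw', mul_smul_comm] at hw
      exact ⟨(w * w').re, by simpa using congrArg (·.re) hw⟩
    obtain ⟨q, hq⟩ := Int.natCast_dvd_natCast.1 h1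
    have h2 : ((m₁ * q : ℕ) : ZMod R) • μ.φ x = 0 := by
      rw [hy, hw', mul_smul_comm, mat_zsmul, smul_smul]
      have e2 : ((m₁ * q : ℕ) : ZMod R) * ((p : ℤ) : ZMod R) = (R : ZMod R) := by
        conv_rhs => rw [show (R : ZMod R) = ((m₁ * (p * q) : ℕ) : ZMod R) by rw [← hq, ← e]]
        push_cast
        ring
      rw [e2, ZMod.natCast_self, zero_smul]
    have h3 := congrArg (· * h) h2
    simp only [hx, Matrix.smul_mul, Matrix.mul_assoc, Matrix.nonsing_inv_mul _ hh, Matrix.mul_one,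
      Matrix.zero_mul] at h3
    have h4 : ((m₁ * q : ℕ) : ZMod R) = 0 := by simpa using congrFun (congrFun h3 0) 1
    have hq0 : 0 < q := Nat.pos_of_mul_pos_left (hq ▸ hm₂)
    have h5 := Nat.le_of_dvd (by positivity) ((ZMod.natCast_eq_zero_iff _ _).1 h4)
    have h6 := hp.two_le
    rw [e, hq] at h5
    nlinarith [Nat.mul_pos hm₁ hq0]
  refine ⟨γ, mem_A.2 ⟨?_, hp⟩, hγ⟩
  obtain ⟨c, hc⟩ := (hsc (N γ)).1 ((hγ _).2 ⟨star γ, (star_mul_self' γ).symm⟩)
  have h1 : (m₂ : ℤ) • star γ = (m₂ : ℤ) • (c • w) := by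
    have h2 := congrArg (· * star γ) hw
    simp only [smul_mul_assoc, one_mul, mul_assoc, mul_star_self', mul_smul_comm, mul_one,
      hc] at h2
    rw [h2, mul_smul]
  have h2 : star γ = c • w := smul_right_injective _ (by exact_mod_cast hm₂.ne') h1
  have h3 := N_nonneg γ
  rcases Int.isUnit_iff.1 (hp.star c w h2) with h4 | h4
  · rw [hc, h4, mul_one]
  · rw [hc, h4] at h3
    omega

theorem card_line {R : ℕ} (hR : Odd R) (μ : Model R)
    (h : Matrix (Fin 2) (Fin 2) (ZMod R)) (hh : IsUnit h.det) :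
    #((A R).filter fun α => μ.φ α *ᵥ (h *ᵥ ![1, 0]) = 0) = u := by
  obtain ⟨γ, hγ, hI⟩ := ideal_gen hR (one_mul R).symm μ h hh
  obtain ⟨hN, hp⟩ := mem_A.1 hγ
  simp only [Nat.cast_one, one_smul] at hI
  refine card_unit_mul hp.ne_zero _ fun x => ?_
  rw [mem_filter, hI, mem_A]
  constructor
  · rintro ⟨⟨h1, -⟩, y, rfl⟩
    refine ⟨y, ?_, rfl⟩
    rw [N_mul, hN] at h1
    have h0 : (R : ℤ) ≠ 0 := by exact_mod_cast hR.pos.ne'
    exact mul_right_cancel₀ h0 (by rw [h1, one_mul])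
  · rintro ⟨y, hy, rfl⟩
    refine ⟨⟨by rw [N_mul, hy, hN, one_mul], ?_⟩, y, rfl⟩
    exact (prim_of_N_one hy).mul_coprime hp (hy ▸ isCoprime_one_left)

theorem mat_card_line {R : ℕ} (hR : Odd R) (μ : Model R) (t : ZMod R) :
    #((A R).filter fun α => μ.φ α *ᵥ ![1, t] = 0) = u := by
  have h := card_line hR μ !![1, 0; t, 1] (by simp [Matrix.det_fin_two])
  have e : !![1, 0; t, 1] *ᵥ ![1, 0] = ![1, t] := by
    ext i
    fin_cases i <;> simp
  rwa [e] at h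

theorem mat_card_line' {R : ℕ} (hR : Odd R) (μ : Model R) :
    #((A R).filter fun α => μ.φ α *ᵥ ![0, 1] = 0) = u := by
  have h := card_line hR μ !![0, 1; 1, 0] (by simp [Matrix.det_fin_two])
  have e : (!![0, 1; 1, 0] : Matrix (Fin 2) (Fin 2) (ZMod R)) *ᵥ ![1, 0] = ![0, 1] := by
    ext i
    fin_cases i <;> simp
  rwa [e] at h

theorem card_A_ge (n : ℕ) (hn : Odd n) : n * u ≤ #(A n) := by
  obtain ⟨μ⟩ := exists_model n hn
  have : NeZero n := ⟨hn.pos.ne'⟩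
  have h1 : #((univ : Finset (ZMod n)).biUnion fun t =>
      (A n).filter fun α => μ.φ α *ᵥ ![1, t] = 0) = n * u := by
    rw [card_biUnion]
    · simp only [mat_card_line hn μ, sum_const, card_univ, ZMod.card, smul_eq_mul]
    · intro t _ t' _ htt
      refine disjoint_left.2 fun α h h' => htt ?_
      rw [mem_filter] at h h'
      exact sub_eq_zero.1 (mat_kill μ (mem_A.1 h.1).2 (mat_two_lines h.2 h'.2))
  rw [← h1]
  exact card_le_card (biUnion_subset.2 fun t _ => filter_subset _ _)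

theorem card_A_le (r : ℕ) (hr : r.Prime) (ho : Odd r) : #(A r) ≤ (r + 1) * u := by
  obtain ⟨μ⟩ := exists_model r ho
  have := Fact.mk hr
  have h1 : A r ⊆ ((univ : Finset (ZMod r)).biUnion fun t =>
      (A r).filter fun α => μ.φ α *ᵥ ![1, t] = 0) ∪
      (A r).filter fun α => μ.φ α *ᵥ ![0, 1] = 0 := by
    intro α hα
    have hd : (μ.φ α).det = 0 := by
      rw [μ.det, (mem_A.1 hα).1, Int.cast_natCast, ZMod.natCast_self]
    obtain ⟨v, hv, h0⟩ := Matrix.exists_mulVec_eq_zero_iff.2 hd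
    have ev : v = ![v 0, v 1] := by
      ext i
      fin_cases i <;> rfl
    rw [mem_union, mem_biUnion]
    by_cases h : v 0 = 0
    · right
      have h' : v 1 ≠ 0 := fun h' => hv (by rw [ev, h, h']; simp)
      refine mem_filter.2 ⟨hα, ?_⟩
      have e : ![0, 1] = (v 1)⁻¹ • v := by
        ext i
        fin_cases i <;> simp [h, h']
      rw [e, Matrix.mulVec_smul, h0, smul_zero]
    · left
      refine ⟨(v 0)⁻¹ * v 1, mem_univ _, mem_filter.2 ⟨hα, ?_⟩⟩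
      have e : ![1, (v 0)⁻¹ * v 1] = (v 0)⁻¹ • v := by
        ext i
        fin_cases i <;> simp [h]
      rw [e, Matrix.mulVec_smul, h0, smul_zero]
  refine (card_le_card h1).trans ((card_union_le _ _).trans ?_)
  rw [mat_card_line' ho μ, add_mul, one_mul]
  refine Nat.add_le_add_right (card_biUnion_le.trans ?_) _
  simp only [mat_card_line ho μ, sum_const, card_univ, ZMod.card, smul_eq_mul, le_refl]

theorem mat_nonunit {r k : ℕ} [NeZero (r ^ k)] (hr : r.Prime) (hk : 0 < k) {x : ZMod (r ^ k)}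
    (hx : ¬ IsUnit x) : ((r ^ (k - 1) : ℕ) : ZMod (r ^ k)) * x = 0 := by
  obtain ⟨n, rfl⟩ := ZMod.natCast_zmod_surjective x
  rw [ZMod.isUnit_iff_coprime] at hx
  have h : r ∣ n := by
    by_contra h
    exact hx ((hr.coprime_iff_not_dvd.2 h).symm.pow_right k)
  rw [← Nat.cast_mul, ZMod.natCast_eq_zero_iff]
  conv_lhs => rw [show k = k - 1 + 1 by omega, pow_succ]
  exact Nat.mul_dvd_mul_left _ h

theorem mat_pow_ne {r k j : ℕ} (hr : r.Prime) (hj : j < k) :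
    ((r ^ j : ℕ) : ZMod (r ^ k)) ≠ 0 := by
  rw [Ne, ZMod.natCast_eq_zero_iff, Nat.pow_dvd_pow_iff_le_right hr.one_lt]
  omega

theorem mat_exists_d {r k j : ℕ} [NeZero (r ^ k)] (hr : r.Prime) (hj : j < k)
    {m : Matrix (Fin 2) (Fin 2) (ZMod (r ^ k))} (hd : m.det = 0)
    (hm : ((r ^ (k - 1) : ℕ) : ZMod (r ^ k)) • m ≠ 0)
    (h : ((r ^ j : ℕ) : ZMod (r ^ k)) • (m *ᵥ ![1, 0]) = 0) :
    ∃ d, ((r ^ j : ℕ) : ZMod (r ^ k)) * d = 0 ∧ m *ᵥ ![1, d] = 0 := by
  rw [mat_line] at h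
  simp only [mul_one, mul_zero, add_zero] at h
  rw [Matrix.det_fin_two] at hd
  have hk : 0 < k := by omega
  by_cases h01 : IsUnit (m 0 1)
  · obtain ⟨s, hs⟩ := h01.exists_right_inv
    refine ⟨-m 0 0 * s, by linear_combination -s * h.1, (mat_line' _ _ _).2 ⟨?_, ?_⟩⟩
    · linear_combination -m 0 0 * hs
    · linear_combination -m 1 0 * hs - s * hd
  by_cases h11 : IsUnit (m 1 1)
  · obtain ⟨s, hs⟩ := h11.exists_right_inv
    refine ⟨-m 1 0 * s, by linear_combination -s * h.2, (mat_line' _ _ _).2 ⟨?_, ?_⟩⟩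
    · linear_combination -m 0 0 * hs + s * hd
    · linear_combination -m 1 0 * hs
  have h00 : ¬ IsUnit (m 0 0) := fun hu => mat_pow_ne hr hj (hu.mul_left_eq_zero.1 h.1)
  have h10 : ¬ IsUnit (m 1 0) := fun hu => mat_pow_ne hr hj (hu.mul_left_eq_zero.1 h.2)
  refine absurd ?_ hm
  ext a b
  fin_cases a <;> fin_cases b
  · exact mat_nonunit hr hk h00
  · exact mat_nonunit hr hk h01
  · exact mat_nonunit hr hk h10
  · exact mat_nonunit hr hk h11

theorem level_sum {E : Type*} [AddCommMonoid E] (F : O → E) {r k j : ℕ} [NeZero (r ^ k)]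
    (hr : r.Prime) (hj : j < k) (μ : Model (r ^ k))
    (h : Matrix (Fin 2) (Fin 2) (ZMod (r ^ k))) (hh : IsUnit h.det) {γ : O}
    (hγ : ∀ x, ((r ^ j : ℕ) : ZMod (r ^ k)) • (μ.φ x *ᵥ (h *ᵥ ![1, 0])) = 0 ↔ ∃ y, x = y * γ) :
    ∑ d ∈ univ.filter (fun d : ZMod (r ^ k) => ((r ^ j : ℕ) : ZMod (r ^ k)) * d = 0),
      ∑ α ∈ (A (r ^ k)).filter (fun α => μ.φ α *ᵥ (h *ᵥ ![1, d]) = 0), F α =
    ∑ α ∈ (A (r ^ k)).filter (fun α => ∃ y, α = y * γ), F α := by
  simp only [sum_filter (s := A (r ^ k)), Matrix.mulVec_mulVec] at hγ ⊢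
  rw [sum_comm]
  refine sum_congr rfl fun α hα => ?_
  obtain ⟨hN, hp⟩ := mem_A.1 hα
  by_cases hq : ∃ y, α = y * γ
  · rw [if_pos hq]
    have hd : (μ.φ α * h).det = 0 := by
      rw [Matrix.det_mul, μ.det, hN, Int.cast_natCast, ZMod.natCast_self, zero_mul]
    obtain ⟨d, hd1, hd2⟩ := mat_exists_d hr hj hd
      (fun e => mat_pow_ne hr (by omega) (mat_kill' μ hp hh e)) ((hγ α).2 hq)
    rw [sum_eq_single d, if_pos hd2]
    · intro d' _ hne
      refine if_neg fun h' => hne ?_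
      exact sub_eq_zero.1 (mat_kill' μ hp hh (mat_two_lines h' hd2))
    · intro hn
      exact (hn (mem_filter.2 ⟨mem_univ _, hd1⟩)).elim
  · rw [if_neg hq]
    refine sum_eq_zero fun d hd => if_neg fun h' => hq ((hγ α).1 ?_)
    have h1 := (mem_filter.1 hd).2
    rw [mat_line'] at h'
    rw [mat_line]
    constructor
    · linear_combination ((r ^ j : ℕ) : ZMod (r ^ k)) * h'.1 - (μ.φ α * h) 0 1 * h1
    · linear_combination ((r ^ j : ℕ) : ZMod (r ^ k)) * h'.2 - (μ.φ α * h) 1 1 * h1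

end Pool.Agent.Lib.MP_f6c7cf_nt.E
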