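import Pool.Agent.Lib.MP_f6c7cf_nt.E.Mat
import Pool.Agent.Lib.MP_f6c7cf_nt.E.Decay

/-! The tower of an auxiliary prime. -/

namespace Pool.Agent.Lib.MP_f6c7cf_nt.E

open Finset
open scoped Quaternion RealInnerProductSpace Classical Matrix

variable {M : ℕ} {E : Type} [NormedAddCommGroup E] [InnerProductSpace ℝ E]

theorem Rep.norm_τ (ρ : Rep M E) {v : O} (hv : IsCoprime (N v) (M : ℤ)) (x : E) :
    ‖ρ.τ v x‖ = ‖x‖ := by
  rw [@norm_eq_sqrt_real_inner E, ρ.iso v hv, ← norm_eq_sqrt_real_inner]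

theorem ne_zero_of_mem_A {n : ℕ} {v : O} (h : v ∈ A n) : v ≠ 0 := (mem_A.1 h).2.ne_zero

theorem Rep.T_mul (ρ : Rep M E) {m n : ℕ} (hm : Odd m) (hn : Odd n) (h : Nat.Coprime m n)
    (x : E) : ρ.T n (ρ.T m x) = (u : ℝ) • ρ.T (m * n) x := by
  rw [ρ.T_apply (m * n), Nat.cast_smul_eq_nsmul, ← sum_mul_coprime (fun δ => ρ.τ δ x) hm.pos.ne'
    hn h, ρ.T_apply m, map_sum]
  refine sum_congr rfl fun α hα => ?_
  rw [ρ.T_apply]
  exact sum_congr rfl fun v hv => (ρ.mul _ _ (ne_zero_of_mem_A hα) (ne_zero_of_mem_A hv) x).symm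

theorem sum_star {F : O → E} {n : ℕ} : ∑ β ∈ A n, F (star β) = ∑ β ∈ A n, F β :=
  sum_nbij' star star (fun _ h => star_mem_A h) (fun _ h => star_mem_A h)
    (fun _ _ => star_star _) (fun _ _ => star_star _) fun _ _ => rfl

theorem Rep.τ_star (ρ : Rep M E) {n : ℕ} {β : O} (h : β ∈ A n) (x : E) :
    ρ.τ β (ρ.τ (star β) x) = ρ.τ ((n : ℤ) • (1 : O)) x := by
  rw [← ρ.mul _ _ (ne_zero_of_mem_A (star_mem_A h)) (ne_zero_of_mem_A h), star_mul_self',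
    (mem_A.1 h).1]

theorem Rep.adj (ρ : Rep M E) {n : ℕ} (hn : IsCoprime (n : ℤ) (M : ℤ)) (x y : E) :
    ⟪ρ.T n x, ρ.τ ((n : ℤ) • (1 : O)) y⟫ = ⟪x, ρ.T n y⟫ := by
  rw [ρ.T_apply, ρ.T_apply, ← sum_star (F := fun β => ρ.τ β y), sum_inner, inner_sum]
  refine sum_congr rfl fun β hβ => ?_
  rw [← ρ.τ_star hβ, ρ.iso β (by rw [(mem_A.1 hβ).1]; exact hn)]

theorem Rep.iso_Z (ρ : Rep M E) {n : ℕ} (hn : IsCoprime (n : ℤ) (M : ℤ)) (x y : E) :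
    ⟪ρ.τ ((n : ℤ) • (1 : O)) x, ρ.τ ((n : ℤ) • (1 : O)) y⟫ = ⟪x, y⟫ :=
  ρ.iso _ (by rw [N_smul, show N 1 = 1 from map_one _, mul_one]; exact hn.pow_left) x y

theorem Rep.norm_T_le (ρ : Rep M E) {n : ℕ} (hn : IsCoprime (n : ℤ) (M : ℤ)) (x : E) :
    ‖ρ.T n x‖ ≤ #(A n) * ‖x‖ := by
  rw [ρ.T_apply]
  refine (norm_sum_le _ _).trans_eq ?_
  rw [sum_congr rfl fun β hβ => ρ.norm_τ (by rw [(mem_A.1 hβ).1]; exact hn) x, sum_const,
    nsmul_eq_mul]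

theorem Rep.mem_Fix_of_norm (ρ : Rep M E) {n : ℕ} (hn : IsCoprime (n : ℤ) (M : ℤ)) {x : E}
    (h : ⟪ρ.T n x, ρ.T n x⟫ = (#(A n) : ℝ) ^ 2 * ⟪x, x⟫) : x ∈ ρ.Fix n := by
  have h1 : ∑ β ∈ A n, ∑ β' ∈ A n, ⟪ρ.τ β x - ρ.τ β' x, ρ.τ β x - ρ.τ β' x⟫ = 0 := by
    have e : ∀ β ∈ A n, ∀ β' ∈ A n, ⟪ρ.τ β x - ρ.τ β' x, ρ.τ β x - ρ.τ β' x⟫ =
        2 * ⟪x, x⟫ - 2 * ⟪ρ.τ β x, ρ.τ β' x⟫ := fun β hβ β' hβ' => by
      rw [real_inner_sub_sub_self, ρ.iso β (by rw [(mem_A.1 hβ).1]; exact hn),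
        ρ.iso β' (by rw [(mem_A.1 hβ').1]; exact hn)]
      ring
    rw [sum_congr rfl fun β hβ => sum_congr rfl fun β' hβ' => e β hβ β' hβ']
    rw [ρ.T_apply, sum_inner] at h
    simp only [inner_sum] at h
    simp only [sum_sub_distrib, ← mul_sum, h, sum_const, nsmul_eq_mul]
    ring
  intro β hβ β' hβ'
  have h2 := (sum_eq_zero_iff_of_nonneg fun _ _ => sum_nonneg fun _ _ =>
    real_inner_self_nonneg).1 h1 β hβ
  exact sub_eq_zero.1 (inner_self_eq_zero.1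
    ((sum_eq_zero_iff_of_nonneg fun _ _ => real_inner_self_nonneg).1 h2 β' hβ'))

theorem cop {r : ℕ} (hr : r.Prime) (hrM : ¬ r ∣ M) : IsCoprime (r : ℤ) (M : ℤ) :=
  Nat.isCoprime_iff_coprime.2 ((Nat.Prime.coprime_iff_not_dvd hr).2 hrM)

theorem Rep.mem_Fix_iff (ρ : Rep M E) {r : ℕ} (hr : r.Prime) (hrM : ¬ r ∣ M) (x : E) :
    x ∈ ρ.Fix r ↔ ρ.T r (ρ.T r x) = ((#(A r) : ℝ) ^ 2) • ρ.τ ((r : ℤ) • (1 : O)) x := by
  refine ⟨fun h => ?_, fun h => ρ.mem_Fix_of_norm (cop hr hrM) ?_⟩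
  · have e : ∀ β ∈ A r, ρ.τ β (ρ.T r x) = (#(A r) : ℝ) • ρ.τ ((r : ℤ) • (1 : O)) x := by
      intro β hβ
      rw [ρ.T_apply, sum_congr rfl fun β' hβ' => h β' hβ' _ (star_mem_A hβ), sum_const, map_nsmul,
        ρ.τ_star hβ, Nat.cast_smul_eq_nsmul ℝ]
    rw [ρ.T_apply, sum_congr rfl e, sum_const, ← Nat.cast_smul_eq_nsmul ℝ, smul_smul, sq]
  · rw [← ρ.adj (cop hr hrM), h, real_inner_smul_left, ρ.iso_Z (cop hr hrM)]

theorem not_prim_iff {r i : ℕ} (hr : r.Prime) (ho : Odd r) {a β γ : O} (ha : Prim a)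
    (hβ : N β = r) (hγ : β * γ ∈ A (r ^ i)) : ¬ Prim (a * (β * γ)) ↔ ∃ y, a = y * star β := by
  constructor
  · intro h
    rw [prim_iff] at h
    push Not at h
    obtain ⟨p, hp, w, hw⟩ := h
    have h1 : N (β * γ) • a = (p : ℤ) • (w * star (β * γ)) := by
      rw [← smul_mul_assoc, ← hw, mul_assoc, mul_star_self', mul_smul_comm, mul_one]
    have h2 := ha.dvd h1
    rw [(mem_A.1 hγ).1, Int.natCast_dvd_natCast] at h2
    obtain rfl := (Nat.prime_dvd_prime_iff_eq hp hr).1 (hp.dvd_of_dvd_pow h2)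
    exact jlemma (mem_A.1 hγ).2 ho hβ hw
  · rintro ⟨y, rfl⟩ h
    refine (prim_iff _).1 h r hr ⟨y * γ, ?_⟩
    rw [mul_assoc, ← mul_assoc (star β), star_mul_self', hβ, smul_mul_assoc, one_mul,
      mul_smul_comm]

theorem not_prim_iff' {r : ℕ} (hr : r.Prime) (ho : Odd r) {a β : O} (ha : Prim a)
    (hβ : β ∈ A r) : ¬ Prim (a * β) ↔ ∃ y, a = y * star β := by
  have := not_prim_iff (i := 1) (γ := 1) hr ho ha (mem_A.1 hβ).1 (by simpa using hβ)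
  rwa [mul_one] at this

theorem card_not_prim {r i : ℕ} (hr : r.Prime) (ho : Odd r) {v : O} (hv : v ∈ A (r ^ (i + 1))) :
    #((A r).filter fun β => ¬ Prim (v * star β)) = u := by
  obtain ⟨β₀, h1, ⟨α, h2⟩, h3⟩ := exists_right_factor (mem_A.1 hv).2 ho
    (by rw [(mem_A.1 hv).1]; exact_mod_cast dvd_pow_self r i.succ_ne_zero)
  refine card_unit_mul (β := β₀) (ne_zero_of_mem_A (mem_A.2 ⟨h1, prim_of_N_prime hr h1⟩)) _
    fun x => ?_
  rw [mem_filter]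
  constructor
  · rintro ⟨hx, h⟩
    obtain ⟨y, hy⟩ := (not_prim_iff' hr ho (mem_A.1 hv).2 (star_mem_A hx)).1 h
    rw [star_star] at hy
    exact h3 y x hy (mem_A.1 hx).1
  · rintro ⟨e, he, rfl⟩
    have h4 : N (e * β₀) = r := by rw [N_mul, he, one_mul, h1]
    have hx := mem_A.2 ⟨h4, prim_of_N_prime hr h4⟩
    refine ⟨hx, (not_prim_iff' hr ho (mem_A.1 hv).2 (star_mem_A hx)).2 ⟨α * star e, ?_⟩⟩
    rw [star_star, mul_assoc, ← mul_assoc (star e), star_mul_self', he, one_smul, one_mul, h2]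

theorem Rep.recur (ρ : Rep M E) {r : ℕ} (hr : r.Prime) (ho : Odd r) (i : ℕ) (η : E) :
    ρ.T r (ρ.T (r ^ (i + 1)) η) = (u : ℝ) • ρ.T (r ^ (i + 2)) η +
      ∑ v ∈ A (r ^ i), #((A r).filter fun β => Prim (v * star β)) •
        ρ.τ ((r : ℤ) • (1 : O)) (ρ.τ v η) := by
  have h1 : ρ.T r (ρ.T (r ^ (i + 1)) η) = ∑ α ∈ A (r ^ (i + 1)), ∑ β ∈ A r, ρ.τ (α * β) η := by
    rw [ρ.T_apply (r ^ (i + 1)), map_sum]
    refine sum_congr rfl fun α hα => ?_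
    rw [ρ.T_apply]
    exact sum_congr rfl fun v hv => (ρ.mul _ _ (ne_zero_of_mem_A hα) (ne_zero_of_mem_A hv) _).symm
  rw [h1, sum_congr rfl fun α _ => (sum_filter_add_sum_filter_not (A r) (fun β => Prim (α * β))
    fun β => ρ.τ (α * β) η).symm, sum_add_distrib,
    sum_mul (fun δ => ρ.τ δ η) (pow_ne_zero _ hr.ne_zero) ho, ← pow_succ, ← ρ.T_apply,
    Nat.cast_smul_eq_nsmul]
  congr 1
  simp only [sum_filter, card_filter, sum_smul]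
  rw [sum_comm]
  refine Eq.trans (sum_congr rfl fun β hβ => ?_) sum_comm
  have h2 := sum_right (fun α => ρ.τ (α * β) η) (n := r ^ i) hr.ne_zero
    (mem_A.1 (star_mem_A hβ)).1
  rw [← pow_succ, sum_filter, sum_filter] at h2
  rw [sum_congr rfl fun α hα => if_congr (not_prim_iff' hr ho (mem_A.1 hα).2 hβ) rfl rfl, h2]
  refine sum_congr rfl fun v hv => ?_
  split_ifs
  · rw [one_smul, mul_assoc, star_mul_self', (mem_A.1 hβ).1, ρ.mul _ _ (ne_zero_of_mem_A hv)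
      (smul_ne_zero (by exact_mod_cast hr.ne_zero) one_ne_zero)]
  · rw [zero_smul]

theorem Rep.recur_zero (ρ : Rep M E) {r : ℕ} (hr : r.Prime) (ho : Odd r) (η : E) :
    ρ.T r (ρ.T r η) = (u : ℝ) • ρ.T (r ^ 2) η +
      (#(A r) : ℝ) • ρ.τ ((r : ℤ) • (1 : O)) (ρ.T 1 η) := by
  have := ρ.recur hr ho 0 η
  rw [zero_add, pow_one, zero_add, pow_zero] at this
  rw [this, ρ.T_apply 1, map_sum, smul_sum]
  congr 1
  refine sum_congr rfl fun v hv => ?_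
  rw [filter_true_of_mem fun β hβ => prim_of_N_prime hr (by
    rw [N_mul, (mem_A.1 hv).1, N_star, (mem_A.1 hβ).1]; simp), Nat.cast_smul_eq_nsmul ℝ]

theorem Rep.recur_succ (ρ : Rep M E) {r : ℕ} (hr : r.Prime) (ho : Odd r) (i : ℕ) (η : E) :
    ρ.T r (ρ.T (r ^ (i + 2)) η) = (u : ℝ) • ρ.T (r ^ (i + 3)) η +
      ((#(A r) : ℝ) - u) • ρ.τ ((r : ℤ) • (1 : O)) (ρ.T (r ^ (i + 1)) η) := by
  rw [ρ.recur hr ho (i + 1) η, ρ.T_apply (r ^ (i + 1)), map_sum, smul_sum]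
  congr 1
  refine sum_congr rfl fun v hv => ?_
  have := card_filter_add_card_filter_not (s := A r) fun β => Prim (v * star β)
  rw [card_not_prim hr ho hv] at this
  rw [← this, Nat.cast_add, add_sub_cancel_right, Nat.cast_smul_eq_nsmul ℝ]

theorem Rep.Z_comm (ρ : Rep M E) {r : ℕ} (hr : r ≠ 0) (n : ℕ) (x : E) :
    ρ.T n (ρ.τ ((r : ℤ) • (1 : O)) x) = ρ.τ ((r : ℤ) • (1 : O)) (ρ.T n x) := by
  have h0 : (r : ℤ) • (1 : O) ≠ 0 := smul_ne_zero (by exact_mod_cast hr) one_ne_zero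
  rw [ρ.T_apply, ρ.T_apply, map_sum]
  refine sum_congr rfl fun v hv => ?_
  rw [← ρ.mul _ _ h0 (ne_zero_of_mem_A hv), ← ρ.mul _ _ (ne_zero_of_mem_A hv) h0, smul_mul_assoc,
    mul_smul_comm, one_mul, mul_one]

theorem Rep.τ_one (ρ : Rep M E) (x : E) : ρ.τ 1 x = x := by
  have h := ρ.mul 1 1 one_ne_zero one_ne_zero x
  rw [mul_one] at h
  have h1 := ρ.norm_τ (v := 1) (by rw [show N 1 = 1 from map_one _]; exact isCoprime_one_left)
    (ρ.τ 1 x - x)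
  rw [map_sub, ← h, sub_self, norm_zero] at h1
  exact sub_eq_zero.1 (norm_eq_zero.1 h1.symm)

theorem Rep.perp [FiniteDimensional ℝ E] (ρ : Rep M E) {r : ℕ} (hr : r.Prime) (ho : Odd r)
    (hrM : ¬ r ∣ M) {η : E} (h : η ∈ (ρ.Fix r)ᗮ) :
    ρ.T r η ∈ (ρ.Fix r)ᗮ ∧ ρ.τ ((r : ℤ) • (1 : O)) η ∈ (ρ.Fix r)ᗮ ∧ ρ.T 1 η ∈ (ρ.Fix r)ᗮ := by
  have c := cop hr hrM
  have f1 : ∀ x ∈ ρ.Fix r, ρ.T r x ∈ ρ.Fix r := fun x hx => by
    rw [ρ.mem_Fix_iff hr hrM] at hx ⊢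
    rw [hx, map_smul, ρ.Z_comm hr.ne_zero]
  have f2 : ∀ x ∈ ρ.Fix r, ρ.τ ((r : ℤ) • (1 : O)) x ∈ ρ.Fix r := fun x hx => by
    rw [ρ.mem_Fix_iff hr hrM] at hx ⊢
    rw [ρ.Z_comm hr.ne_zero, ρ.Z_comm hr.ne_zero, hx, map_smul]
  have f3 : ∀ x ∈ ρ.Fix r, ρ.T 1 x ∈ ρ.Fix r := fun x hx => by
    have e : ∀ y, ρ.T r (ρ.T 1 y) = ρ.T 1 (ρ.T r y) := fun y => by
      rw [ρ.T_mul odd_one ho (Nat.coprime_one_left r), ρ.T_mul ho odd_one
        (Nat.coprime_one_right r), one_mul, mul_one]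
    rw [ρ.mem_Fix_iff hr hrM] at hx ⊢
    rw [e, e, hx, map_smul, ρ.Z_comm hr.ne_zero]
  have f4 : ∀ x ∈ ρ.Fix r, ∃ y ∈ ρ.Fix r, ρ.τ ((r : ℤ) • (1 : O)) y = x := fun x hx => by
    obtain ⟨y, hy⟩ := LinearMap.surjective_of_injective
      (f := (ρ.τ ((r : ℤ) • (1 : O))).toLinearMap.restrict f2)
      ((injective_iff_map_eq_zero _).2 fun y hy => Subtype.ext (inner_self_eq_zero (𝕜 := ℝ).1 (by
        rw [← ρ.iso_Z c, show ρ.τ ((r : ℤ) • (1 : O)) y = 0 from congrArg Subtype.val hy,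
          inner_zero_left]))) ⟨x, hx⟩
    exact ⟨y, y.2, congrArg Subtype.val hy⟩
  rw [Submodule.mem_orthogonal'] at h
  simp only [Submodule.mem_orthogonal']
  refine ⟨fun x hx => ?_, fun x hx => ?_, fun x hx => ?_⟩
  · obtain ⟨y, hy, rfl⟩ := f4 x hx
    rw [ρ.adj c, h _ (f1 y hy)]
  · obtain ⟨y, hy, rfl⟩ := f4 x hx
    rw [ρ.iso_Z c, h _ hy]
  · have := ρ.adj (n := 1) (by simpa using isCoprime_one_left) η x
    rw [Nat.cast_one, one_smul, ρ.τ_one] at this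
    rw [this, h _ (f3 x hx)]

theorem Rep.gap [FiniteDimensional ℝ E] (ρ : Rep M E) {r : ℕ} (c : IsCoprime (r : ℤ) (M : ℤ))
    (ha : (0 : ℝ) < #(A r)) : ∃ lam : ℝ, 0 ≤ lam ∧ lam < 1 ∧
      ∀ x ∈ (ρ.Fix r)ᗮ, ‖ρ.T r x‖ ≤ lam * #(A r) * ‖x‖ := by
  have := FiniteDimensional.proper_real E
  by_cases h0 : (Metric.sphere (0 : E) 1 ∩ (ρ.Fix r)ᗮ).Nonempty
  swap
  · refine ⟨0, le_rfl, one_pos, fun x hx => ?_⟩
    obtain rfl : x = 0 := by_contra fun h => h0 ⟨‖x‖⁻¹ • x, by simp [norm_smul, h],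
      Submodule.smul_mem _ _ hx⟩
    simp
  obtain ⟨x₀, ⟨h1, h2⟩, h3⟩ := ((isCompact_sphere (0 : E) 1).inter_right
    (ρ.Fix r).isClosed_orthogonal).exists_isMaxOn h0 (ρ.T r).continuous.norm.continuousOn
  have h1' : ‖x₀‖ = 1 := by simpa using h1
  refine ⟨‖ρ.T r x₀‖ / #(A r), by positivity, ?_, fun x hx => ?_⟩
  · rw [div_lt_one ha]
    refine lt_of_le_of_ne ((ρ.norm_T_le c x₀).trans_eq (by rw [h1', mul_one])) fun h => ?_
    have h4 := ρ.mem_Fix_of_norm c (x := x₀) (by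
      rw [real_inner_self_eq_norm_sq, real_inner_self_eq_norm_sq, h, h1']; ring)
    have h5 := inner_self_eq_zero.1 ((Submodule.mem_orthogonal _ _).1 h2 x₀ h4)
    simp [h5] at h1'
  · rw [div_mul_cancel₀ _ ha.ne']
    by_cases h : x = 0
    · simp [h]
    have h4 : ‖ρ.T r (‖x‖⁻¹ • x)‖ ≤ ‖ρ.T r x₀‖ :=
      h3 ⟨by simp [norm_smul, h], Submodule.smul_mem _ _ hx⟩
    rwa [map_smul, norm_smul, norm_inv, norm_norm, inv_mul_le_iff₀ (norm_pos_iff.2 h),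
      mul_comm] at h4

theorem odd_of {r : ℕ} (hM : Even M) (hr : r.Prime) (hrM : ¬ r ∣ M) : Odd r :=
  hr.odd_of_ne_two fun h => hrM (h ▸ hM.two_dvd)

theorem Rep.tower [FiniteDimensional ℝ E] (ρ : Rep M E) (hM : Even M) {r : ℕ} (hr : r.Prime)
    (hrM : ¬ r ∣ M) :
    ∃ C θ : ℝ, 0 < C ∧ 0 < θ ∧ θ < 1 ∧ 1 ≤ r * θ ∧ ∀ η ∈ (ρ.Fix r)ᗮ, ∀ i : ℕ,
      ρ.T (r ^ i) η ∈ (ρ.Fix r)ᗮ ∧ ‖ρ.T (r ^ i) η‖ ≤ C * (r * θ) ^ i * ‖η‖ := by
  have ho := odd_of hM hr hrM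
  have c := cop hr hrM
  have hu : (0 : ℝ) < u := by exact_mod_cast u_pos
  have r3 : (3 : ℝ) ≤ r := by
    have := hr.two_le
    obtain ⟨k, rfl⟩ := ho
    exact_mod_cast (by omega : 3 ≤ 2 * k + 1)
  have a1 : (r : ℝ) * u ≤ #(A r) := by exact_mod_cast card_A_ge r ho
  have a2 : (#(A r) : ℝ) ≤ (r + 1) * u := by exact_mod_cast card_A_le r hr ho
  have ha : (0 : ℝ) < #(A r) := by nlinarith
  obtain ⟨q, hq⟩ : ∃ q : ℝ, (#(A r) : ℝ) = (q + 1) * u := ⟨#(A r) / u - 1, by field_simp; ring⟩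
  have q1 : 1 < q := by nlinarith
  have q2 : q ≤ r := by nlinarith
  have q0 : 0 < q := by linarith
  obtain ⟨lam, l0, l1, l2⟩ := ρ.gap c ha
  obtain ⟨C, θ, hC, t0, t1, hd⟩ := decay q1 l0 l1
  have t2 : 1 ≤ r * max θ (1 / 3) := by nlinarith [le_max_right θ (1 / 3)]
  refine ⟨C * r * (#(A r) + #(A (r ^ 2))) + u, max θ (1 / 3), by positivity, by positivity,
    max_lt t1 (by norm_num), t2, fun η hη => ?_⟩
  have mem : ∀ i, ρ.T (r ^ i) η ∈ (ρ.Fix r)ᗮ ∧ ρ.T (r ^ (i + 1)) η ∈ (ρ.Fix r)ᗮ := by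
    intro i
    induction i with
    | zero => simpa using ⟨(ρ.perp hr ho hrM hη).2.2, (ρ.perp hr ho hrM hη).1⟩
    | succ i ih =>
      refine ⟨ih.2, (Submodule.smul_mem_iff _ hu.ne').1 ?_⟩
      have p1 := (ρ.perp hr ho hrM ih.2).1
      have p2 := (ρ.perp hr ho hrM ih.1).2.1
      rcases i with _ | i
      · rw [zero_add, pow_one, ρ.recur_zero hr ho] at p1
        rw [pow_zero] at p2
        exact (Submodule.add_mem_iff_left _ (Submodule.smul_mem _ _ p2)).1 p1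
      · rw [ρ.recur_succ hr ho] at p1
        exact (Submodule.add_mem_iff_left _ (Submodule.smul_mem _ _ p2)).1 p1
  have key := hd E ((#(A r) : ℝ)⁻¹ • ρ.T r) (ρ.τ ((r : ℤ) • (1 : O))) (ρ.Fix r)ᗮ
    (fun x y => by simp only [ContinuousLinearMap.smul_apply, real_inner_smul_left,
      real_inner_smul_right, ρ.adj c]) (ρ.iso_Z c)
    (fun x => by
      rw [ContinuousLinearMap.smul_apply, norm_smul, norm_inv, Real.norm_natCast,
        inv_mul_le_iff₀ ha]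
      exact ρ.norm_T_le c x)
    (fun x hx => by
      rw [ContinuousLinearMap.smul_apply, norm_smul, norm_inv, Real.norm_natCast,
        inv_mul_le_iff₀ ha]
      exact (l2 x hx).trans_eq (by ring))
    (fun i => (q ^ (i + 1))⁻¹ • ρ.T (r ^ (i + 1)) η)
    (fun i => Submodule.smul_mem _ _ (mem i).2) (fun i => by
      simp only [ContinuousLinearMap.smul_apply, map_smul, ρ.recur_succ hr ho, smul_add, smul_smul,
        hq]
      rw [add_sub_assoc, ← sub_smul]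
      have e1 : (q + 1) * ((q ^ (i + 1 + 1))⁻¹ * (((q + 1) * u)⁻¹ * ((q + 1) * u - u))) -
          (q ^ (i + 1))⁻¹ = 0 := by field_simp; ring
      have e2 : q * (q ^ (i + 2 + 1))⁻¹ =
          (q + 1) * ((q ^ (i + 1 + 1))⁻¹ * (((q + 1) * u)⁻¹ * u)) := by field_simp; ring
      rw [e1, zero_smul, add_zero, e2])
  refine fun i => ⟨(mem i).1, ?_⟩
  have hn := norm_nonneg η
  rcases i with _ | i
  · have := ρ.norm_T_le (n := 1) (by simpa using isCoprime_one_left) η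
    rw [pow_zero, pow_zero, mul_one]
    refine this.trans (mul_le_mul_of_nonneg_right (le_add_of_nonneg_left (by positivity)) hn)
  have b : ∀ j, ‖(q ^ j)⁻¹ • ρ.T (r ^ j) η‖ ≤ #(A (r ^ j)) * ‖η‖ := fun j => by
    rw [norm_smul, norm_inv, Real.norm_of_nonneg (by positivity)]
    exact (mul_le_of_le_one_left (norm_nonneg _) (inv_le_one_of_one_le₀ (one_le_pow₀ q1.le))).trans
      (ρ.norm_T_le (by push_cast; exact c.pow_left) η)
  have k1 := key i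
  rw [norm_smul, norm_inv, Real.norm_of_nonneg (by positivity), inv_mul_le_iff₀ (by positivity)]
    at k1
  have b1 := b (0 + 1)
  have b2 := b (1 + 1)
  rw [show r ^ (0 + 1) = r from pow_one r] at b1 k1
  calc ‖ρ.T (r ^ (i + 1)) η‖ ≤ q ^ (i + 1) * (C * θ ^ i * (#(A r) * ‖η‖ + #(A (r ^ 2)) * ‖η‖)) :=
        k1.trans (by gcongr)
    _ ≤ r ^ (i + 1) * (C * max θ (1 / 3) ^ i * (#(A r) * ‖η‖ + #(A (r ^ 2)) * ‖η‖)) := by
        gcongr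
        exact le_max_left _ _
    _ = C * r * (#(A r) + #(A (r ^ 2))) * (r * max θ (1 / 3)) ^ i * ‖η‖ := by ring
    _ ≤ _ := by
        gcongr
        · exact le_add_of_nonneg_right hu.le
        · exact Nat.le_succ i

theorem Rep.branch (ρ : Rep M E) (hM : Even M) {r : ℕ} (hr : r.Prime) (hrM : ¬ r ∣ M) (η : E)
    (j : ℕ) {i : ℕ} (hi : 1 ≤ i) {γ : O} (hγ : γ ∈ A (r ^ i)) :
    ‖∑ a ∈ (A (r ^ j)).filter (fun a => Prim (a * γ)), ρ.τ a η‖ ≤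
      ∑ l ∈ range (j + 1), ‖ρ.T (r ^ l) η‖ := by
  have ho := odd_of hM hr hrM
  induction j generalizing i γ with
  | zero =>
    rw [filter_true_of_mem fun a ha => (mem_A.1 ha).2.mul_coprime (mem_A.1 hγ).2 (by
      rw [(mem_A.1 ha).1]; simpa using isCoprime_one_left), ← ρ.T_apply]
    simp
  | succ j ih =>
    obtain ⟨β, γ', hβ, rfl⟩ := exists_left_factor (mem_A.1 hγ).2 ho
      (by rw [(mem_A.1 hγ).1]; exact_mod_cast dvd_pow_self r (by omega))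
    have hβ' : star β ∈ A r := star_mem_A (mem_A.2 ⟨hβ, prim_of_N_prime hr hβ⟩)
    have h1 := sum_filter_add_sum_filter_not (A (r ^ (j + 1))) (fun a => Prim (a * (β * γ')))
      fun a => ρ.τ a η
    rw [filter_congr fun a ha => not_prim_iff hr ho (mem_A.1 ha).2 hβ hγ, pow_succ,
      sum_right (fun a => ρ.τ a η) hr.ne_zero (mem_A.1 hβ').1, ← pow_succ, ← ρ.T_apply,
      sum_congr rfl fun v hv => ρ.mul _ _ (ne_zero_of_mem_A (mem_filter.1 hv).1)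
        (ne_zero_of_mem_A hβ') η, ← map_sum] at h1
    rw [eq_sub_of_add_eq h1, sum_range_succ]
    refine (norm_sub_le _ _).trans ((add_comm _ _).trans_le (add_le_add ?_ le_rfl))
    rw [ρ.norm_τ (by rw [(mem_A.1 hβ').1]; exact cop hr hrM)]
    exact ih le_rfl (by simpa using hβ')

end Pool.Agent.Lib.MP_f6c7cf_nt.E
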